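import Pool.Agent.X277.SR.Act

set_option autoImplicit false
set_option linter.unusedSectionVars false

/-! Groups all of whose finite quotients are quotients of `SL_n(ℤ)`: actions on local rings. -/

namespace Pool.Agent.X277.SR

section
variable {n : ℕ} {Λ : Type} [Group Λ] {A : Type*} [CommRing A] {m : Ideal A}

/-- the action of an automorphism on `m / m²` -/
def cotMap (f : A ≃+* A) (hf : ∀ a, f a - a ∈ m) :
    m →ₗ[A] (m ⧸ (m • ⊤ : Submodule A m)) where
  toFun x := Submodule.Quotient.mk ⟨f x, by
    have := m.add_mem (hf x) x.2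
    rwa [sub_add_cancel] at this⟩
  map_add' x y := by
    rw [← Submodule.Quotient.mk_add]
    congr 1
    apply Subtype.ext
    show f ((x : A) + y) = f x + f y
    exact map_add f _ _
  map_smul' a x := by
    rw [RingHom.id_apply, ← Submodule.Quotient.mk_smul, ← sub_eq_zero, ← Submodule.Quotient.mk_sub,
      Submodule.Quotient.mk_eq_zero, Submodule.mem_smul_top_iff]
    show f (a * x) - a * f x ∈ _
    have h1 : f (a * x) - a * f x = (f a - a) * f x := by rw [map_mul]; ring
    rw [h1]
    exact Submodule.smul_mem_smul (hf a) (by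
      have := m.add_mem (hf x) x.2
      rwa [sub_add_cancel] at this)

lemma cotMap_apply (f : A ≃+* A) (hf : ∀ a, f a - a ∈ m) (x : A) (hx : x ∈ m) (hfx : f x ∈ m) :
    cotMap f hf ⟨x, hx⟩ = Submodule.Quotient.mk ⟨f x, hfx⟩ := rfl

lemma cotMap_ker (f : A ≃+* A) (hf : ∀ a, f a - a ∈ m) :
    (m • ⊤ : Submodule A m) ≤ LinearMap.ker (cotMap f hf) := by
  rw [Submodule.smul_le]
  intro a ha x _
  rw [LinearMap.mem_ker, map_smul]
  obtain ⟨y, hy⟩ := Submodule.Quotient.mk_surjective _ (cotMap f hf x)
  rw [← hy, ← Submodule.Quotient.mk_smul, Submodule.Quotient.mk_eq_zero]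
  exact Submodule.smul_mem_smul ha trivial

/-- the representation on `m / m²` -/
def cotRep (φ : Λ →* RingAut A) (hf : ∀ l a, φ l a - a ∈ m) :
    Λ →* Module.End A (m ⧸ (m • ⊤ : Submodule A m)) where
  toFun l := (m • ⊤ : Submodule A m).liftQ (cotMap (φ l) (hf l)) (cotMap_ker _ _)
  map_one' := by
    apply LinearMap.ext
    intro v
    obtain ⟨⟨x, hx⟩, rfl⟩ := Submodule.Quotient.mk_surjective _ v
    rw [Submodule.liftQ_apply, Module.End.one_apply, cotMap_apply _ _ x hx (by rw [map_one]; exact hx)]
    congr 1
    apply Subtype.ext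
    show φ 1 x = x
    rw [map_one]; rfl
  map_mul' := by
    intro a b
    apply LinearMap.ext
    intro v
    obtain ⟨⟨x, hx⟩, rfl⟩ := Submodule.Quotient.mk_surjective _ v
    have hb : φ b x ∈ m := by
      have := m.add_mem (hf b x) hx
      rwa [sub_add_cancel] at this
    have hab : φ a (φ b x) ∈ m := by
      have := m.add_mem (hf a (φ b x)) hb
      rwa [sub_add_cancel] at this
    rw [Module.End.mul_apply, Submodule.liftQ_apply, Submodule.liftQ_apply,
      cotMap_apply (φ b) (hf b) x hx hb, Submodule.liftQ_apply,
      cotMap_apply (φ a) (hf a) _ hb hab, cotMap_apply (φ (a * b)) (hf _) x hx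
        (by rw [map_mul]; exact hab)]
    congr 1
    apply Subtype.ext
    show φ (a * b) x = φ a (φ b x)
    rw [map_mul]; rfl

/-- **Actions on a commutative ring, trivial modulo an ideal with fewer than `n` generators, are
trivial modulo all powers of the ideal.** -/
theorem ideal_trivial [Group.FG Λ] (h : QuotientsOfSL n Λ) (hn : 3 ≤ n) (s : Finset A)
    (hs : s.card < n) (hs' : Ideal.span (s : Set A) = m) (φ : Λ →* RingAut A)
    (hf : ∀ l a, φ l a - a ∈ m) (k : ℕ) : ∀ l a, φ l a - a ∈ m ^ k := by
  classical
  have hsm : ∀ x ∈ s, x ∈ m := fun x hx => by rw [← hs']; exact Ideal.subset_span hx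
  -- the action on `m / m²`
  have h1 : ∀ l, ∀ x ∈ m, φ l x - x ∈ m ^ 2 := by
    let C := m ⧸ (m • ⊤ : Submodule A m)
    let s' : Finset C := s.attach.image (fun x => Submodule.Quotient.mk ⟨x.1, hsm x.1 x.2⟩)
    have hs0 : s'.card < n := by
      refine lt_of_le_of_lt Finset.card_image_le ?_
      rwa [Finset.card_attach]
    have hsp : Submodule.span A (s' : Set C) = ⊤ := by
      rw [eq_top_iff]
      intro v _
      obtain ⟨⟨x, hx⟩, rfl⟩ := Submodule.Quotient.mk_surjective _ v
      have hx' : x ∈ Ideal.span (s : Set A) := by rw [hs']; exact hx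
      have key : ∀ x, x ∈ Ideal.span (s : Set A) → ∀ hx : x ∈ m,
          (Submodule.Quotient.mk ⟨x, hx⟩ : C) ∈ Submodule.span A (s' : Set C) := by
        intro x hx'
        induction hx' using Submodule.span_induction with
        | mem x hx =>
          intro hxm
          exact Submodule.subset_span (Finset.mem_coe.mpr (Finset.mem_image.mpr
            ⟨⟨x, hx⟩, Finset.mem_attach _ _, rfl⟩))
        | zero => intro _; exact Submodule.zero_mem _
        | add x y hx1 hy1 h1 h2 =>
          intro _
          have hxm : x ∈ m := by rw [← hs']; exact hx1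
          have hym : y ∈ m := by rw [← hs']; exact hy1
          exact Submodule.add_mem _ (h1 hxm) (h2 hym)
        | smul a x hx1 h1 =>
          intro _
          have hxm : x ∈ m := by rw [← hs']; exact hx1
          exact Submodule.smul_mem _ a (h1 hxm)
      exact key x hx' hx
    have h2 := mod_trivial h hn s' hs0 hsp (cotRep φ hf)
    intro l x hx
    have h3 := LinearMap.congr_fun (h2 l) (Submodule.Quotient.mk ⟨x, hx⟩)
    have hlx : φ l x ∈ m := by
      have := m.add_mem (hf l x) hx
      rwa [sub_add_cancel] at this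
    have h4 : (Submodule.Quotient.mk ⟨φ l x, hlx⟩ : C) = Submodule.Quotient.mk ⟨x, hx⟩ := h3
    rw [← sub_eq_zero, ← Submodule.Quotient.mk_sub, Submodule.Quotient.mk_eq_zero,
      Submodule.mem_smul_top_iff] at h4
    rw [pow_two]
    exact h4
  have h2 : ∀ k : ℕ, ∀ l, ∀ x ∈ m ^ (k + 1), φ l x - x ∈ m ^ (k + 2) := by
    intro k l
    induction k with
    | zero => intro x hx; rw [zero_add, pow_one] at hx; exact h1 l x hx
    | succ k ih =>
      intro x hx
      rw [pow_succ] at hx
      refine Submodule.mul_induction_on hx ?_ ?_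
      · intro y hy z hz
        have e1 : φ l (y * z) - y * z = (φ l y - y) * φ l z + y * (φ l z - z) := by
          rw [map_mul]; ring
        rw [e1]
        have hlz : φ l z ∈ m := by
          have := m.add_mem (hf l z) hz
          rwa [sub_add_cancel] at this
        refine Ideal.add_mem _ ?_ ?_
        · have := Ideal.mul_mem_mul (ih y hy) hlz
          rwa [← pow_succ] at this
        · have := Ideal.mul_mem_mul hy (h1 l z hz)
          rwa [← pow_add] at this
      · intro x y hx hy
        rw [map_add, add_sub_add_comm]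
        exact Ideal.add_mem _ hx hy
  have h3 : ∀ k : ℕ, ∀ l a, φ l a - a ∈ m ^ (k + 1) := by
    intro k
    induction k with
    | zero => intro l a; rw [zero_add, pow_one]; exact hf l a
    | succ k ih =>
      intro l a
      let θ : Λ →* Multiplicative (A ⧸ m ^ (k + 2)) :=
        { toFun := fun l => Multiplicative.ofAdd (Ideal.Quotient.mk (m ^ (k + 2)) (φ l a - a))
          map_one' := by
            rw [map_one]
            show Multiplicative.ofAdd (Ideal.Quotient.mk (m ^ (k + 2)) (a - a)) = 1
            rw [sub_self, map_zero]; rfl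
          map_mul' := by
            intro x y
            rw [← ofAdd_add, ← map_add]
            congr 1
            rw [Ideal.Quotient.mk_eq_mk_iff_sub_mem]
            have e1 := h2 k x _ (ih y a)
            have e2 : φ (x * y) a = φ x (φ y a) := by rw [map_mul]; rfl
            rw [e2]
            have e3 : φ x (φ y a) - a - (φ x a - a + (φ y a - a)) =
                φ x (φ y a - a) - (φ y a - a) := by rw [map_sub]; ring
            rw [e3]
            exact e1 }
      exact Ideal.Quotient.eq_zero_iff_mem.mp (perfect h hn θ l)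
  intro l a
  cases k with
  | zero => rw [pow_zero, Ideal.one_eq_top]; exact Submodule.mem_top
  | succ k => exact h3 k l a

/-- **Actions on a Noetherian local ring of embedding dimension below `n` which are trivial on the
residue field are trivial.** -/
theorem local_trivial [Group.FG Λ] (h : QuotientsOfSL n Λ) (hn : 3 ≤ n) [IsLocalRing A]
    [IsNoetherianRing A] (s : Finset A) (hs : s.card < n)
    (hs' : Ideal.span (s : Set A) = IsLocalRing.maximalIdeal A) (φ : Λ →* RingAut A)
    (hf : ∀ l a, φ l a - a ∈ IsLocalRing.maximalIdeal A) : ∀ l, φ l = 1 := by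
  intro l
  ext a
  have h1 : φ l a - a ∈ (⨅ i : ℕ, IsLocalRing.maximalIdeal A ^ i : Ideal A) := by
    rw [Submodule.mem_iInf]
    exact fun k => ideal_trivial h hn s hs hs' φ hf k l a
  rw [Ideal.iInf_pow_eq_bot_of_isLocalRing _ (Ideal.IsPrime.ne_top inferInstance)] at h1
  exact sub_eq_zero.mp h1

end

end Pool.Agent.X277.SR
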