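import Mathlib

set_option autoImplicit false
set_option linter.unusedSectionVars false

/-! `SL_n(ℤ)` is generated by the elementary matrices. -/

namespace Pool.Agent.X277.SR

open Matrix (SpecialLinearGroup)
open Matrix.SpecialLinearGroup

section
variable {ι : Type*} [Fintype ι] [DecidableEq ι] (H : Subgroup (SpecialLinearGroup ι ℤ))

/-- `B` arises from `A` by row operations in the rows `i` and `j` -/
def RR (i j : ι) (A B : SpecialLinearGroup ι ℤ) : Prop :=
  (∃ h ∈ H, B = h * A) ∧ (∀ a, a ≠ i → a ≠ j → ∀ b, B.1 a b = A.1 a b) ∧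
    (∀ b, A.1 i b = 0 → A.1 j b = 0 → B.1 i b = 0 ∧ B.1 j b = 0)

variable {H}

lemma RR.refl (i j : ι) (A : SpecialLinearGroup ι ℤ) : RR H i j A A :=
  ⟨⟨1, one_mem _, (one_mul _).symm⟩, fun _ _ _ _ => rfl, fun _ h1 h2 => ⟨h1, h2⟩⟩

lemma RR.symm {i j : ι} {A B : SpecialLinearGroup ι ℤ} (h : RR H i j A B) : RR H j i A B :=
  ⟨h.1, fun a h1 h2 b => h.2.1 a h2 h1 b, fun b h1 h2 => (h.2.2 b h2 h1).symm⟩

lemma RR.trans {i j : ι} {A B C : SpecialLinearGroup ι ℤ} (h : RR H i j A B)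
    (h' : RR H i j B C) : RR H i j A C := by
  obtain ⟨⟨g, hg, rfl⟩, h2, h3⟩ := h
  obtain ⟨⟨g', hg', rfl⟩, h2', h3'⟩ := h'
  refine ⟨⟨g' * g, mul_mem hg' hg, (mul_assoc _ _ _).symm⟩, ?_, ?_⟩
  · intro a h4 h5 b
    rw [h2' a h4 h5 b, h2 a h4 h5 b]
  · intro b h4 h5
    obtain ⟨h6, h7⟩ := h3 b h4 h5
    exact h3' b h6 h7

lemma trans_mem (hH : ∀ i j (h : i ≠ j), transvection h (1 : ℤ) ∈ H) {i j : ι} (h : i ≠ j)
    (c : ℤ) : transvection h c ∈ H := by
  induction c using Int.induction_on with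
  | zero => rw [transvection_coeff_zero]; exact one_mem _
  | succ c ih => rw [transvection_add]; exact mul_mem ih (hH i j h)
  | pred c ih =>
    rw [sub_eq_add_neg, transvection_add]
    exact mul_mem ih (by rw [← transvection_inv]; exact inv_mem (hH i j h))

lemma RR.step (hH : ∀ i j (h : i ≠ j), transvection h (1 : ℤ) ∈ H) {i j : ι} (h : i ≠ j) (c : ℤ)
    (A : SpecialLinearGroup ι ℤ) : RR H i j A (transvection h c * A) := by
  refine ⟨⟨_, trans_mem hH h c, rfl⟩, ?_, ?_⟩
  · intro a h1 h2 b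
    exact Matrix.transvection_mul_apply_of_ne i j a b h1 c A.1
  · intro b h1 h2
    refine ⟨?_, ?_⟩
    · have := Matrix.transvection_mul_apply_same i j b c A.1
      show (Matrix.transvection i j c * A.1) i b = 0
      rw [this, h1, h2, mul_zero, add_zero]
    · have := Matrix.transvection_mul_apply_of_ne i j j b (Ne.symm h) c A.1
      show (Matrix.transvection i j c * A.1) j b = 0
      rw [this, h2]

lemma step_same {i j : ι} (h : i ≠ j) (c : ℤ) (A : SpecialLinearGroup ι ℤ) (b : ι) :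
    (transvection h c * A).1 i b = A.1 i b + c * A.1 j b :=
  Matrix.transvection_mul_apply_same i j b c A.1

lemma step_of_ne {i j : ι} (h : i ≠ j) (c : ℤ) (A : SpecialLinearGroup ι ℤ) {a : ι} (ha : a ≠ i)
    (b : ι) : (transvection h c * A).1 a b = A.1 a b :=
  Matrix.transvection_mul_apply_of_ne i j a b ha c A.1

/-- Euclid's algorithm in a column -/
lemma clear_pair (hH : ∀ i j (h : i ≠ j), transvection h (1 : ℤ) ∈ H) (m : ℕ) :
    ∀ (i j : ι) (_ : i ≠ j) (b : ι) (A : SpecialLinearGroup ι ℤ), (A.1 j b).natAbs ≤ m →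
      ∃ B, RR H i j A B ∧ B.1 j b = 0 := by
  induction m with
  | zero =>
    intro i j _ b A hA
    exact ⟨A, RR.refl i j A, by omega⟩
  | succ m ih =>
    intro i j hij b A hA
    by_cases h0 : A.1 j b = 0
    · exact ⟨A, RR.refl i j A, h0⟩
    have e1 := RR.step hH hij (-(A.1 i b / A.1 j b)) A
    have e2 : (transvection hij (-(A.1 i b / A.1 j b)) * A).1 i b = A.1 i b % A.1 j b := by
      rw [step_same, Int.emod_def]; ring
    have e3 : (A.1 i b % A.1 j b).natAbs < (A.1 j b).natAbs := by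
      have h1 := Int.emod_nonneg (A.1 i b) h0
      have h2 := Int.emod_lt_abs (A.1 i b) h0
      rw [Int.abs_eq_natAbs] at h2
      omega
    obtain ⟨B, hB, hB0⟩ := ih j i (Ne.symm hij) b (transvection hij (-(A.1 i b / A.1 j b)) * A)
      (by rw [e2]; omega)
    have e4 := e1.trans hB.symm
    have e5 := e4.trans (RR.step hH hij 1 B)
    have e6 := e5.trans (RR.step hH (Ne.symm hij) (-1) (transvection hij 1 * B)).symm
    refine ⟨_, e6, ?_⟩
    rw [step_same, step_same, step_of_ne hij 1 B (Ne.symm hij), hB0]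
    ring

/-- the columns in `S` are standard -/
def Std (S : Finset ι) (A : SpecialLinearGroup ι ℤ) : Prop :=
  ∀ b ∈ S, ∀ a, A.1 a b = if a = b then 1 else 0

lemma RR.std {S : Finset ι} {i j : ι} (hi : i ∉ S) (hj : j ∉ S) {A B : SpecialLinearGroup ι ℤ}
    (h : RR H i j A B) (hA : Std S A) : Std S B := by
  intro b hb a
  have hib : i ≠ b := fun h => hi (h ▸ hb)
  have hjb : j ≠ b := fun h => hj (h ▸ hb)
  have h1 := h.2.2 b (by rw [hA b hb, if_neg hib]) (by rw [hA b hb, if_neg hjb])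
  by_cases hai : a = i
  · subst hai; rw [h1.1, if_neg hib]
  · by_cases haj : a = j
    · subst haj; rw [h1.2, if_neg hjb]
    · rw [h.2.1 a hai haj, hA b hb]

lemma clear_out (hH : ∀ i j (h : i ≠ j), transvection h (1 : ℤ) ∈ H) {S : Finset ι} {k : ι}
    (hk : k ∉ S) (A : SpecialLinearGroup ι ℤ) (hA : Std S A) (T : Finset ι) :
    (∀ t ∈ T, t ∉ S ∧ t ≠ k) →
    ∃ B, (∃ h ∈ H, B = h * A) ∧ Std S B ∧ ∀ t ∈ T, B.1 t k = 0 := by
  induction T using Finset.induction_on with
  | empty => intro _; exact ⟨A, ⟨1, one_mem _, (one_mul _).symm⟩, hA, by simp⟩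
  | insert t T ht ih =>
    intro hT
    obtain ⟨B, ⟨g, hg, hgB⟩, hB, hBT⟩ := ih (fun s hs => hT s (Finset.mem_insert_of_mem hs))
    obtain ⟨htS, htk⟩ := hT t (Finset.mem_insert_self _ _)
    obtain ⟨C, hC, hC0⟩ := clear_pair hH _ k t (Ne.symm htk) k B le_rfl
    obtain ⟨g', hg', hg'C⟩ := hC.1
    refine ⟨C, ⟨g' * g, mul_mem hg' hg, by rw [hg'C, hgB, mul_assoc]⟩,
      hC.std hk htS hB, ?_⟩
    intro s hs
    rcases Finset.mem_insert.mp hs with rfl | hs'
    · exact hC0
    · have hsk := (hT s hs).2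
      have hst : s ≠ t := fun h => ht (h ▸ hs')
      rw [hC.2.1 s hsk hst, hBT s hs']

lemma clear_in (hH : ∀ i j (h : i ≠ j), transvection h (1 : ℤ) ∈ H) {S : Finset ι} {k : ι}
    (hk : k ∉ S) (A : SpecialLinearGroup ι ℤ) (hA : Std S A) {d : ℤ} (hd : A.1 k k = d)
    (hdd : d * d = 1) (T : Finset ι) :
    T ⊆ S → ∃ B, (∃ h ∈ H, B = h * A) ∧ Std S B ∧ (∀ t ∈ T, B.1 t k = 0) ∧
      ∀ a, a ∉ T → B.1 a k = A.1 a k := by
  induction T using Finset.induction_on with
  | empty => intro _; exact ⟨A, ⟨1, one_mem _, (one_mul _).symm⟩, hA, by simp, fun _ _ => rfl⟩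
  | insert t T ht ih =>
    intro hT
    obtain ⟨B, ⟨g, hg, hgB⟩, hB, hBT, hBo⟩ := ih (fun s hs => hT (Finset.mem_insert_of_mem hs))
    have htS : t ∈ S := hT (Finset.mem_insert_self _ _)
    have htk : t ≠ k := fun h => hk (h ▸ htS)
    have hkT : k ∉ T := fun h => hk (hT (Finset.mem_insert_of_mem h))
    refine ⟨transvection htk (-(B.1 t k * d)) * B, ⟨transvection htk (-(B.1 t k * d)) * g,
      mul_mem (trans_mem hH htk _) hg, by rw [hgB, mul_assoc]⟩, ?_, ?_, ?_⟩
    · intro b hb a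
      have hkb : k ≠ b := fun h => hk (h ▸ hb)
      by_cases hat : a = t
      · subst hat
        rw [step_same, hB b hb k, if_neg hkb, mul_zero, add_zero, hB b hb]
      · rw [step_of_ne htk _ _ hat, hB b hb]
    · intro s hs
      rcases Finset.mem_insert.mp hs with rfl | hs'
      · rw [step_same, hBo k hkT, hd]
        linear_combination (-(B.1 s k)) * hdd
      · have hst : s ≠ t := fun h => ht (h ▸ hs')
        rw [step_of_ne htk _ _ hst, hBT s hs']
    · intro a ha
      rw [Finset.mem_insert, not_or] at ha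
      rw [step_of_ne htk _ _ ha.1, hBo a ha.2]

lemma pivot_unit {S : Finset ι} {k : ι} (hk : k ∉ S) (A : SpecialLinearGroup ι ℤ)
    (hA : Std S A) (h0 : ∀ t, t ∉ S → t ≠ k → A.1 t k = 0) : A.1 k k * A.1 k k = 1 := by
  have h1 : (A⁻¹ * A).1 = 1 := by rw [inv_mul_cancel]; rfl
  have h2 : ∀ b ∈ S, (A⁻¹).1 k b = 0 := by
    intro b hb
    have hkb : k ≠ b := fun h => hk (h ▸ hb)
    have h3 : (A⁻¹ * A).1 k b = 0 := by rw [h1, Matrix.one_apply_ne hkb]
    have h4 : (A⁻¹ * A).1 k b = ∑ l, (A⁻¹).1 k l * A.1 l b := Matrix.mul_apply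
    rw [h4, Finset.sum_eq_single b] at h3
    · rwa [hA b hb, if_pos rfl, mul_one] at h3
    · intro l _ hl
      rw [hA b hb, if_neg hl, mul_zero]
    · intro h; exact absurd (Finset.mem_univ _) h
  have h3 : (A⁻¹).1 k k * A.1 k k = 1 := by
    have h4 : (A⁻¹ * A).1 k k = ∑ l, (A⁻¹).1 k l * A.1 l k := Matrix.mul_apply
    rw [h1, Matrix.one_apply_eq, Finset.sum_eq_single k] at h4
    · exact h4.symm
    · intro l _ hl
      by_cases hlS : l ∈ S
      · rw [h2 l hlS, zero_mul]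
      · rw [h0 l hlS hl, mul_zero]
    · intro h; exact absurd (Finset.mem_univ _) h
  rcases Int.isUnit_iff.mp (IsUnit.of_mul_eq_one _ (by rw [mul_comm]; exact h3)) with h4 | h4 <;>
    rw [h4] <;> norm_num

lemma step_std (hH : ∀ i j (h : i ≠ j), transvection h (1 : ℤ) ∈ H) {S : Finset ι} {k : ι}
    (hk : k ∉ S) (A : SpecialLinearGroup ι ℤ) (hA : Std S A) :
    ∃ B, (∃ h ∈ H, B = h * A) ∧ Std (insert k S) B := by
  obtain ⟨B, ⟨g, hg, hgB⟩, hB, hB0⟩ := clear_out hH hk A hA (Finset.univ.filter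
    (fun t => t ∉ S ∧ t ≠ k)) (by intro t ht; simpa using ht)
  have hB0' : ∀ t, t ∉ S → t ≠ k → B.1 t k = 0 := fun t h1 h2 => hB0 t (by simp [h1, h2])
  have hu := pivot_unit hk B hB hB0'
  obtain ⟨C, ⟨g2, hg2, hgC⟩, hC, hC0, hCo⟩ := clear_in hH hk B hB rfl hu S le_rfl
  have hCk : C.1 k k = B.1 k k := hCo k hk
  have hC0' : ∀ t, t ≠ k → C.1 t k = 0 := by
    intro t htk
    by_cases htS : t ∈ S
    · exact hC0 t htS
    · rw [hCo t htS]; exact hB0' t htS htk
  have hstd : ∀ D : SpecialLinearGroup ι ℤ, Std S D → D.1 k k = 1 →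
      (∀ t, t ≠ k → D.1 t k = 0) → Std (insert k S) D := by
    intro D h1 h2 h3 b hb a
    rcases Finset.mem_insert.mp hb with rfl | hb'
    · by_cases hab : a = b
      · rw [if_pos hab, hab, h2]
      · rw [if_neg hab]; exact h3 a hab
    · exact h1 b hb' a
  have hd : B.1 k k = 1 ∨ B.1 k k = -1 := by
    rcases Int.isUnit_iff.mp (IsUnit.of_mul_eq_one _ hu) with h | h
    · exact Or.inl h
    · exact Or.inr h
  rcases hd with hd | hd
  · exact ⟨C, ⟨g2 * g, mul_mem hg2 hg, by rw [hgC, hgB, mul_assoc]⟩,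
      hstd C hC (by rw [hCk, hd]) hC0'⟩
  · rw [hd] at hCk
    by_cases hex : ∃ l, l ∉ S ∧ l ≠ k
    · obtain ⟨l, hlS, hlk⟩ := hex
      have e1 := RR.step hH hlk (-1) C
      have e2 := e1.trans (RR.step hH (Ne.symm hlk) 2 (transvection hlk (-1) * C)).symm
      have e3 := e2.trans (RR.step hH hlk (-1) (transvection (Ne.symm hlk) 2 *
        (transvection hlk (-1) * C)))
      obtain ⟨g3, hg3, hgD⟩ := e3.1
      refine ⟨_, ⟨g3 * (g2 * g), mul_mem hg3 (mul_mem hg2 hg), ?_⟩,
        hstd _ (e3.std hlS hk hC) ?_ ?_⟩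
      · rw [hgD, hgC, hgB]; simp only [mul_assoc]
      · rw [step_of_ne hlk _ _ (Ne.symm hlk), step_same, step_of_ne hlk _ _ (Ne.symm hlk),
          step_same, hCk, hC0' l hlk]
        norm_num
      · intro t htk
        by_cases htl : t = l
        · subst htl
          rw [step_same, step_of_ne (Ne.symm hlk) _ _ hlk, step_same, step_same,
            step_of_ne hlk _ _ (Ne.symm hlk), step_same, hCk, hC0' t hlk]
          norm_num
        · rw [e3.2.1 t htl htk, hC0' t htk]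
    · exfalso
      have hall : ∀ l, l ≠ k → l ∈ S := by
        intro l hl
        by_contra h
        exact hex ⟨l, h, hl⟩
      have hdiag : C.1 = Matrix.diagonal (Function.update (fun _ => (1 : ℤ)) k (-1)) := by
        ext a b
        by_cases hbk : b = k
        · subst hbk
          by_cases hab : a = b
          · subst hab; rw [Matrix.diagonal_apply_eq, Function.update_self, hCk]
          · rw [Matrix.diagonal_apply_ne _ hab, hC0' a hab]
        · by_cases hab : a = b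
          · subst hab
            rw [Matrix.diagonal_apply_eq, Function.update_of_ne hbk, hC a (hall a hbk), if_pos rfl]
          · rw [Matrix.diagonal_apply_ne _ hab, hC b (hall b hbk), if_neg hab]
      have h1 := C.2
      rw [hdiag, Matrix.det_diagonal, Finset.prod_update_of_mem (Finset.mem_univ k)] at h1
      simp at h1

/-- **`SL_n(ℤ)` is generated by elementary matrices.** -/
theorem gen_top (hH : ∀ i j (h : i ≠ j), transvection h (1 : ℤ) ∈ H) : H = ⊤ := by
  have key : ∀ S : Finset ι, ∀ A : SpecialLinearGroup ι ℤ, ∃ B, (∃ h ∈ H, B = h * A) ∧ Std S B := by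
    intro S A
    induction S using Finset.induction_on with
    | empty => exact ⟨A, ⟨1, one_mem _, (one_mul _).symm⟩, by intro b hb; simp at hb⟩
    | insert k S hk ih =>
      obtain ⟨B, ⟨g, hg, hgB⟩, hB⟩ := ih
      obtain ⟨C, ⟨g', hg', hgC⟩, hC⟩ := step_std hH hk B hB
      exact ⟨C, ⟨g' * g, mul_mem hg' hg, by rw [hgC, hgB, mul_assoc]⟩, hC⟩
  rw [eq_top_iff]
  intro A _
  obtain ⟨B, ⟨g, hg, hgB⟩, hB⟩ := key Finset.univ A
  have hB1 : B = 1 := by
    apply Subtype.ext
    ext a b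
    rw [hB b (Finset.mem_univ b) a]
    show _ = (1 : Matrix ι ι ℤ) a b
    rw [Matrix.one_apply]
  have : A = g⁻¹ := by
    rw [hB1] at hgB
    exact eq_inv_of_mul_eq_one_right hgB.symm
  rw [this]
  exact inv_mem hg

end

end Pool.Agent.X277.SR
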