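import Pool.Agent.X277.SR.Main
import Pool.Agent.X277.SR.Gen

set_option autoImplicit false
set_option linter.unusedSectionVars false

/-! Groups all of whose finite quotients are quotients of `SL_n(ℤ)`: actions on finite vector
spaces and abelian quotients. -/

namespace Pool.Agent.X277.SR

open scoped TensorProduct
open Matrix (SpecialLinearGroup)

/-- the elementary matrices -/
noncomputable def el {ι : Type*} [Fintype ι] [DecidableEq ι] (i j : ι) : SpecialLinearGroup ι ℤ :=
  if h : i ≠ j then Matrix.SpecialLinearGroup.transvection h 1 else 1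

section
variable {ι : Type*} [Fintype ι] [DecidableEq ι]

lemma el_coe {i j : ι} (h : i ≠ j) : (el i j).1 = Matrix.transvection i j (1 : ℤ) := by
  rw [el, dif_pos h]; rfl

lemma el_comm {i j k l : ι} (h1 : i ≠ j) (h2 : k ≠ l) (h3 : j ≠ k) (h4 : i ≠ l) :
    el i j * el k l = el k l * el i j := by
  apply Subtype.ext
  show (el i j).1 * (el k l).1 = (el k l).1 * (el i j).1
  rw [el_coe h1, el_coe h2]
  simp only [Matrix.transvection, mul_add, add_mul, mul_one, one_mul,
    Matrix.single_mul_single_of_ne _ _ _ _ h3,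
    Matrix.single_mul_single_of_ne _ _ _ _ (Ne.symm h4), add_zero]
  abel

lemma el_rel {i j k : ι} (h1 : i ≠ j) (h2 : j ≠ k) (h3 : i ≠ k) :
    el i j * el j k = el i k * (el j k * el i j) := by
  apply Subtype.ext
  show (el i j).1 * (el j k).1 = (el i k).1 * ((el j k).1 * (el i j).1)
  rw [el_coe h1, el_coe h2, el_coe h3]
  simp only [Matrix.transvection, mul_add, add_mul, mul_one, one_mul,
    Matrix.single_mul_single_same, Matrix.single_mul_single_of_ne _ _ _ _ (Ne.symm h2),
    Matrix.single_mul_single_of_ne _ _ _ _ (Ne.symm h3), add_zero]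
  abel

/-- a homomorphism killing the elementary matrices is trivial -/
lemma hom_eq_one {G : Type*} [Group G] (f : SpecialLinearGroup ι ℤ →* G)
    (h : ∀ i j, i ≠ j → f (el i j) = 1) : ∀ g, f g = 1 := by
  have h1 : f.ker = ⊤ := by
    apply gen_top
    intro i j hij
    rw [MonoidHom.mem_ker]
    have := h i j hij
    rwa [el, dif_pos hij] at this
  intro g
  have : g ∈ f.ker := by rw [h1]; trivial
  exact this

end

/-- representations of `SL_n(ℤ)` of degree below `n` are trivial -/
theorem rep_trivial {ι : Type} [Fintype ι] [DecidableEq ι] (h3 : 3 ≤ Fintype.card ι)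
    {k V : Type*} [Field k] [AddCommGroup V] [Module k V] [FiniteDimensional k V]
    (hd : Module.finrank k V < Fintype.card ι)
    (f : SpecialLinearGroup ι ℤ →* (Module.End k V)ˣ) : ∀ g, f g = 1 := by
  apply hom_eq_one
  let K := AlgebraicClosure k
  let x : ι → ι → Module.End K (K ⊗[k] V) := fun i j =>
    LinearMap.baseChange K ((f (el i j) : (Module.End k V)ˣ) : Module.End k V)
  have hmul : ∀ g g' : SpecialLinearGroup ι ℤ, ∀ v,
      LinearMap.baseChange K ((f (g * g') : (Module.End k V)ˣ) : Module.End k V) v =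
        LinearMap.baseChange K ((f g : (Module.End k V)ˣ) : Module.End k V)
          (LinearMap.baseChange K ((f g' : (Module.End k V)ˣ) : Module.End k V) v) := by
    intro g g' v
    rw [map_mul, Units.val_mul]
    have := LinearMap.baseChange_comp (A := K) ((f g' : (Module.End k V)ˣ) : Module.End k V)
      ((f g : (Module.End k V)ˣ) : Module.End k V)
    exact LinearMap.congr_fun this v
  have hx : StE x := by
    refine ⟨?_, ?_, ?_⟩
    · intro i j k l h1 h2 h3 h4 v
      show _ = _
      rw [← hmul, ← hmul, el_comm h1 h2 h3 h4]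
    · intro i j k h1 h2 h3 v
      rw [← hmul, ← hmul, ← hmul, el_rel h1 h2 h3, ← mul_assoc]
    · intro i j h1 v
      refine ⟨LinearMap.baseChange K ((f (el i j)⁻¹ : (Module.End k V)ˣ) : Module.End k V) v, ?_⟩
      rw [← hmul, mul_inv_cancel, map_one, Units.val_one]
      have : LinearMap.baseChange K (1 : Module.End k V) = 1 := LinearMap.baseChange_one k V
      rw [this]; rfl
  intro i j hij
  have h1 := trivial_of_small (Fintype.card ι) ι (K ⊗[k] V) x hx rfl h3
    (by rw [Module.finrank_baseChange]; exact hd) i j hij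
  apply Units.ext
  ext v
  have h2 := h1 (1 ⊗ₜ v)
  rw [LinearMap.baseChange_tmul] at h2
  exact Module.FaithfullyFlat.tensorProduct_mk_injective (A := k) (B := K) V h2

/-- residue fields of finitely generated commutative rings are finite -/
theorem residue_finite (S : Type*) [CommRing S] [Algebra.FiniteType ℤ S] (m : Ideal S)
    [hm : m.IsMaximal] : Finite (S ⧸ m) := by
  have hJ : IsJacobsonRing ℤ := by
    rw [isJacobsonRing_iff_prime_eq]
    intro P hP
    by_cases h : P = ⊥
    · subst h
      rw [eq_bot_iff]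
      intro x hx
      rw [Ideal.mem_jacobson_bot] at hx
      have h1 := hx x
      rw [Int.isUnit_iff] at h1
      rw [Ideal.mem_bot]
      rcases h1 with h1 | h1
      · have : x * x = 0 := by linarith
        exact mul_self_eq_zero.1 this
      · exfalso
        nlinarith [mul_self_nonneg x]
    · have : P.IsMaximal := IsPrime.to_maximal_ideal h
      exact Ideal.jacobson_eq_self_of_isMaximal
  let F : Field (S ⧸ m) := Ideal.Quotient.field m
  have h0 : Algebra.FiniteType ℤ (S ⧸ m) :=
    Algebra.FiniteType.of_surjective ((Ideal.Quotient.mkₐ S m).restrictScalars ℤ)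
      Ideal.Quotient.mk_surjective
  have h1 : Module.Finite ℤ (S ⧸ m) := finite_of_finite_type_of_isJacobsonRing ℤ (S ⧸ m)
  obtain ⟨p, hp⟩ := CharP.exists (S ⧸ m)
  rcases Nat.eq_zero_or_pos p with h2 | h2
  · exfalso
    subst h2
    have hc : CharZero (S ⧸ m) := CharP.charP_to_charZero (S ⧸ m)
    have h3 : Function.Injective (algebraMap ℤ (S ⧸ m)) := by
      have : (algebraMap ℤ (S ⧸ m)) = Int.castRingHom (S ⧸ m) := RingHom.ext_int _ _
      rw [this]
      exact RingHom.injective_int _
    have hi : Algebra.IsIntegral ℤ (S ⧸ m) := Algebra.IsIntegral.of_finite ℤ (S ⧸ m)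
    have h4 : IsField ℤ := isField_of_isIntegral_of_isField h3 (Field.toIsField _)
    exact Int.not_isField h4
  · apply Module.finite_of_fg_torsion (S ⧸ m)
    intro x
    refine ⟨⟨(p : ℤ), ?_⟩, ?_⟩
    · rw [mem_nonZeroDivisors_iff_ne_zero]
      exact_mod_cast h2.ne'
    · change (p : ℤ) • x = 0
      rw [zsmul_eq_mul]
      simp

/-- every finite quotient of `Λ` is a quotient of `SL_n(ℤ)` -/
def QuotientsOfSL (n : ℕ) (Λ : Type) [Group Λ] : Prop :=
  ∀ (Q : Type) [Group Q] [Finite Q] (f : Λ →* Q), Function.Surjective f →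
    ∃ g : SpecialLinearGroup (Fin n) ℤ →* Q, Function.Surjective g

section
variable {n : ℕ} {Λ : Type} [Group Λ]

/-- a homomorphism with finite image into a group in which `SL_n(ℤ)` has only the trivial
homomorphism is trivial -/
lemma trivial_of_finite_image (h : QuotientsOfSL n Λ) {G : Type*} [Group G]
    (hG : ∀ f : SpecialLinearGroup (Fin n) ℤ →* G, ∀ g, f g = 1) (φ : Λ →* G)
    (hfin : Finite φ.range) : ∀ l, φ l = 1 := by
  haveI : Finite (Λ ⧸ φ.ker) :=
    Finite.of_equiv _ (QuotientGroup.quotientKerEquivRange φ).toEquiv.symm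
  obtain ⟨g, hg⟩ := h (Λ ⧸ φ.ker) (QuotientGroup.mk' φ.ker) (QuotientGroup.mk'_surjective _)
  intro l
  obtain ⟨s, hs⟩ := hg (QuotientGroup.mk' φ.ker l)
  have h1 := hG ((QuotientGroup.kerLift φ).comp g) s
  rw [MonoidHom.comp_apply, hs] at h1
  exact h1

/-- actions on finite vector spaces of small dimension are trivial -/
lemma finite_rep_trivial (h : QuotientsOfSL n Λ) (hn : 3 ≤ n) {k V : Type*} [Field k]
    [AddCommGroup V] [Module k V] [Finite V] (hd : Module.finrank k V < n)
    (ρ : Λ →* Module.End k V) : ∀ l, ρ l = 1 := by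
  haveI : Module.Finite k V := Module.Finite.of_finite
  haveI : Finite (Module.End k V) := DFunLike.finite _
  have h1 := trivial_of_finite_image h (fun f => rep_trivial (by rw [Fintype.card_fin]; exact hn)
    (by rw [Fintype.card_fin]; exact hd) f) ρ.toHomUnits inferInstance
  intro l
  have := congrArg Units.val (h1 l)
  exact this

/-- finitely generated modules over finitely generated commutative rings have nontrivial finite
quotients -/
lemma exists_max {R M : Type*} [CommRing R] [Algebra.FiniteType ℤ R] [AddCommGroup M] [Module R M]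
    [Module.Finite R M] {y : M} (hy : y ≠ 0) :
    ∃ m : Ideal R, m.IsMaximal ∧ ∃ k : ℕ, y ∉ (m ^ k • ⊤ : Submodule R M) := by
  haveI : IsNoetherianRing R := Algebra.FiniteType.isNoetherianRing ℤ R
  by_contra hcon
  push Not at hcon
  have h1 : Ideal.span {r : R | r • y = 0} = ⊤ := by
    by_contra h2
    obtain ⟨m, hm, hle⟩ := Ideal.exists_le_maximal _ h2
    have h3 : y ∈ (⨅ i : ℕ, m ^ i • ⊤ : Submodule R M) := by
      rw [Submodule.mem_iInf]
      exact fun k => hcon m hm k
    rw [Ideal.mem_iInf_smul_pow_eq_bot_iff] at h3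
    obtain ⟨r, hr⟩ := h3
    have h4 : (1 - (r : R)) ∈ m := hle (Ideal.subset_span (by
      show (1 - (r : R)) • y = 0
      rw [sub_smul, one_smul, hr, sub_self]))
    apply hm.ne_top
    rw [Ideal.eq_top_iff_one]
    have := m.add_mem h4 r.2
    rwa [sub_add_cancel] at this
  have h5 : ∀ r ∈ Ideal.span {r : R | r • y = 0}, r • y = 0 := by
    intro r hr
    induction hr using Submodule.span_induction with
    | mem r hr => exact hr
    | zero => rw [zero_smul]
    | add r s _ _ h6 h7 => rw [add_smul, h6, h7, add_zero]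
    | smul a r _ h6 => rw [smul_eq_mul, mul_smul, h6, smul_zero]
  have h6 := h5 1 (by rw [h1]; trivial)
  rw [one_smul] at h6
  exact hy h6

/-- the quotient by a maximal ideal is finite -/
lemma finite_quot {R M : Type*} [CommRing R] [Algebra.FiniteType ℤ R] [AddCommGroup M]
    [Module R M] [Module.Finite R M] (m : Ideal R) [m.IsMaximal] :
    Finite (M ⧸ (m • ⊤ : Submodule R M)) := by
  haveI : Finite (R ⧸ m) := residue_finite R m
  haveI : Module.Finite (R ⧸ m) (M ⧸ (m • ⊤ : Submodule R M)) :=
    Module.Finite.of_restrictScalars_finite R (R ⧸ m) _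
  exact Module.finite_of_finite (R ⧸ m)

lemma comm_trivial {ι : Type*} [Fintype ι] [DecidableEq ι] (h3 : 3 ≤ Fintype.card ι)
    {A : Type*} [CommGroup A] (f : SpecialLinearGroup ι ℤ →* A) : ∀ g, f g = 1 := by
  apply hom_eq_one
  intro i k hik
  obtain ⟨j, hji, hjk⟩ := third h3 i k
  have h1 := congrArg f (el_rel (Ne.symm hji) hjk hik)
  rw [map_mul, map_mul, map_mul, mul_comm (f (el j k))] at h1
  exact (mul_eq_right.mp h1.symm)

/-- **`Λ` has no nontrivial abelian quotient.** -/
theorem perfect [Group.FG Λ] (h : QuotientsOfSL n Λ) (hn : 3 ≤ n) {A : Type*} [CommGroup A]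
    (φ : Λ →* A) : ∀ l, φ l = 1 := by
  by_contra hcon
  push Not at hcon
  obtain ⟨l, hl⟩ := hcon
  let B := φ.range
  have hfg : Group.FG B := Group.fg_range φ
  have hMF : Module.Finite ℤ (Additive B) := by
    rw [Module.Finite.iff_addGroup_fg]
    exact GroupFG.iff_add_fg.mp inferInstance
  have hy : (Additive.ofMul (⟨φ l, l, rfl⟩ : B)) ≠ 0 := by
    intro h0
    apply hl
    have := congrArg (fun z : Additive B => ((Additive.toMul z : B) : A)) h0
    exact this
  obtain ⟨m, hm, k, hk⟩ := exists_max (R := ℤ) hy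
  have hfin := finite_quot (R := ℤ) (M := Additive B) m
  let q : Additive B →ₗ[ℤ] (Additive B ⧸ (m • ⊤ : Submodule ℤ (Additive B))) :=
    Submodule.mkQ (m • ⊤ : Submodule ℤ (Additive B))
  let ψ : Λ →* Multiplicative (Additive B ⧸ (m • ⊤ : Submodule ℤ (Additive B))) :=
    { toFun := fun l => Multiplicative.ofAdd (q (Additive.ofMul (φ.rangeRestrict l)))
      map_one' := by rw [map_one, ofMul_one, map_zero]; rfl
      map_mul' := by intro a b; rw [map_mul, ofMul_mul, map_add]; rfl }
  have h1 := trivial_of_finite_image h (fun f => comm_trivial (by rw [Fintype.card_fin]; exact hn) f)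
    ψ (by
      have : Finite (Multiplicative (Additive B ⧸ (m • ⊤ : Submodule ℤ (Additive B)))) := hfin
      infer_instance)
  have h2 : (m • ⊤ : Submodule ℤ (Additive B)) = ⊤ := by
    rw [eq_top_iff]
    intro b _
    obtain ⟨l', hl'⟩ := φ.rangeRestrict_surjective (Additive.toMul b)
    have h3 := h1 l'
    have h4 : q (Additive.ofMul (φ.rangeRestrict l')) = 0 := h3
    rw [hl'] at h4
    exact (Submodule.Quotient.mk_eq_zero _).mp h4
  have h3 : ∀ k : ℕ, (m ^ k • ⊤ : Submodule ℤ (Additive B)) = ⊤ := by
    intro k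
    induction k with
    | zero => rw [pow_zero, Ideal.one_eq_top, Submodule.top_smul]
    | succ k ih => rw [pow_succ, Submodule.mul_smul, h2, ih]
  apply hk
  rw [h3 k]
  trivial

/-- actions on finite vector spaces with few generators are trivial -/
lemma finite_rep_trivial' (h : QuotientsOfSL n Λ) (hn : 3 ≤ n) {R k V : Type*} [CommRing R]
    [Field k] [Algebra R k] (hsurj : Function.Surjective (algebraMap R k)) [AddCommGroup V]
    [Module k V] [Module R V] [IsScalarTower R k V] [Finite V] (s : Finset V) (hs : s.card < n)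
    (hs' : Submodule.span R (s : Set V) = ⊤) (ρ : Λ →* Module.End R V) : ∀ l, ρ l = 1 := by
  let ρ' : Λ →* Module.End k V :=
    { toFun := fun l => (ρ l).extendScalarsOfSurjective hsurj
      map_one' := by rw [map_one]; rfl
      map_mul' := by intro a b; rw [map_mul]; rfl }
  have hd : Module.finrank k V < n := by
    refine lt_of_le_of_lt ?_ hs
    have h1 : Submodule.span k (s : Set V) = ⊤ := by
      rw [eq_top_iff]
      intro v _
      have h3 := Submodule.span_le_restrictScalars R k (s : Set V)
      rw [hs'] at h3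
      exact h3 trivial
    have h2 := finrank_span_finset_le_card (R := k) s
    rwa [Set.finrank, h1, finrank_top] at h2
  have h1 := finite_rep_trivial h hn hd ρ'
  intro l
  ext v
  exact LinearMap.congr_fun (h1 l) v

/-- the representation on a quotient -/
def quotRep {R M : Type*} [CommRing R] [AddCommGroup M] [Module R M] (ρ : Λ →* Module.End R M)
    (N : Submodule R M) (hN : ∀ l, N ≤ N.comap (ρ l)) : Λ →* Module.End R (M ⧸ N) where
  toFun l := N.mapQ N (ρ l) (hN l)
  map_one' := by
    ext v
    simp
  map_mul' a b := by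
    ext v
    simp

lemma quotRep_mkQ {R M : Type*} [CommRing R] [AddCommGroup M] [Module R M]
    (ρ : Λ →* Module.End R M) (N : Submodule R M) (hN : ∀ l, N ≤ N.comap (ρ l)) (l : Λ) (v : M) :
    quotRep ρ N hN l (N.mkQ v) = N.mkQ (ρ l v) := rfl

lemma base_case (h : QuotientsOfSL n Λ) (hn : 3 ≤ n) {R M : Type*} [CommRing R]
    [Algebra.FiniteType ℤ R] [AddCommGroup M] [Module R M] (s : Finset M) (hs : s.card < n)
    (hs' : Submodule.span R (s : Set M) = ⊤) (ρ : Λ →* Module.End R M) (m : Ideal R)
    (hm : m.IsMaximal) (l : Λ) (v : M) : ρ l v - v ∈ (m • ⊤ : Submodule R M) := by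
  classical
  have hMF : Module.Finite R M := ⟨s, hs'⟩
  have hfin := finite_quot (R := R) (M := M) m
  have hst : ∀ l, (m • ⊤ : Submodule R M) ≤ (m • ⊤ : Submodule R M).comap (ρ l) := by
    intro l
    rw [← Submodule.map_le_iff_le_comap, Submodule.map_smul'']
    exact Submodule.smul_mono le_rfl le_top
  letI F : Field (R ⧸ m) := Ideal.Quotient.field m
  have h1 := finite_rep_trivial' (k := R ⧸ m) h hn Ideal.Quotient.mk_surjective
    (s.image (Submodule.mkQ (m • ⊤ : Submodule R M))) (lt_of_le_of_lt Finset.card_image_le hs)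
    (by rw [Finset.coe_image, Submodule.span_image, hs', Submodule.map_top,
            Submodule.range_mkQ]) (quotRep ρ _ hst) l
  have h2 := LinearMap.congr_fun h1 (Submodule.mkQ _ v)
  rw [quotRep_mkQ, Module.End.one_apply] at h2
  rw [← Submodule.Quotient.mk_eq_zero, Submodule.Quotient.mk_sub]
  exact sub_eq_zero.mpr h2

/-- actions on modules with few generators over finitely generated rings are trivial -/
theorem mod_trivial_fg [Group.FG Λ] (h : QuotientsOfSL n Λ) (hn : 3 ≤ n) {R M : Type*} [CommRing R]
    [Algebra.FiniteType ℤ R] [AddCommGroup M] [Module R M] (s : Finset M) (hs : s.card < n)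
    (hs' : Submodule.span R (s : Set M) = ⊤) (ρ : Λ →* Module.End R M) : ∀ l, ρ l = 1 := by
  have hMF : Module.Finite R M := ⟨s, hs'⟩
  have base := base_case h hn s hs hs' ρ
  have key : ∀ m : Ideal R, m.IsMaximal → ∀ k : ℕ, ∀ l v, ρ l v - v ∈ (m ^ k • ⊤ : Submodule R M) := by
    intro m hm k
    induction k with
    | zero => intro l v; rw [pow_zero, Ideal.one_eq_top, Submodule.top_smul]; trivial
    | succ k ih =>
      by_cases hk : k = 0
      · subst hk
        rw [zero_add, pow_one]
        exact base m hm
      intro l v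
      have hsm : ∀ l, ∀ u ∈ (m ^ k • ⊤ : Submodule R M), ρ l u - u ∈ (m ^ (k + 1) • ⊤ :
          Submodule R M) := by
        intro l u hu
        refine Submodule.smul_induction_on hu ?_ ?_
        · intro r hr w _
          rw [map_smul, ← smul_sub]
          have h1 : r • (ρ l w - w) ∈ (m ^ k • (m ^ k • ⊤) : Submodule R M) :=
            Submodule.smul_mem_smul hr (ih l w)
          rw [← Submodule.mul_smul, ← pow_add] at h1
          exact Submodule.smul_mono_left (Ideal.pow_le_pow_right (by omega)) h1
        · intro a b ha hb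
          rw [map_add, add_sub_add_comm]
          exact Submodule.add_mem _ ha hb
      let N : Submodule R M := m ^ (k + 1) • ⊤
      let θ : Λ →* Multiplicative (M ⧸ N) :=
        { toFun := fun l => Multiplicative.ofAdd (N.mkQ (ρ l v - v))
          map_one' := by
            rw [map_one, Module.End.one_apply, sub_self, map_zero]; rfl
          map_mul' := by
            intro a b
            rw [← ofAdd_add, ← map_add]
            congr 1
            rw [← sub_eq_zero, ← map_sub]
            refine (Submodule.Quotient.mk_eq_zero _).mpr ?_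
            have h1 := hsm a _ (ih b v)
            rw [map_sub] at h1
            rw [map_mul, Module.End.mul_apply]
            have h2 : ρ a (ρ b v) - v - (ρ a v - v + (ρ b v - v)) =
                ρ a (ρ b v) - ρ a v - (ρ b v - v) := by abel
            rw [h2]
            exact h1 }
      have h1 := perfect h hn θ l
      exact (Submodule.Quotient.mk_eq_zero _).mp h1
  intro l
  ext v
  rw [Module.End.one_apply]
  by_contra hne
  obtain ⟨m, hm, k, hk⟩ := exists_max (R := R) (sub_ne_zero.mpr hne)
  exact hk (key m hm k l v)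

/-- **Actions on modules with fewer than `n` generators over any commutative ring are trivial.** -/
theorem mod_trivial [Group.FG Λ] (h : QuotientsOfSL n Λ) (hn : 3 ≤ n) {R M : Type*} [CommRing R]
    [AddCommGroup M] [Module R M] (s : Finset M) (hs : s.card < n)
    (hs' : Submodule.span R (s : Set M) = ⊤) (ρ : Λ →* Module.End R M) : ∀ l, ρ l = 1 := by
  classical
  obtain ⟨S, hS⟩ := (Group.fg_def.mp inferInstance : (⊤ : Subgroup Λ).FG)
  have hc : ∀ (l : Λ) (g : M), ∃ c : M → R, ∑ a ∈ s, c a • a = ρ l g := by
    intro l g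
    have h1 : ρ l g ∈ Submodule.span R (s : Set M) := by rw [hs']; trivial
    obtain ⟨c, -, hc⟩ := Submodule.mem_span_finset.mp h1
    exact ⟨c, hc⟩
  choose c hc using hc
  let S' : Finset Λ := S ∪ S.image (fun l => l⁻¹)
  let T : Finset R := (S' ×ˢ s ×ˢ s).image (fun p => c p.1 p.2.1 p.2.2)
  let R0 : Subalgebra ℤ R := Algebra.adjoin ℤ (T : Set R)
  have hft : Algebra.FiniteType ℤ R0 :=
    (Subalgebra.fg_iff_finiteType _).mp (Subalgebra.fg_adjoin_finset T)
  let M0 : Submodule R0 M := Submodule.span R0 (s : Set M)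
  have st1 : ∀ l ∈ S', ∀ v ∈ M0, ρ l v ∈ M0 := by
    intro l hl v hv
    induction hv using Submodule.span_induction with
    | mem g hg =>
      rw [← hc l g]
      refine Submodule.sum_mem _ (fun a ha => ?_)
      have h1 : c l g a ∈ R0 := Algebra.subset_adjoin (Finset.mem_coe.mpr
        (Finset.mem_image.mpr ⟨(l, g, a), by
          simp only [Finset.mem_product]; exact ⟨hl, hg, ha⟩, rfl⟩))
      exact Submodule.smul_mem M0 (⟨c l g a, h1⟩ : R0) (Submodule.subset_span ha)
    | zero => rw [map_zero]; exact Submodule.zero_mem _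
    | add u v _ _ h1 h2 => rw [map_add]; exact Submodule.add_mem _ h1 h2
    | smul r v _ h1 =>
      have : ρ l (r • v) = r • ρ l v := (ρ l).map_smul (r : R) v
      rw [this]
      exact Submodule.smul_mem _ _ h1
  have st2 : ∀ l : Λ, (∀ v ∈ M0, ρ l v ∈ M0) ∧ (∀ v ∈ M0, ρ l⁻¹ v ∈ M0) := by
    intro l
    have hl : l ∈ Subgroup.closure (S : Set Λ) := by rw [hS]; trivial
    induction hl using Subgroup.closure_induction with
    | mem l hl =>
      exact ⟨st1 l (Finset.mem_union_left _ hl),
        st1 l⁻¹ (Finset.mem_union_right _ (Finset.mem_image_of_mem _ hl))⟩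
    | one =>
      refine ⟨fun v hv => ?_, fun v hv => ?_⟩
      · rw [map_one]; exact hv
      · rw [inv_one, map_one]; exact hv
    | mul a b _ _ h1 h2 =>
      refine ⟨fun v hv => ?_, fun v hv => ?_⟩
      · rw [map_mul]; exact h1.1 _ (h2.1 v hv)
      · rw [mul_inv_rev, map_mul]; exact h2.2 _ (h1.2 v hv)
    | inv a _ h1 =>
      refine ⟨h1.2, fun v hv => ?_⟩
      rw [inv_inv]; exact h1.1 v hv
  let ρ0 : Λ →* Module.End R0 M0 :=
    { toFun := fun l => LinearMap.restrict ((ρ l).restrictScalars R0) (st2 l).1
      map_one' := by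
        ext v
        show ρ 1 (v : M) = v
        rw [map_one]; rfl
      map_mul' := by
        intro a b
        ext v
        show ρ (a * b) (v : M) = ρ a (ρ b v)
        rw [map_mul]; rfl }
  let s0 : Finset M0 := s.attach.image (fun g => (⟨g.1, Submodule.subset_span g.2⟩ : M0))
  have hs0 : s0.card < n := by
    refine lt_of_le_of_lt Finset.card_image_le ?_
    rwa [Finset.card_attach]
  have hs0' : Submodule.span R0 (s0 : Set M0) = ⊤ := by
    rw [eq_top_iff]
    rintro ⟨v, hv⟩ -
    induction hv using Submodule.span_induction with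
    | mem g hg =>
      apply Submodule.subset_span
      rw [Finset.mem_coe, Finset.mem_image]
      exact ⟨⟨g, hg⟩, Finset.mem_attach _ _, rfl⟩
    | zero => exact Submodule.zero_mem _
    | add u v hu hv h1 h2 => exact Submodule.add_mem _ h1 h2
    | smul r v hv h1 => exact Submodule.smul_mem _ r h1
  have h1 := mod_trivial_fg h hn s0 hs0 hs0' ρ0
  intro l
  refine LinearMap.ext_on hs' ?_
  intro g hg
  have h2 := LinearMap.congr_fun (h1 l) ⟨g, Submodule.subset_span hg⟩
  exact congrArg Subtype.val h2

end

end Pool.Agent.X277.SR
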