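import Mathlib

set_option autoImplicit false
set_option linter.unusedSectionVars false

/-! Specialization of a transcendental element to positive characteristic. -/

namespace Pool.Agent.X277.SR

open Polynomial

universe v

theorem exists_spec {K : Type v} [Field K] [CharZero K] (T : Finset K) (t : K) (htT : t ∈ T)
    (ht : Transcendental ℤ t) :
    ∃ (p : ℕ) (_ : p.Prime) (k : Type v) (_ : Field k) (_ : CharP k p)
      (θ : Algebra.adjoin ℤ (T : Set K) →+* k),
      ∀ e : ℕ, 0 < e → θ ⟨t, Algebra.subset_adjoin htT⟩ ^ e ≠ 1 := by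
  classical
  let f : ℤ[X] →+* K := (aeval t : ℤ[X] →ₐ[ℤ] K).toRingHom
  have hf : Function.Injective f := transcendental_iff_injective.mp ht
  let F : FractionRing ℤ[X] →+* K := IsFractionRing.lift hf
  letI algEK : Algebra (FractionRing ℤ[X]) K := F.toAlgebra
  let R' : Subalgebra (FractionRing ℤ[X]) K := Algebra.adjoin (FractionRing ℤ[X]) (T : Set K)
  have hft : Algebra.FiniteType (FractionRing ℤ[X]) R' :=
    (Subalgebra.fg_iff_finiteType _).mp (Subalgebra.fg_adjoin_finset T)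
  obtain ⟨M, hM⟩ := Ideal.exists_maximal R'
  letI fL : Field (R' ⧸ M) := Ideal.Quotient.field M
  have hft2 : Algebra.FiniteType (FractionRing ℤ[X]) (R' ⧸ M) :=
    Algebra.FiniteType.of_surjective (Ideal.Quotient.mkₐ (FractionRing ℤ[X]) M)
      Ideal.Quotient.mk_surjective
  have hfin : Module.Finite (FractionRing ℤ[X]) (R' ⧸ M) :=
    finite_of_finite_type_of_isJacobsonRing (FractionRing ℤ[X]) (R' ⧸ M)
  letI algAL : Algebra ℤ[X] (R' ⧸ M) :=
    ((algebraMap (FractionRing ℤ[X]) (R' ⧸ M)).comp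
      (algebraMap ℤ[X] (FractionRing ℤ[X]))).toAlgebra
  have htow : IsScalarTower ℤ[X] (FractionRing ℤ[X]) (R' ⧸ M) :=
    IsScalarTower.of_algebraMap_eq (fun _ => rfl)
  have hinj : Function.Injective (algebraMap ℤ[X] (R' ⧸ M)) := by
    have h1 : Function.Injective (algebraMap ℤ[X] (FractionRing ℤ[X])) :=
      IsFractionRing.injective _ _
    have h2 : Function.Injective (algebraMap (FractionRing ℤ[X]) (R' ⧸ M)) :=
      (algebraMap (FractionRing ℤ[X]) (R' ⧸ M)).injective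
    exact h2.comp h1
  let s : Finset (R' ⧸ M) := T.attach.image
    (fun τ => Ideal.Quotient.mk M ⟨τ.1, Algebra.subset_adjoin τ.2⟩)
  obtain ⟨y, hy0, hy⟩ := exists_integral_multiples ℤ[X] (FractionRing ℤ[X]) s
  -- the prime
  obtain ⟨p, hpc, hp⟩ := Nat.exists_infinite_primes (y.leadingCoeff.natAbs + 1)
  let P : Ideal ℤ[X] := Ideal.span {C (p : ℤ)}
  have hPmem : ∀ g : ℤ[X], g ∈ P ↔ ∀ i, (p : ℤ) ∣ g.coeff i := by
    intro g
    rw [Ideal.mem_span_singleton, Polynomial.C_dvd_iff_dvd_coeff]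
  have hP : P.IsPrime := by
    rw [Ideal.span_singleton_prime (by simp [hp.ne_zero]), Polynomial.prime_C_iff]
    exact Nat.prime_iff_prime_int.mp hp
  have hyP : y ∉ P := by
    intro h
    have h1 := (hPmem y).mp h y.natDegree
    have h2 : y.coeff y.natDegree = y.leadingCoeff := rfl
    rw [h2] at h1
    have h3 := Int.natAbs_dvd_natAbs.mpr h1
    rw [Int.natAbs_natCast] at h3
    have h4 := Nat.le_of_dvd (Int.natAbs_pos.mpr (leadingCoeff_ne_zero.mpr hy0)) h3
    omega
  have hunit : ∀ a : P.primeCompl, IsUnit (algebraMap ℤ[X] (R' ⧸ M) a) := by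
    intro a
    apply IsUnit.mk0
    intro h0
    have : (a : ℤ[X]) = 0 := hinj (by rw [h0, map_zero])
    exact a.2 (this ▸ P.zero_mem)
  let g0 : Localization.AtPrime P →+* (R' ⧸ M) := IsLocalization.lift hunit
  obtain ⟨V, hV, hloc⟩ := IsLocalRing.exists_factor_valuationRing g0
  have hg0 : ∀ a : ℤ[X], g0 (algebraMap ℤ[X] (Localization.AtPrime P) a) =
      algebraMap ℤ[X] (R' ⧸ M) a := fun a => IsLocalization.lift_eq hunit a
  have hAV : ∀ a : ℤ[X], algebraMap ℤ[X] (R' ⧸ M) a ∈ V := by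
    intro a
    rw [← hg0]
    exact hV _
  have hinvV : ∀ a : ℤ[X], a ∉ P → (algebraMap ℤ[X] (R' ⧸ M) a)⁻¹ ∈ V := by
    intro a ha
    obtain ⟨u, hu⟩ := IsLocalization.map_units (Localization.AtPrime P) (⟨a, ha⟩ : P.primeCompl)
    have h1 : g0 (u⁻¹ : (Localization.AtPrime P)ˣ) = (algebraMap ℤ[X] (R' ⧸ M) a)⁻¹ := by
      have h2 : g0 (u : Localization.AtPrime P) = algebraMap ℤ[X] (R' ⧸ M) a := by
        rw [hu]; exact hg0 a
      rw [← h2]
      apply eq_inv_of_mul_eq_one_left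
      rw [← map_mul, Units.inv_mul, map_one]
    rw [← h1]
    exact hV _
  let g1 : ℤ[X] →+* V := (algebraMap ℤ[X] (R' ⧸ M)).codRestrict V hAV
  have hintV : ∀ z : R' ⧸ M, IsIntegral ℤ[X] z → z ∈ V := by
    intro z hz
    obtain ⟨q, hq, hqz⟩ := hz
    have h1 : IsIntegral V z := by
      refine ⟨q.map g1, hq.map g1, ?_⟩
      rw [Polynomial.eval₂_map]
      exact hqz
    obtain ⟨w, hw⟩ := IsIntegrallyClosed.isIntegral_iff.mp h1
    rw [← hw]
    exact w.2
  have hTV : ∀ τ (hτ : τ ∈ T), (Ideal.Quotient.mk M ⟨τ, Algebra.subset_adjoin hτ⟩ : R' ⧸ M) ∈ V := by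
    intro τ hτ
    have h1 := hintV _ (hy (Ideal.Quotient.mk M ⟨τ, Algebra.subset_adjoin hτ⟩)
      (Finset.mem_image.mpr ⟨⟨τ, hτ⟩, Finset.mem_attach _ _, rfl⟩))
    rw [Algebra.smul_def] at h1
    have h2 := V.mul_mem _ _ (hinvV y hyP) h1
    have h3 : algebraMap ℤ[X] (R' ⧸ M) y ≠ 0 := fun h0 => hy0 (hinj (by rw [h0, map_zero]))
    rwa [inv_mul_cancel_left₀ h3] at h2
  -- the map
  have hR : ∀ r : Algebra.adjoin ℤ (T : Set K), (r : K) ∈ R' := by
    rintro ⟨r, hr⟩
    show r ∈ R'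
    induction hr using Algebra.adjoin_induction with
    | mem x hx => exact Algebra.subset_adjoin hx
    | algebraMap c => exact intCast_mem R' c
    | add x y _ _ h1 h2 => exact add_mem h1 h2
    | mul x y _ _ h1 h2 => exact mul_mem h1 h2
  let incl : Algebra.adjoin ℤ (T : Set K) →+* R' :=
    ((Algebra.adjoin ℤ (T : Set K)).val : _ →+* K).codRestrict R' hR
  let θ1 : Algebra.adjoin ℤ (T : Set K) →+* (R' ⧸ M) := (Ideal.Quotient.mk M).comp incl
  have hθV : ∀ r, θ1 r ∈ V := by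
    rintro ⟨r, hr⟩
    induction hr using Algebra.adjoin_induction with
    | mem x hx => exact hTV x hx
    | algebraMap c =>
      have : θ1 ⟨algebraMap ℤ K c, Subalgebra.algebraMap_mem _ c⟩ = ((c : ℤ) : R' ⧸ M) := by
        have h1 : (⟨algebraMap ℤ K c, Subalgebra.algebraMap_mem _ c⟩ :
          Algebra.adjoin ℤ (T : Set K)) = ((c : ℤ) : Algebra.adjoin ℤ (T : Set K)) := rfl
        rw [h1, map_intCast]
      rw [this]
      exact intCast_mem V c
    | add x y hx hy h1 h2 =>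
      have : θ1 ⟨x + y, add_mem hx hy⟩ = θ1 ⟨x, hx⟩ + θ1 ⟨y, hy⟩ := by rw [← map_add]; rfl
      rw [this]; exact V.add_mem _ _ h1 h2
    | mul x y hx hy h1 h2 =>
      have : θ1 ⟨x * y, mul_mem hx hy⟩ = θ1 ⟨x, hx⟩ * θ1 ⟨y, hy⟩ := by rw [← map_mul]; rfl
      rw [this]; exact V.mul_mem _ _ h1 h2
  let θ2 : Algebra.adjoin ℤ (T : Set K) →+* V := θ1.codRestrict V hθV
  refine ⟨p, hp, IsLocalRing.ResidueField V, inferInstance, ?_,
    (IsLocalRing.residue V).comp θ2, ?_⟩
  · have hpV : ((p : ℕ) : IsLocalRing.ResidueField V) = 0 := by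
      rw [← map_natCast (IsLocalRing.residue V), IsLocalRing.residue_eq_zero_iff,
        IsLocalRing.mem_maximalIdeal, mem_nonunits_iff]
      intro hu
      have h1 : ((p : ℕ) : V) = (g0.codRestrict V.toSubring hV)
          (algebraMap ℤ[X] (Localization.AtPrime P) (C (p : ℤ))) := by
        apply Subtype.ext
        show (((p : ℕ) : V) : R' ⧸ M) = g0 (algebraMap ℤ[X] (Localization.AtPrime P) (C (p : ℤ)))
        rw [hg0]
        simp
      rw [h1] at hu
      have h2 := hloc.map_nonunit _ hu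
      rw [IsLocalization.AtPrime.isUnit_to_map_iff (Localization.AtPrime P) P] at h2
      exact h2 (Ideal.mem_span_singleton_self _)
    obtain ⟨q, hq⟩ := CharP.exists (IsLocalRing.ResidueField V)
    have h5 : q ∣ p := (CharP.cast_eq_zero_iff (IsLocalRing.ResidueField V) q p).mp hpV
    rcases (Nat.dvd_prime hp).mp h5 with h6 | h6
    · exact absurd h6 (CharP.char_ne_one (IsLocalRing.ResidueField V) q)
    · rw [← h6]; exact hq
  · intro e he h1
    have h2 : θ1 ⟨t, Algebra.subset_adjoin htT⟩ = algebraMap ℤ[X] (R' ⧸ M) X := by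
      show Ideal.Quotient.mk M (incl ⟨t, Algebra.subset_adjoin htT⟩) =
        Ideal.Quotient.mk M (algebraMap (FractionRing ℤ[X]) R' (algebraMap ℤ[X] _ X))
      congr 1
      apply Subtype.ext
      show t = F (algebraMap ℤ[X] (FractionRing ℤ[X]) X)
      rw [show F (algebraMap ℤ[X] (FractionRing ℤ[X]) X) = f X from IsFractionRing.lift_algebraMap hf X]
      show t = aeval t X
      rw [aeval_X]
    have h3 : X ^ e - 1 ∉ P := by
      intro h
      have h4 := (hPmem _).mp h e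
      rw [coeff_sub, coeff_X_pow, if_pos rfl, coeff_one, if_neg (by omega), sub_zero] at h4
      have h5 := Int.isUnit_iff.mp (isUnit_of_dvd_one h4)
      have := hp.one_lt
      omega
    have h4 : (θ2 ⟨t, Algebra.subset_adjoin htT⟩ ^ e - 1 : V) = g1 (X ^ e - 1) := by
      apply Subtype.ext
      show θ1 ⟨t, Algebra.subset_adjoin htT⟩ ^ e - 1 = algebraMap ℤ[X] (R' ⧸ M) (X ^ e - 1)
      rw [h2, map_sub, map_pow, map_one]
    have h5 : IsUnit (g1 (X ^ e - 1)) := by
      refine IsUnit.of_mul_eq_one ⟨_, hinvV _ h3⟩ ?_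
      apply Subtype.ext
      show algebraMap ℤ[X] (R' ⧸ M) (X ^ e - 1) * (algebraMap ℤ[X] (R' ⧸ M) (X ^ e - 1))⁻¹ = 1
      apply mul_inv_cancel₀
      intro h0
      have : (X ^ e - 1 : ℤ[X]) = 0 := hinj (by rw [h0, map_zero])
      exact h3 (this ▸ P.zero_mem)
    have h6 : IsLocalRing.residue V (g1 (X ^ e - 1)) = 0 := by
      rw [← h4, map_sub, map_pow, map_one]
      have h7 : (IsLocalRing.residue V) (θ2 ⟨t, Algebra.subset_adjoin htT⟩) ^ e = 1 := h1
      rw [h7, sub_self]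
    rw [IsLocalRing.residue_eq_zero_iff, IsLocalRing.mem_maximalIdeal, mem_nonunits_iff] at h6
    exact h6 h5

end Pool.Agent.X277.SR
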