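import Pool.Agent.X277.SR.Pos
import Pool.Agent.X277.SR.Spec

set_option autoImplicit false
set_option linter.unusedSectionVars false

/-! Groups all of whose finite quotients are quotients of `SL_n(ℤ)`: linear representations in
characteristic zero have algebraic eigenvalues. -/

namespace Pool.Agent.X277.SR

universe v

open Matrix (SpecialLinearGroup)

section
variable {n : ℕ} {Λ : Type} [Group Λ]

/-- a linear representation of a finitely generated group is defined over a finitely generated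
ring -/
lemma descend [Group.FG Λ] {m : ℕ} {K : Type v} [Field K]
    (ρ : Λ →* Matrix.GeneralLinearGroup (Fin m) K) (T0 : Finset K) :
    ∃ T : Finset K, T0 ⊆ T ∧ ∃ ρ0 : Λ →* Matrix (Fin m) (Fin m) (Algebra.adjoin ℤ (T : Set K)),
      ∀ l i j, (ρ0 l i j : K) = (ρ l).1 i j := by
  classical
  obtain ⟨S, hS⟩ := (Group.fg_def.mp inferInstance : (⊤ : Subgroup Λ).FG)
  let S' : Finset Λ := S ∪ S.image (fun l => l⁻¹)
  let T : Finset K := T0 ∪ (S' ×ˢ (Finset.univ : Finset (Fin m)) ×ˢ
    (Finset.univ : Finset (Fin m))).image (fun q => (ρ q.1).1 q.2.1 q.2.2)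
  let R0 : Subalgebra ℤ K := Algebra.adjoin ℤ (T : Set K)
  have st1 : ∀ l ∈ S', ∀ i j, (ρ l).1 i j ∈ R0 := by
    intro l hl i j
    exact Algebra.subset_adjoin (Finset.mem_coe.mpr (Finset.mem_union_right _
      (Finset.mem_image.mpr ⟨(l, i, j), by
        simp only [Finset.mem_product, Finset.mem_univ, and_true]; exact hl, rfl⟩)))
  have stmul : ∀ a b : Λ, (∀ i j, (ρ a).1 i j ∈ R0) → (∀ i j, (ρ b).1 i j ∈ R0) →
      ∀ i j, (ρ (a * b)).1 i j ∈ R0 := by
    intro a b ha hb i j
    have : (ρ (a * b)).1 i j = ∑ k, (ρ a).1 i k * (ρ b).1 k j := by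
      rw [map_mul]; exact Matrix.mul_apply
    rw [this]
    exact sum_mem (fun k _ => mul_mem (ha i k) (hb k j))
  have st2 : ∀ l : Λ, (∀ i j, (ρ l).1 i j ∈ R0) ∧ (∀ i j, (ρ l⁻¹).1 i j ∈ R0) := by
    intro l
    have hl : l ∈ Subgroup.closure (S : Set Λ) := by rw [hS]; trivial
    induction hl using Subgroup.closure_induction with
    | mem l hl =>
      exact ⟨st1 l (Finset.mem_union_left _ hl),
        st1 l⁻¹ (Finset.mem_union_right _ (Finset.mem_image_of_mem _ hl))⟩
    | one =>
      have : ∀ i j, (ρ 1).1 i j ∈ R0 := by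
        intro i j
        rw [map_one]
        show (1 : Matrix (Fin m) (Fin m) K) i j ∈ R0
        rw [Matrix.one_apply]
        split_ifs
        · exact one_mem _
        · exact zero_mem _
      exact ⟨this, by rw [inv_one]; exact this⟩
    | mul a b _ _ h1 h2 =>
      refine ⟨stmul a b h1.1 h2.1, ?_⟩
      rw [mul_inv_rev]
      exact stmul _ _ h2.2 h1.2
    | inv a _ h1 =>
      refine ⟨h1.2, ?_⟩
      rw [inv_inv]; exact h1.1
  refine ⟨T, Finset.subset_union_left,
    { toFun := fun l => Matrix.of fun i j => ⟨(ρ l).1 i j, (st2 l).1 i j⟩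
      map_one' := by
        ext i j
        show (ρ 1).1 i j = ((1 : Matrix (Fin m) (Fin m) R0) i j : K)
        rw [map_one]
        show (1 : Matrix (Fin m) (Fin m) K) i j = _
        rw [Matrix.one_apply, Matrix.one_apply]
        split_ifs <;> rfl
      map_mul' := by
        intro a b
        ext i j
        show (ρ (a * b)).1 i j = _
        have : (ρ (a * b)).1 i j = ∑ k, (ρ a).1 i k * (ρ b).1 k j := by
          rw [map_mul]; exact Matrix.mul_apply
        rw [this, Matrix.mul_apply]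
        push_cast
        rfl }, fun l i j => rfl⟩

/-- **The eigenvalues of linear representations in characteristic zero are algebraic.** -/
theorem eigen_algebraic [Group.FG Λ] (h : QuotientsOfSL n Λ) (hn : 3 ≤ n) {m : ℕ} {K : Type v}
    [Field K] [CharZero K] (ρ : Λ →* Matrix.GeneralLinearGroup (Fin m) K) (l : Λ) (α : K)
    (hα : (ρ l).1.charpoly.IsRoot α) : IsAlgebraic ℤ α := by
  classical
  by_contra htr
  obtain ⟨T, hT, ρ0, hρ0⟩ := descend ρ {α}
  have hαT : α ∈ T := hT (Finset.mem_singleton_self α)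
  obtain ⟨p, hp, k, _, _, θ, hθ⟩ := exists_spec T α hαT htr
  have hp' : Fact p.Prime := ⟨hp⟩
  let φ : Λ →* Matrix.GeneralLinearGroup (Fin m) k :=
    ((θ.mapMatrix : Matrix (Fin m) (Fin m) _ →+* Matrix (Fin m) (Fin m) k).toMonoidHom.comp
      ρ0).toHomUnits
  have hF : Finite (FQ n m p) := fin_EN (by rw [Fintype.card_fin]; exact hn)
    (Nat.mul_pos (Nat.factorial_pos m) (pow_pos hp.pos m))
  obtain ⟨g, hg⟩ := image_quotient h hn p m φ
  have he : φ l ^ Nat.card (FQ n m p) = 1 := by
    obtain ⟨x, hx⟩ := hg ⟨φ l, l, rfl⟩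
    have h1 := congrArg (fun z => g z) (pow_card_eq_one' (x := x))
    simp only [map_pow, map_one, hx] at h1
    exact congrArg Subtype.val h1
  have hpos : 0 < Nat.card (FQ n m p) := Nat.card_pos
  generalize Nat.card (FQ n m p) = e at he hpos
  -- the determinant
  let R0 := Algebra.adjoin ℤ (T : Set K)
  let α0 : R0 := ⟨α, Algebra.subset_adjoin hαT⟩
  have hdetK : (Matrix.scalar (Fin m) α - (ρ l).1).det = 0 := by
    rw [← Matrix.eval_charpoly]; exact hα
  have hmap : (R0.val : R0 →+* K).mapMatrix (Matrix.scalar (Fin m) α0 - ρ0 l) =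
      Matrix.scalar (Fin m) α - (ρ l).1 := by
    ext i j
    show ((Matrix.scalar (Fin m) α0 i j - ρ0 l i j : R0) : K) =
      Matrix.scalar (Fin m) α i j - (ρ l).1 i j
    rw [← hρ0 l i j, Matrix.scalar_apply, Matrix.scalar_apply, Matrix.diagonal_apply,
      Matrix.diagonal_apply]
    split_ifs <;> rfl
  have hdet0 : (Matrix.scalar (Fin m) α0 - ρ0 l).det = 0 := by
    have h1 := RingHom.map_det (R0.val : R0 →+* K) (Matrix.scalar (Fin m) α0 - ρ0 l)
    rw [hmap, hdetK] at h1
    exact Subtype.ext h1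
  have hdetk : (Matrix.scalar (Fin m) (θ α0) - (φ l).1).det = 0 := by
    have h1 := RingHom.map_det θ (Matrix.scalar (Fin m) α0 - ρ0 l)
    rw [hdet0, map_zero] at h1
    have h2 : θ.mapMatrix (Matrix.scalar (Fin m) α0 - ρ0 l) =
        Matrix.scalar (Fin m) (θ α0) - (φ l).1 := by
      ext i j
      show θ (Matrix.scalar (Fin m) α0 i j - ρ0 l i j) =
        Matrix.scalar (Fin m) (θ α0) i j - θ (ρ0 l i j)
      rw [map_sub, Matrix.scalar_apply, Matrix.scalar_apply, Matrix.diagonal_apply,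
        Matrix.diagonal_apply]
      split_ifs
      · rfl
      · rw [map_zero]
    rw [← h2]
    exact h1.symm
  obtain ⟨v, hv0, hv⟩ := Matrix.exists_mulVec_eq_zero_iff.mpr hdetk
  have hv1 : (φ l).1.mulVec v = θ α0 • v := by
    rw [Matrix.sub_mulVec, sub_eq_zero] at hv
    rw [← hv]
    ext i
    rw [Matrix.scalar_apply, Matrix.mulVec_diagonal]
    rfl
  have hv2 : ∀ e : ℕ, ((φ l).1 ^ e).mulVec v = (θ α0) ^ e • v := by
    intro e
    induction e with
    | zero => rw [pow_zero, pow_zero, Matrix.one_mulVec, one_smul]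
    | succ e ih =>
      rw [pow_succ, ← Matrix.mulVec_mulVec, hv1, Matrix.mulVec_smul, ih, smul_smul, pow_succ,
        mul_comm]
  have h1 : (φ l).1 ^ e = 1 := congrArg Units.val he
  have h2 := hv2 e
  rw [h1, Matrix.one_mulVec] at h2
  apply hθ e hpos
  obtain ⟨i, hi⟩ : ∃ i, v i ≠ 0 := by
    by_contra hcon
    push Not at hcon
    exact hv0 (funext hcon)
  have h3 := congrFun h2 i
  rw [Pi.smul_apply, smul_eq_mul] at h3
  exact (mul_right_cancel₀ hi (by rw [one_mul]; exact h3)).symm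

/-- **The traces of linear representations in characteristic zero are algebraic.** -/
theorem trace_algebraic [Group.FG Λ] (h : QuotientsOfSL n Λ) (hn : 3 ≤ n) {m : ℕ} {K : Type v}
    [Field K] [CharZero K] (ρ : Λ →* Matrix.GeneralLinearGroup (Fin m) K) (l : Λ) :
    IsAlgebraic ℤ (Matrix.trace (ρ l).1) := by
  classical
  let L := AlgebraicClosure K
  have hL : CharZero L := charZero_of_injective_algebraMap (algebraMap K L).injective
  let ρ' : Λ →* Matrix.GeneralLinearGroup (Fin m) L :=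
    (Matrix.GeneralLinearGroup.map (algebraMap K L)).comp ρ
  have h1 : ∀ α ∈ (ρ' l).1.charpoly.roots, α ∈ algebraicClosure ℚ L := by
    intro α hα
    rw [mem_algebraicClosure_iff]
    exact (IsFractionRing.isAlgebraic_iff ℤ ℚ L).mp
      (eigen_algebraic h hn ρ' l α ((Polynomial.mem_roots'.mp hα).2))
  have h2 : Matrix.trace (ρ' l).1 = (ρ' l).1.charpoly.roots.sum :=
    Matrix.trace_eq_sum_roots_charpoly _
  have h3 : Matrix.trace (ρ' l).1 = algebraMap K L (Matrix.trace (ρ l).1) := by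
    rw [Matrix.trace, Matrix.trace, map_sum]
    rfl
  have h4 : algebraMap K L (Matrix.trace (ρ l).1) ∈ algebraicClosure ℚ L := by
    rw [← h3, h2]
    exact multiset_sum_mem _ h1
  rw [mem_algebraicClosure_iff] at h4
  have h5 : IsAlgebraic ℤ (algebraMap K L (Matrix.trace (ρ l).1)) :=
    (IsFractionRing.isAlgebraic_iff ℤ ℚ L).mpr h4
  exact (isAlgebraic_algebraMap_iff (algebraMap K L).injective).mp h5

theorem trace_algebraicQ [Group.FG Λ] (h : QuotientsOfSL n Λ) (hn : 3 ≤ n) {m : ℕ} {K : Type v}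
    [Field K] [CharZero K] (ρ : Λ →* Matrix.GeneralLinearGroup (Fin m) K) (l : Λ) :
    IsAlgebraic ℚ (Matrix.trace (ρ l).1) :=
  (IsFractionRing.isAlgebraic_iff ℤ ℚ K).mp (trace_algebraic h hn ρ l)

open Polynomial in
/-- **Uniform version: each trace takes only finitely many values.** -/
theorem uniform [Group.FG Λ] (h : QuotientsOfSL n Λ) (hn : 3 ≤ n) (m : ℕ) (l : Λ) :
    ∃ f : ℤ[X], f ≠ 0 ∧ ∀ (K : Type v) [Field K] [CharZero K]
      (ρ : Λ →* Matrix.GeneralLinearGroup (Fin m) K),
        aeval (Matrix.trace (ρ l).1) f = 0 ∧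
          ∀ α : K, (ρ l).1.charpoly.IsRoot α → aeval α f = 0 := by
  classical
  by_contra hcon
  push Not at hcon
  have hex : ∀ f : {f : ℤ[X] // f ≠ 0}, ∃ (K : Type v) (_ : Field K) (_ : CharZero K)
      (ρ : Λ →* Matrix.GeneralLinearGroup (Fin m) K) (x : K),
      (Matrix.scalar (Fin m) x - (ρ l).1).det * (x - Matrix.trace (ρ l).1) = 0 ∧
        aeval x f.1 ≠ 0 := by
    rintro ⟨f, hf⟩
    obtain ⟨K, iF, iC, ρ, hρ⟩ := hcon f hf
    by_cases h0 : aeval (Matrix.trace (ρ l).1) f = 0
    · obtain ⟨α, hα, hα'⟩ := hρ h0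
      refine ⟨K, iF, iC, ρ, α, ?_, hα'⟩
      rw [← Matrix.eval_charpoly, hα, zero_mul]
    · refine ⟨K, iF, iC, ρ, Matrix.trace (ρ l).1, ?_, h0⟩
      rw [sub_self, mul_zero]
  choose K iF iC ρ x hD hx using hex
  let A := ∀ f : {f : ℤ[X] // f ≠ 0}, K f
  let J : Ideal A :=
    { carrier := {a | ∃ f : {f : ℤ[X] // f ≠ 0}, ∀ g : {f : ℤ[X] // f ≠ 0}, f.1 ∣ g.1 → a g = 0}
      zero_mem' := ⟨⟨1, one_ne_zero⟩, fun g _ => rfl⟩
      add_mem' := by
        rintro a b ⟨f, hf⟩ ⟨g, hg⟩
        refine ⟨⟨f.1 * g.1, mul_ne_zero f.2 g.2⟩, fun r hr => ?_⟩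
        show a r + b r = 0
        rw [hf r ((dvd_mul_right _ _).trans hr), hg r ((dvd_mul_left _ _).trans hr), add_zero]
      smul_mem' := by
        rintro c a ⟨f, hf⟩
        refine ⟨f, fun r hr => ?_⟩
        show c r * a r = 0
        rw [hf r hr, mul_zero] }
  have hJ : J ≠ ⊤ := by
    intro hJ
    have h1 : (1 : A) ∈ J := by rw [hJ]; trivial
    obtain ⟨f, hf⟩ := h1
    exact one_ne_zero (hf f (dvd_refl _))
  obtain ⟨M, hM, hJM⟩ := Ideal.exists_le_maximal J hJ
  letI fk : Field (A ⧸ M) := Ideal.Quotient.field M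
  -- elements nonzero on a large set are not in `M`
  have hlarge : ∀ a : A, (∃ f : {f : ℤ[X] // f ≠ 0}, ∀ g : {f : ℤ[X] // f ≠ 0},
      f.1 ∣ g.1 → a g ≠ 0) → a ∉ M := by
    rintro a ⟨f, hf⟩ haM
    let u : A := fun g => (a g)⁻¹
    have h1 : (1 - u * a) ∈ M := by
      apply hJM
      refine ⟨f, fun g hg => ?_⟩
      show 1 - (a g)⁻¹ * a g = 0
      rw [inv_mul_cancel₀ (hf g hg), sub_self]
    apply hM.ne_top
    rw [Ideal.eq_top_iff_one]
    have h2 := M.add_mem h1 (M.mul_mem_left u haM)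
    rwa [sub_add_cancel] at h2
  have hchar : CharZero (A ⧸ M) := by
    refine charZero_of_inj_zero (fun c hc => ?_)
    by_contra hc0
    have h1 : ((c : ℕ) : A) ∉ M := by
      apply hlarge
      refine ⟨⟨1, one_ne_zero⟩, fun g _ => ?_⟩
      show ((c : ℕ) : K g) ≠ 0
      exact Nat.cast_ne_zero.mpr hc0
    apply h1
    rw [← Ideal.Quotient.eq_zero_iff_mem, map_natCast]
    exact hc
  let ρA : Λ →* Matrix (Fin m) (Fin m) A :=
    { toFun := fun γ => Matrix.of fun i j f => (ρ f γ).1 i j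
      map_one' := by
        ext i j f
        show (ρ f 1).1 i j = (1 : Matrix (Fin m) (Fin m) A) i j f
        rw [map_one]
        show (1 : Matrix (Fin m) (Fin m) (K f)) i j = _
        rw [Matrix.one_apply, Matrix.one_apply]
        split_ifs <;> rfl
      map_mul' := by
        intro a b
        ext i j f
        show (ρ f (a * b)).1 i j = _
        have : (ρ f (a * b)).1 i j = ∑ k, (ρ f a).1 i k * (ρ f b).1 k j := by
          rw [map_mul]; exact Matrix.mul_apply
        rw [this, Matrix.mul_apply, Finset.sum_apply]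
        rfl }
  let φ : Λ →* Matrix.GeneralLinearGroup (Fin m) (A ⧸ M) :=
    (((Ideal.Quotient.mk M).mapMatrix : Matrix (Fin m) (Fin m) A →+*
      Matrix (Fin m) (Fin m) (A ⧸ M)).toMonoidHom.comp ρA).toHomUnits
  have hDA : (Matrix.scalar (Fin m) (x : A) - ρA l).det * ((x : A) - Matrix.trace (ρA l)) = 0 := by
    funext f
    have h1 := RingHom.map_det (Pi.evalRingHom K f) (Matrix.scalar (Fin m) (x : A) - ρA l)
    have h2 : (Pi.evalRingHom K f).mapMatrix (Matrix.scalar (Fin m) (x : A) - ρA l) =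
        Matrix.scalar (Fin m) (x f) - (ρ f l).1 := by
      ext i j
      show (Matrix.scalar (Fin m) (x : A) i j - ρA l i j) f =
        Matrix.scalar (Fin m) (x f) i j - (ρ f l).1 i j
      rw [Matrix.scalar_apply, Matrix.scalar_apply, Matrix.diagonal_apply, Matrix.diagonal_apply]
      split_ifs <;> rfl
    have h3 : Pi.evalRingHom K f (Matrix.trace (ρA l)) = Matrix.trace (ρ f l).1 := by
      rw [Matrix.trace, Matrix.trace, map_sum]
      rfl
    rw [h2] at h1
    show (Matrix.scalar (Fin m) (x : A) - ρA l).det f * (x f - Matrix.trace (ρA l) f) = 0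
    have h4 : (Matrix.scalar (Fin m) (x : A) - ρA l).det f =
        (Matrix.scalar (Fin m) (x f) - (ρ f l).1).det := h1
    have h5 : Matrix.trace (ρA l) f = Matrix.trace (ρ f l).1 := h3
    rw [h4, h5]
    exact hD f
  have hDk : (Matrix.scalar (Fin m) (Ideal.Quotient.mk M (x : A)) - (φ l).1).det *
      (Ideal.Quotient.mk M (x : A) - Matrix.trace (φ l).1) = 0 := by
    have h1 := congrArg (Ideal.Quotient.mk M) hDA
    rw [map_mul, map_zero, RingHom.map_det, map_sub (Ideal.Quotient.mk M) (x : A)] at h1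
    have h2 : (Ideal.Quotient.mk M).mapMatrix (Matrix.scalar (Fin m) (x : A) - ρA l) =
        Matrix.scalar (Fin m) (Ideal.Quotient.mk M (x : A)) - (φ l).1 := by
      ext i j
      show Ideal.Quotient.mk M (Matrix.scalar (Fin m) (x : A) i j - ρA l i j) =
        Matrix.scalar (Fin m) (Ideal.Quotient.mk M (x : A)) i j - Ideal.Quotient.mk M (ρA l i j)
      rw [map_sub, Matrix.scalar_apply, Matrix.scalar_apply, Matrix.diagonal_apply,
        Matrix.diagonal_apply]
      split_ifs
      · rfl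
      · rw [map_zero]
    have h3 : Ideal.Quotient.mk M (Matrix.trace (ρA l)) = Matrix.trace (φ l).1 := by
      rw [Matrix.trace, Matrix.trace, map_sum]
      rfl
    rw [h2, h3] at h1
    exact h1
  have halg : IsAlgebraic ℤ (Ideal.Quotient.mk M (x : A)) := by
    rcases mul_eq_zero.mp hDk with h1 | h1
    · apply eigen_algebraic h hn φ l
      rw [Polynomial.IsRoot.def, Matrix.eval_charpoly]
      exact h1
    · rw [sub_eq_zero.mp h1]
      exact trace_algebraic h hn φ l
  obtain ⟨f, hf0, hf⟩ := halg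
  have h1 : (aeval (x : A) f) ∉ M := by
    apply hlarge
    refine ⟨⟨f, hf0⟩, fun g hg => ?_⟩
    have h2 : (aeval (x : A) f) g = aeval (x g) f := by
      have h3 := Polynomial.hom_eval₂ f (algebraMap ℤ A) (Pi.evalRingHom K g) (x : A)
      have h4 : (Pi.evalRingHom K g).comp (algebraMap ℤ A) = algebraMap ℤ (K g) :=
        RingHom.ext_int _ _
      rw [h4] at h3
      exact h3
    rw [h2]
    obtain ⟨q, hq⟩ := hg
    intro h0
    apply hx g
    have h5 : g.1 = f * q := hq
    rw [h5, map_mul, h0, zero_mul]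
  apply h1
  rw [← Ideal.Quotient.eq_zero_iff_mem]
  have h3 := Polynomial.hom_eval₂ f (algebraMap ℤ A) (Ideal.Quotient.mk M) (x : A)
  have h4 : (Ideal.Quotient.mk M).comp (algebraMap ℤ A) = algebraMap ℤ (A ⧸ M) :=
    RingHom.ext_int _ _
  rw [h4] at h3
  have h5 : Ideal.Quotient.mk M (aeval (x : A) f) = aeval (Ideal.Quotient.mk M (x : A)) f := h3
  rw [h5, hf]

end

end Pool.Agent.X277.SR
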