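import Pool.Agent.X277.SR.Act

set_option autoImplicit false
set_option linter.unusedSectionVars false

/-! Groups all of whose finite quotients are quotients of `SL_n(ℤ)`: actions on residually
nilpotent groups. -/

namespace Pool.Agent.X277.SR

open scoped commutatorElement

section
variable {n : ℕ} {Λ : Type} [Group Λ]

/-- the terms of the lower central series -/
abbrev lc (G : Type*) [Group G] (k : ℕ) : Subgroup G := (⊤ : Subgroup G).lowerCentralSeries k

lemma lc_central {G : Type*} [Group G] (k : ℕ) {c : G} (hc : c ∈ lc G k) (g : G) :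
    (QuotientGroup.mk c : G ⧸ lc G (k + 1)) * QuotientGroup.mk g =
      QuotientGroup.mk g * QuotientGroup.mk c := by
  have h1 : ⁅c, g⁆ ∈ lc G (k + 1) := Subgroup.commutator_mem_commutator hc (Subgroup.mem_top g)
  have h2 : (QuotientGroup.mk ⁅c, g⁆ : G ⧸ lc G (k + 1)) = 1 :=
    (QuotientGroup.eq_one_iff _).mpr h1
  rw [commutatorElement_def, QuotientGroup.mk_mul, QuotientGroup.mk_mul, QuotientGroup.mk_mul,
    QuotientGroup.mk_inv, QuotientGroup.mk_inv, mul_inv_eq_one, mul_inv_eq_iff_eq_mul] at h2
  exact h2

/-- If `Λ` acts on a group `G` so that it acts trivially on the abelianization, then it acts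
trivially modulo each term of the lower central series. -/
theorem aut_lcs [Group.FG Λ] (h : QuotientsOfSL n Λ) (hn : 3 ≤ n) {G : Type*} [Group G]
    (φ : Λ →* MulAut G) (h1 : ∀ l g, φ l g * g⁻¹ ∈ lc G 1) (k : ℕ) :
    ∀ l g, φ l g * g⁻¹ ∈ lc G (k + 1) := by
  induction k with
  | zero => exact h1
  | succ k ih =>
    let q : G →* G ⧸ lc G (k + 2) := QuotientGroup.mk' (lc G (k + 2))
    have hcen : ∀ c ∈ lc G (k + 1), ∀ x : G ⧸ lc G (k + 2), q c * x = x * q c := by
      intro c hc x
      obtain ⟨g, rfl⟩ := QuotientGroup.mk'_surjective _ x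
      exact lc_central (k + 1) hc g
    have hγ : ∀ l, ∀ c ∈ lc G (k + 1), q (φ l c) = q c := by
      intro l c hc
      rw [show lc G (k + 1) = ⁅lc G k, ⊤⁆ from rfl, Subgroup.commutator_def] at hc
      induction hc using Subgroup.closure_induction with
      | mem x hx =>
        obtain ⟨p, -, g, -, rfl⟩ := hx
        rw [map_commutatorElement, map_commutatorElement, map_commutatorElement]
        have e1 : q (φ l p) = q (φ l p * p⁻¹) * q p := by rw [← map_mul]; congr 1; group
        have e2 : q (φ l g) = q (φ l g * g⁻¹) * q g := by rw [← map_mul]; congr 1; group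
        have c1 := hcen _ (ih l p)
        have c2 := hcen _ (ih l g)
        generalize q (φ l p * p⁻¹) = a at e1 c1
        generalize q (φ l g * g⁻¹) = b at e2 c2
        rw [e1, e2, commutatorElement_def, commutatorElement_def, mul_inv_rev, mul_inv_rev]
        have c3 : ∀ x, x * a⁻¹ = a⁻¹ * x := fun x => by
          rw [mul_inv_eq_iff_eq_mul, mul_assoc, ← c1 x, inv_mul_cancel_left]
        have c4 : ∀ x, x * b⁻¹ = b⁻¹ * x := fun x => by
          rw [mul_inv_eq_iff_eq_mul, mul_assoc, ← c2 x, inv_mul_cancel_left]
        calc a * q p * (b * q g) * ((q p)⁻¹ * a⁻¹) * ((q g)⁻¹ * b⁻¹)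
            = a * (q p * b) * q g * ((q p)⁻¹ * a⁻¹) * ((q g)⁻¹ * b⁻¹) := by
              simp only [mul_assoc]
          _ = a * (b * q p) * q g * (a⁻¹ * (q p)⁻¹) * (b⁻¹ * (q g)⁻¹) := by
              rw [c2 (q p), c3, c4]
          _ = b * (a * (q p * q g * a⁻¹)) * (q p)⁻¹ * (b⁻¹ * (q g)⁻¹) := by
              rw [← mul_assoc a b, c1 b]; simp only [mul_assoc]
          _ = b * (q p * q g * (q p)⁻¹ * b⁻¹) * (q g)⁻¹ := by
              rw [c3, mul_inv_cancel_left]; simp only [mul_assoc]
          _ = q p * q g * (q p)⁻¹ * (q g)⁻¹ := by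
              rw [c4, mul_inv_cancel_left]
      | one => rw [map_one]
      | mul a b _ _ h2 h3 => rw [map_mul, map_mul, map_mul, h2, h3]
      | inv a _ h2 => rw [map_inv, map_inv, map_inv, h2]
    intro l g
    let θ : Λ →* Subgroup.center (G ⧸ lc G (k + 2)) :=
      { toFun := fun l => ⟨q (φ l g * g⁻¹), by
          rw [Subgroup.mem_center_iff]
          exact fun x => (hcen _ (ih l g) x).symm⟩
        map_one' := by
          apply Subtype.ext
          show q (φ 1 g * g⁻¹) = 1
          rw [map_one, MulAut.one_apply, mul_inv_cancel, map_one]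
        map_mul' := by
          intro a b
          apply Subtype.ext
          show q (φ (a * b) g * g⁻¹) = q (φ a g * g⁻¹) * q (φ b g * g⁻¹)
          rw [φ.map_mul, MulAut.mul_apply]
          have e3 := hcen _ (ih b g) (q (φ a g * g⁻¹))
          have e4 : φ a (φ b g) * g⁻¹ = φ a (φ b g * g⁻¹) * (φ a g * g⁻¹) := by
            rw [map_mul (φ a), map_inv]; group
          rw [e4, map_mul q, hγ a _ (ih b g), e3] }
    letI : CommGroup (Subgroup.center (G ⧸ lc G (k + 2))) :=
      { (inferInstance : Group (Subgroup.center (G ⧸ lc G (k + 2)))) with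
        mul_comm := fun a b => Subtype.ext (Subgroup.mem_center_iff.mp b.2 a.1) }
    have h2 := congrArg Subtype.val
      (perfect (A := ↥(Subgroup.center (G ⧸ lc G (k + 2)))) h hn θ l)
    exact (QuotientGroup.eq_one_iff _).mp h2

/-- the induced action on the abelianization -/
noncomputable def abRep {G : Type*} [Group G] (φ : Λ →* MulAut G) :
    Λ →* Module.End ℤ (Additive (Abelianization G)) where
  toFun l := (MonoidHom.toAdditive (Abelianization.map (φ l).toMonoidHom)).toIntLinearMap
  map_one' := by
    apply LinearMap.ext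
    intro v
    obtain ⟨g, hg⟩ := QuotientGroup.mk_surjective (Additive.toMul v)
    have : v = Additive.ofMul (Abelianization.of g) := hg.symm
    subst this
    show Additive.ofMul (Abelianization.map (φ 1).toMonoidHom (Abelianization.of g)) = _
    rw [Abelianization.map_of, map_one]
    rfl
  map_mul' := by
    intro a b
    apply LinearMap.ext
    intro v
    obtain ⟨g, hg⟩ := QuotientGroup.mk_surjective (Additive.toMul v)
    have : v = Additive.ofMul (Abelianization.of g) := hg.symm
    subst this
    show Additive.ofMul (Abelianization.map (φ (a * b)).toMonoidHom (Abelianization.of g)) =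
      Additive.ofMul (Abelianization.map (φ a).toMonoidHom
        (Abelianization.map (φ b).toMonoidHom (Abelianization.of g)))
    rw [Abelianization.map_of, Abelianization.map_of, Abelianization.map_of, map_mul]
    rfl

/-- **Actions on groups whose abelianization has fewer than `n` generators are trivial modulo
each term of the lower central series.** -/
theorem aut_trivial_mod [Group.FG Λ] (h : QuotientsOfSL n Λ) (hn : 3 ≤ n) {G : Type*} [Group G]
    (s : Finset G) (hs : s.card < n) (hs' : Subgroup.closure (s : Set G) ⊔ commutator G = ⊤)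
    (φ : Λ →* MulAut G) (k : ℕ) : ∀ l g, φ l g * g⁻¹ ∈ lc G (k + 1) := by
  classical
  apply aut_lcs h hn φ
  let s' : Finset (Additive (Abelianization G)) :=
    s.image (fun g => Additive.ofMul (Abelianization.of g))
  have hsp : Submodule.span ℤ (s' : Set (Additive (Abelianization G))) = ⊤ := by
    have h1 : ∀ g : G, Additive.ofMul (Abelianization.of g) ∈
        Submodule.span ℤ (s' : Set (Additive (Abelianization G))) := by
      intro g
      have hg : g ∈ Subgroup.closure (s : Set G) ⊔ commutator G := by rw [hs']; trivial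
      rw [Subgroup.mem_sup_of_normal_right] at hg
      obtain ⟨a, ha, b, hb, rfl⟩ := hg
      have hb' : Abelianization.of b = 1 := by
        rw [← MonoidHom.mem_ker, Abelianization.ker_of]; exact hb
      rw [map_mul, hb', mul_one]
      induction ha using Subgroup.closure_induction with
      | mem x hx =>
        exact Submodule.subset_span (Finset.mem_coe.mpr (Finset.mem_image_of_mem _ hx))
      | one => rw [map_one]; exact Submodule.zero_mem _
      | mul x y _ _ h1 h2 => rw [map_mul, ofMul_mul]; exact Submodule.add_mem _ h1 h2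
      | inv x _ h1 => rw [map_inv, ofMul_inv]; exact Submodule.neg_mem _ h1
    rw [eq_top_iff]
    intro v _
    obtain ⟨g, hg⟩ := QuotientGroup.mk_surjective (Additive.toMul v)
    have : v = Additive.ofMul (Abelianization.of g) := hg.symm
    rw [this]
    exact h1 g
  have h1 := mod_trivial h hn s' (lt_of_le_of_lt Finset.card_image_le hs) hsp (abRep φ)
  intro l g
  have h2 := LinearMap.congr_fun (h1 l) (Additive.ofMul (Abelianization.of g))
  have h3 : Abelianization.of (φ l g) = Abelianization.of g := h2
  show _ ∈ commutator G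
  rw [← Abelianization.ker_of, MonoidHom.mem_ker, map_mul, map_inv, h3, mul_inv_cancel]

/-- **Actions on residually nilpotent groups whose abelianization has fewer than `n` generators
are trivial.** -/
theorem aut_trivial [Group.FG Λ] (h : QuotientsOfSL n Λ) (hn : 3 ≤ n) {G : Type*} [Group G]
    (s : Finset G) (hs : s.card < n) (hs' : Subgroup.closure (s : Set G) ⊔ commutator G = ⊤)
    (hres : ∀ g : G, g ≠ 1 → ∃ k, g ∉ (⊤ : Subgroup G).lowerCentralSeries k)
    (φ : Λ →* MulAut G) : ∀ l, φ l = 1 := by
  intro l
  ext g
  by_contra hne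
  have h1 : φ l g * g⁻¹ ≠ 1 := by
    intro h0
    exact hne (mul_inv_eq_one.mp h0)
  obtain ⟨k, hk⟩ := hres _ h1
  apply hk
  exact (⊤ : Subgroup G).lowerCentralSeries_antitone (Nat.le_succ k)
    (aut_trivial_mod h hn s hs hs' φ k l g)

end

end Pool.Agent.X277.SR
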