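import Pool.Agent.X277.SR.Act

set_option autoImplicit false
set_option linter.unusedSectionVars false

/-! The order of elementary matrices in representations in positive characteristic. -/

namespace Pool.Agent.X277.SR

open scoped TensorProduct
open Matrix (SpecialLinearGroup)
open Matrix.SpecialLinearGroup
open Polynomial

section
variable {K V : Type*} [Field K] [AddCommGroup V] [Module K V] [FiniteDimensional K V]

/-- the eigenvalues of a central commutator are roots of unity -/
lemma eig_root (a b z : Module.End K V) (ha : Function.Injective a) (hb : Function.Injective b)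
    (hza : ∀ v, z (a v) = a (z v)) (hzb : ∀ v, z (b v) = b (z v))
    (hrel : ∀ v, a (b v) = z (b (a v))) {μ : K} (hμ : z.HasEigenvalue μ) {m : ℕ}
    (hm : Module.finrank K V ≤ m) : μ ^ m.factorial = 1 := by
  let E := Module.End.eigenspace z μ
  have haE : ∀ v ∈ E, a v ∈ E := by
    intro v hv
    rw [Module.End.mem_eigenspace_iff] at hv ⊢
    rw [hza, hv, map_smul]
  have hbE : ∀ v ∈ E, b v ∈ E := by
    intro v hv
    rw [Module.End.mem_eigenspace_iff] at hv ⊢
    rw [hzb, hv, map_smul]
  let a' : Module.End K E := a.restrict haE
  let b' : Module.End K E := b.restrict hbE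
  have ha' : Function.Injective a' := by
    intro u v h
    exact Subtype.ext (ha (congrArg Subtype.val h))
  have hb' : Function.Injective b' := by
    intro u v h
    exact Subtype.ext (hb (congrArg Subtype.val h))
  have hrel' : a' * b' = μ • (b' * a') := by
    apply LinearMap.ext
    intro v
    apply Subtype.ext
    show a (b v) = μ • b (a v)
    rw [hrel]
    exact Module.End.mem_eigenspace_iff.mp (hbE _ (haE _ v.2))
  have hdet := congrArg LinearMap.det hrel'
  rw [LinearMap.det_smul, map_mul, map_mul] at hdet
  have hua : LinearMap.det a' ≠ 0 := by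
    have : IsUnit a' := (LinearMap.isUnit_iff_ker_eq_bot _).mpr (LinearMap.ker_eq_bot.mpr ha')
    exact (LinearMap.isUnit_det a' this).ne_zero
  have hub : LinearMap.det b' ≠ 0 := by
    have : IsUnit b' := (LinearMap.isUnit_iff_ker_eq_bot _).mpr (LinearMap.ker_eq_bot.mpr hb')
    exact (LinearMap.isUnit_det b' this).ne_zero
  have h1 : μ ^ Module.finrank K E = 1 := by
    have h2 : μ ^ Module.finrank K E * (LinearMap.det b' * LinearMap.det a') =
        1 * (LinearMap.det b' * LinearMap.det a') := by
      rw [← hdet]; ring
    exact mul_right_cancel₀ (mul_ne_zero hub hua) h2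
  have h2 : Module.finrank K E ∣ m.factorial := by
    apply Nat.dvd_factorial
    · have : Nontrivial E := Submodule.nontrivial_iff_ne_bot.mpr hμ
      exact Module.finrank_pos
    · exact (Submodule.finrank_le E).trans hm
  obtain ⟨c, hc⟩ := h2
  rw [hc, pow_mul, h1, one_pow]

/-- the order of a central commutator in characteristic `p` -/
lemma comm_order [IsAlgClosed K] (p : ℕ) [hp : Fact p.Prime] [CharP K p]
    (a b z : Module.End K V) (ha : Function.Injective a) (hb : Function.Injective b)
    (hza : ∀ v, z (a v) = a (z v)) (hzb : ∀ v, z (b v) = b (z v))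
    (hrel : ∀ v, a (b v) = z (b (a v))) {m : ℕ}
    (hm : Module.finrank K V ≤ m) : z ^ (m.factorial * p ^ m) = 1 := by
  let q : K[X] := X ^ m.factorial - 1
  have h1 : aeval z (q ^ Module.finrank K V) = 0 := by
    have h2 : ∀ v ∈ (⨆ μ, Module.End.maxGenEigenspace z μ : Submodule K V),
        aeval z (q ^ Module.finrank K V) v = 0 := by
      intro v hv
      induction hv using Submodule.iSup_induction' with
      | mem μ v hv =>
        rw [Module.End.maxGenEigenspace_eq_genEigenspace_finrank,
          Module.End.mem_genEigenspace_nat, LinearMap.mem_ker] at hv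
        by_cases hμ : z.HasEigenvalue μ
        · have h3 := eig_root a b z ha hb hza hzb hrel hμ hm
          have h4 : (X - C μ) ∣ q := by
            rw [Polynomial.dvd_iff_isRoot, Polynomial.IsRoot.def]
            simp [q, h3]
          obtain ⟨g, hg⟩ := h4
          have h5 : q ^ Module.finrank K V = g ^ Module.finrank K V *
              (X - C μ) ^ Module.finrank K V := by rw [hg, mul_pow, mul_comm]
          rw [h5, map_mul, Module.End.mul_apply, map_pow (aeval z) (X - C μ), map_sub, aeval_X,
            aeval_C]
          have h6 : algebraMap K (Module.End K V) μ = μ • 1 := Algebra.algebraMap_eq_smul_one μ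
          rw [h6, hv, map_zero]
        · have h3 : v = 0 := by
            by_contra hv0
            apply hμ
            apply Module.End.hasEigenvalue_of_hasGenEigenvalue (k := Module.finrank K V)
            intro hbot
            have h4 : v ∈ (Module.End.genEigenspace z μ) (Module.finrank K V) := by
              rw [Module.End.mem_genEigenspace_nat, LinearMap.mem_ker]; exact hv
            rw [hbot] at h4
            exact hv0 h4
          rw [h3, map_zero]
      | zero => rw [map_zero]
      | add u v _ _ h3 h4 => rw [map_add, h3, h4, add_zero]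
    apply LinearMap.ext
    intro v
    exact h2 v (by rw [Module.End.iSup_maxGenEigenspace_eq_top]; trivial)
  have h2 : Module.finrank K V ≤ p ^ m :=
    hm.trans (Nat.lt_pow_self hp.out.one_lt).le
  have h3 : aeval z (q ^ (p ^ m)) = 0 := by
    obtain ⟨c, hc⟩ := Nat.exists_eq_add_of_le h2
    rw [hc, pow_add, map_mul, h1, zero_mul]
  have h4 : q ^ (p ^ m) = X ^ (m.factorial * p ^ m) - 1 := by
    rw [sub_pow_char_pow, one_pow, pow_mul]
  rw [h4, map_sub, map_pow, aeval_X, map_one] at h3
  exact sub_eq_zero.mp h3

end

/-- **Elementary matrices have bounded order in representations in characteristic `p`.** -/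
theorem tv_order {ι : Type} [Fintype ι] [DecidableEq ι] (h3 : 3 ≤ Fintype.card ι)
    {k V : Type*} [Field k] (p : ℕ) [hp : Fact p.Prime] [CharP k p] [AddCommGroup V] [Module k V]
    [FiniteDimensional k V] {m : ℕ} (hm : Module.finrank k V ≤ m)
    (f : SpecialLinearGroup ι ℤ →* (Module.End k V)ˣ) {i j : ι} (hij : i ≠ j) :
    f (transvection hij ((m.factorial * p ^ m : ℕ) : ℤ)) = 1 := by
  let K := AlgebraicClosure k
  have hcK : CharP K p := charP_of_injective_algebraMap (algebraMap k K).injective p
  have hmul : ∀ g g' : SpecialLinearGroup ι ℤ, ∀ v,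
      LinearMap.baseChange K ((f (g * g') : (Module.End k V)ˣ) : Module.End k V) v =
        LinearMap.baseChange K ((f g : (Module.End k V)ˣ) : Module.End k V)
          (LinearMap.baseChange K ((f g' : (Module.End k V)ˣ) : Module.End k V) v) := by
    intro g g' v
    rw [map_mul, Units.val_mul]
    have := LinearMap.baseChange_comp (A := K) ((f g' : (Module.End k V)ˣ) : Module.End k V)
      ((f g : (Module.End k V)ˣ) : Module.End k V)
    exact LinearMap.congr_fun this v
  have hinj : ∀ g : SpecialLinearGroup ι ℤ, Function.Injective
      (LinearMap.baseChange K ((f g : (Module.End k V)ˣ) : Module.End k V)) := by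
    intro g u v huv
    have h1 := congrArg (LinearMap.baseChange K ((f g⁻¹ : (Module.End k V)ˣ) : Module.End k V)) huv
    rw [← hmul, ← hmul, inv_mul_cancel, map_one, Units.val_one] at h1
    have : LinearMap.baseChange K (1 : Module.End k V) = 1 := LinearMap.baseChange_one k V
    rw [this] at h1
    exact h1
  obtain ⟨c, hci, hcj⟩ := third h3 i j
  have h1 := comm_order p
    (LinearMap.baseChange K ((f (el i c) : (Module.End k V)ˣ) : Module.End k V))
    (LinearMap.baseChange K ((f (el c j) : (Module.End k V)ˣ) : Module.End k V))
    (LinearMap.baseChange K ((f (el i j) : (Module.End k V)ˣ) : Module.End k V))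
    (hinj _) (hinj _)
    (fun v => by rw [← hmul, ← hmul, el_comm hij (Ne.symm hci) (Ne.symm hij) (Ne.symm hci)])
    (fun v => by rw [← hmul, ← hmul, el_comm hij hcj (Ne.symm hcj) hij])
    (fun v => by rw [← hmul, ← hmul, ← hmul, el_rel (Ne.symm hci) hcj hij, mul_assoc])
    (m := m) (by rw [Module.finrank_baseChange]; exact hm)
  have h2 : ∀ (M : ℕ) (v : V),
      ((LinearMap.baseChange K ((f (el i j) : (Module.End k V)ˣ) : Module.End k V)) ^ M) (1 ⊗ₜ v) =
        1 ⊗ₜ (((f (el i j) : (Module.End k V)ˣ) : Module.End k V) ^ M) v := by
    intro M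
    induction M with
    | zero => intro v; rfl
    | succ M ih =>
      intro v
      rw [pow_succ, pow_succ, Module.End.mul_apply, Module.End.mul_apply,
        LinearMap.baseChange_tmul, ih]
  have h3' : (f (el i j)) ^ (m.factorial * p ^ m) = 1 := by
    apply Units.ext
    rw [Units.val_pow_eq_pow_val]
    ext v
    have h4 := h2 (m.factorial * p ^ m) v
    rw [h1] at h4
    exact (Module.FaithfullyFlat.tensorProduct_mk_injective (A := k) (B := K) V h4).symm
  have h4 : ∀ M : ℕ, transvection hij (M : ℤ) = (el i j) ^ M := by
    intro M
    rw [el, dif_pos hij]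
    induction M with
    | zero => rw [Nat.cast_zero, transvection_coeff_zero, pow_zero]
    | succ M ih => rw [Nat.cast_succ, transvection_add, ih, pow_succ]
  rw [h4, map_pow, h3']

end Pool.Agent.X277.SR
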