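import Mathlib

set_option autoImplicit false
set_option linter.unusedSectionVars false

/-! The ring of the universal representation and a finiteness lemma. -/

namespace Pool.Agent.X277.SR

universe v

/-- the universal representation of degree `m` of a finitely generated group -/
theorem exists_universal {Λ : Type} [Group Λ] [Group.FG Λ] (m : ℕ) :
    ∃ (A : Type) (_ : CommRing A) (_ : Algebra.FiniteType ℤ A)
      (U : Λ →* Matrix (Fin m) (Fin m) A),
      ∀ (K : Type v) [Field K] (ρ : Λ →* Matrix.GeneralLinearGroup (Fin m) K),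
        ∃ θ : A →+* K, ∀ l i j, θ (U l i j) = (ρ l).1 i j := by
  classical
  obtain ⟨S, hS⟩ : (⊤ : Submonoid Λ).FG := (Monoid.fg_def.mp (Group.fg_iff_monoid_fg.mp inferInstance))
  let B := MvPolynomial (S × Fin m × Fin m) ℤ
  let XB : FreeMonoid S →* Matrix (Fin m) (Fin m) B :=
    FreeMonoid.lift (fun s => Matrix.of fun i j => MvPolynomial.X (s, i, j))
  let π : FreeMonoid S →* Λ := FreeMonoid.lift (fun s => (s : Λ))
  have hπ : Function.Surjective π := by
    rw [← MonoidHom.mrange_eq_top, FreeMonoid.mrange_lift]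
    rw [Subtype.range_coe_subtype]
    exact hS
  let I : Ideal B := Ideal.span {b | ∃ (w w' : FreeMonoid S) (i j : Fin m), π w = π w' ∧
    b = XB w i j - XB w' i j}
  let XA : FreeMonoid S →* Matrix (Fin m) (Fin m) (B ⧸ I) :=
    ((Ideal.Quotient.mk I).mapMatrix : Matrix (Fin m) (Fin m) B →+* _).toMonoidHom.comp XB
  have hXA : ∀ w w', π w = π w' → XA w = XA w' := by
    intro w w' h
    ext i j
    show Ideal.Quotient.mk I (XB w i j) = Ideal.Quotient.mk I (XB w' i j)
    rw [Ideal.Quotient.mk_eq_mk_iff_sub_mem]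
    exact Ideal.subset_span ⟨w, w', i, j, h, rfl⟩
  let wd : Λ → FreeMonoid S := Function.surjInv hπ
  have hwd : ∀ l, π (wd l) = l := Function.surjInv_eq hπ
  have hft : Algebra.FiniteType ℤ (B ⧸ I) :=
    Algebra.FiniteType.of_surjective (Ideal.Quotient.mkₐ ℤ I) Ideal.Quotient.mk_surjective
  refine ⟨B ⧸ I, inferInstance, hft,
    { toFun := fun l => XA (wd l)
      map_one' := by
        rw [hXA (wd 1) 1 (by rw [hwd, map_one]), map_one]
      map_mul' := by
        intro a b
        rw [hXA (wd (a * b)) (wd a * wd b) (by rw [hwd, map_mul, hwd, hwd]), map_mul] }, ?_⟩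
  intro K _ ρ
  let θB : B →+* K := MvPolynomial.eval₂Hom (Int.castRingHom K)
    (fun s => (ρ s.1.1).1 s.2.1 s.2.2)
  have h1 : ∀ w, θB.mapMatrix (XB w) = (ρ (π w)).1 := by
    have h2 : ((θB.mapMatrix : Matrix (Fin m) (Fin m) B →+* _).toMonoidHom.comp XB) =
        ((Units.coeHom (Matrix (Fin m) (Fin m) K)).comp (ρ.comp π)) := by
      apply FreeMonoid.hom_eq
      intro s
      ext i j
      show θB (XB (FreeMonoid.of s) i j) = (ρ (π (FreeMonoid.of s))).1 i j
      rw [FreeMonoid.lift_eval_of, FreeMonoid.lift_eval_of]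
      show θB (MvPolynomial.X (s, i, j)) = _
      exact MvPolynomial.eval₂Hom_X' _ _ _
    intro w
    exact DFunLike.congr_fun h2 w
  have h3 : ∀ b ∈ I, θB b = 0 := by
    intro b hb
    have h4 : I ≤ RingHom.ker θB := by
      apply Ideal.span_le.mpr
      rintro _ ⟨w, w', i, j, hww, rfl⟩
      rw [SetLike.mem_coe, RingHom.mem_ker, map_sub]
      have h5 := congrFun (congrFun (h1 w) i) j
      have h6 := congrFun (congrFun (h1 w') i) j
      have h7 : θB (XB w i j) = (ρ (π w)).1 i j := h5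
      have h8 : θB (XB w' i j) = (ρ (π w')).1 i j := h6
      rw [h7, h8, hww, sub_self]
    exact h4 hb
  refine ⟨Ideal.Quotient.lift I θB h3, ?_⟩
  intro l i j
  show Ideal.Quotient.lift I θB h3 (Ideal.Quotient.mk I (XB (wd l) i j)) = _
  rw [Ideal.Quotient.lift_mk]
  have h5 := congrFun (congrFun (h1 (wd l)) i) j
  rw [hwd] at h5
  exact h5

/-- algebraic elements of a finitely generated algebra which is a domain: finite dimension -/
theorem finite_alg {L : Type v} [Field L] [CharZero L] (T : Finset L) (Z : Set L)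
    (hZ : ∀ z ∈ Z, z ∈ Algebra.adjoin ℚ (T : Set L)) (hZ' : ∀ z ∈ Z, IsAlgebraic ℚ z) :
    ∃ Z0 : Finset L, (Z0 : Set L) ⊆ Z ∧ ∀ z ∈ Z, z ∈ Submodule.span ℚ (Z0 : Set L) := by
  classical
  let R' := Algebra.adjoin ℚ (T : Set L)
  have hft : Algebra.FiniteType ℚ R' :=
    (Subalgebra.fg_iff_finiteType _).mp (Subalgebra.fg_adjoin_finset T)
  obtain ⟨M, hM⟩ := Ideal.exists_maximal R'
  letI algF : Algebra ℚ (R' ⧸ M) := Ideal.Quotient.algebra ℚ
  letI fF : Field (R' ⧸ M) := Ideal.Quotient.field M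
  have hft2 : Algebra.FiniteType ℚ (R' ⧸ M) :=
    Algebra.FiniteType.of_surjective (Ideal.Quotient.mkₐ ℚ M) Ideal.Quotient.mk_surjective
  have hfin : Module.Finite ℚ (R' ⧸ M) := finite_of_finite_type_of_isJacobsonRing ℚ (R' ⧸ M)
  let D : Submodule ℚ R' := (Subalgebra.toSubmodule (algebraicClosure ℚ L).toSubalgebra).comap
    R'.val.toLinearMap
  let ψ : D →ₗ[ℚ] (R' ⧸ M) := (Ideal.Quotient.mkₐ ℚ M).toLinearMap.comp D.subtype
  have hψ : Function.Injective ψ := by
    rw [injective_iff_map_eq_zero]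
    intro d hd
    by_contra hd0
    have hdM : (d : R') ∈ M := Ideal.Quotient.eq_zero_iff_mem.mp hd
    have halg : IsAlgebraic ℚ ((d : R') : L) := mem_algebraicClosure_iff.mp d.2
    have hinv := Subalgebra.inv_mem_of_algebraic (A := R') (x := (d : R')) halg
    have hne : ((d : R') : L) ≠ 0 := by
      intro h0
      apply hd0
      apply Subtype.ext
      exact Subtype.ext h0
    apply hM.ne_top
    rw [Ideal.eq_top_iff_one]
    have h1 : (1 : R') = ⟨_, hinv⟩ * (d : R') := by
      apply Subtype.ext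
      show (1 : L) = ((d : R') : L)⁻¹ * ((d : R') : L)
      rw [inv_mul_cancel₀ hne]
    rw [h1]
    exact M.mul_mem_left _ hdM
  have hDfin : Module.Finite ℚ D := Module.Finite.of_injective ψ hψ
  let W : Submodule ℚ L := D.map R'.val.toLinearMap
  have hWfin : Module.Finite ℚ W := inferInstance
  have hZW : ∀ z ∈ Z, z ∈ W := by
    intro z hz
    exact ⟨⟨z, hZ z hz⟩, (mem_algebraicClosure_iff.mpr (hZ' z hz)), rfl⟩
  obtain ⟨b, hbZ, hbs, hbl⟩ := exists_linearIndependent ℚ Z
  have hbfin : b.Finite := by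
    let w : b → W := fun x => ⟨x, hZW _ (hbZ x.2)⟩
    have hw : LinearIndependent ℚ w := by
      apply LinearIndependent.of_comp W.subtype
      exact hbl
    have : Finite b := hw.finite
    exact Set.toFinite b
  refine ⟨hbfin.toFinset, ?_, ?_⟩
  · intro x hx
    exact hbZ (by simpa using hx)
  · intro z hz
    have h1 : z ∈ Submodule.span ℚ Z := Submodule.subset_span hz
    rw [← hbs] at h1
    simpa using h1

/-- clearing denominators -/
lemma clear_den {L : Type v} [Field L] [CharZero L] (Z0 : Set L) {z : L}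
    (hz : z ∈ Submodule.span ℚ Z0) : ∃ N : ℕ, N ≠ 0 ∧ (N : L) * z ∈ AddSubgroup.closure Z0 := by
  induction hz using Submodule.span_induction with
  | mem x hx => exact ⟨1, one_ne_zero, by rw [Nat.cast_one, one_mul]; exact AddSubgroup.subset_closure hx⟩
  | zero => exact ⟨1, one_ne_zero, by rw [mul_zero]; exact zero_mem _⟩
  | add x y _ _ h1 h2 =>
    obtain ⟨N1, hN1, h1⟩ := h1
    obtain ⟨N2, hN2, h2⟩ := h2
    refine ⟨N1 * N2, mul_ne_zero hN1 hN2, ?_⟩
    have e : ((N1 * N2 : ℕ) : L) * (x + y) = N2 • ((N1 : L) * x) + N1 • ((N2 : L) * y) := by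
      rw [nsmul_eq_mul, nsmul_eq_mul]; push_cast; ring
    rw [e]
    exact add_mem (nsmul_mem h1 _) (nsmul_mem h2 _)
  | smul q x _ h1 =>
    obtain ⟨N1, hN1, h1⟩ := h1
    refine ⟨q.den * N1, mul_ne_zero q.den_ne_zero hN1, ?_⟩
    have e : ((q.den * N1 : ℕ) : L) * (q • x) = q.num • ((N1 : L) * x) := by
      rw [Rat.smul_def, zsmul_eq_mul]
      have h2 : (q : L) * (q.den : L) = (q.num : L) := by
        exact_mod_cast congrArg (fun r : ℚ => (r : L)) (Rat.mul_den_eq_num q)
      push_cast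
      linear_combination ((N1 : L) * x) * h2
    rw [e]
    exact zsmul_mem h1 _

end Pool.Agent.X277.SR
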