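import Pool.Agent.X277.SR.Alg
import Pool.Agent.X277.SR.Univ

set_option autoImplicit false
set_option linter.unusedSectionVars false

/-! Groups all of whose finite quotients are quotients of `SL_n(ℤ)`: finitely many characters in
each degree. -/

namespace Pool.Agent.X277.SR

universe v

section
variable {n : ℕ} {Λ : Type} [Group Λ]

/-- the characters which factor through `A / P` -/
def CP {m : ℕ} (K : Type v) [Field K] {A : Type} [CommRing A] (U : Λ →* Matrix (Fin m) (Fin m) A)
    (P : Ideal A) : Set (Λ → K) :=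
  {χ | ∃ (ρ : Λ →* Matrix.GeneralLinearGroup (Fin m) K) (θ : A →+* K),
    (∀ l, χ l = Matrix.trace (ρ l).1) ∧ (∀ l i j, θ (U l i j) = (ρ l).1 i j) ∧
      P ≤ RingHom.ker θ}

lemma CP_trace {m : ℕ} {K : Type v} [Field K] {A : Type} [CommRing A]
    (U : Λ →* Matrix (Fin m) (Fin m) A) (ρ : Λ →* Matrix.GeneralLinearGroup (Fin m) K)
    (θ : A →+* K) (h : ∀ l i j, θ (U l i j) = (ρ l).1 i j) (l : Λ) :
    θ (Matrix.trace (U l)) = Matrix.trace (ρ l).1 := by
  rw [Matrix.trace, Matrix.trace, map_sum]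
  exact Finset.sum_congr rfl (fun i _ => h l i i)

theorem CP_finite [Group.FG Λ] (h : QuotientsOfSL n Λ) (hn : 3 ≤ n) {m : ℕ} {K : Type v} [Field K]
    [CharZero K] {A : Type} [CommRing A] [Algebra.FiniteType ℤ A]
    (U : Λ →* Matrix (Fin m) (Fin m) A) (P : Ideal A) [hP : P.IsPrime] : (CP K U P).Finite := by
  classical
  by_cases hne : (CP K U P).Nonempty
  swap
  · rw [Set.not_nonempty_iff_eq_empty.mp hne]; exact Set.finite_empty
  obtain ⟨χ0, ρ0, θ0, -, -, hPθ0⟩ := hne
  have hR : CharZero (A ⧸ P) :=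
    RingHom.charZero (Ideal.Quotient.lift P θ0 (fun a ha => hPθ0 ha))
  let L := FractionRing (A ⧸ P)
  have hinj : Function.Injective (algebraMap (A ⧸ P) L) := IsFractionRing.injective _ _
  have hL : CharZero L := charZero_of_injective_algebraMap hinj
  let j : A →+* L := (algebraMap (A ⧸ P) L).comp (Ideal.Quotient.mk P)
  let ρL : Λ →* Matrix.GeneralLinearGroup (Fin m) L :=
    ((j.mapMatrix : Matrix (Fin m) (Fin m) A →+* Matrix (Fin m) (Fin m) L).toMonoidHom.comp
      U).toHomUnits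
  have htrL : ∀ l, j (Matrix.trace (U l)) = Matrix.trace (ρL l).1 := fun l =>
    CP_trace U ρL j (fun _ _ _ => rfl) l
  obtain ⟨G, hG⟩ := (Algebra.FiniteType.out : (⊤ : Subalgebra ℤ A).FG)
  let T : Finset L := G.image j
  have hT : ∀ a : A, j a ∈ Algebra.adjoin ℚ (T : Set L) := by
    intro a
    have ha : a ∈ Algebra.adjoin ℤ (G : Set A) := by rw [hG]; trivial
    induction ha using Algebra.adjoin_induction with
    | mem x hx => exact Algebra.subset_adjoin (Finset.mem_coe.mpr (Finset.mem_image_of_mem _ hx))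
    | algebraMap c =>
      have : j (algebraMap ℤ A c) = ((c : ℤ) : L) := by
        rw [show algebraMap ℤ A c = ((c : ℤ) : A) from rfl, map_intCast]
      rw [this]
      exact intCast_mem _ c
    | add x y _ _ h1 h2 => rw [map_add]; exact add_mem h1 h2
    | mul x y _ _ h1 h2 => rw [map_mul]; exact mul_mem h1 h2
  let Z : Set L := Set.range (fun l : Λ => j (Matrix.trace (U l)))
  obtain ⟨Z0, hZ0, hspan⟩ := finite_alg T Z (by rintro _ ⟨l, rfl⟩; exact hT _) (by
    rintro _ ⟨l, rfl⟩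
    have h1 := trace_algebraicQ h hn ρL l
    rw [← htrL l] at h1
    exact h1)
  have hg : ∀ z : Z0, ∃ l : Λ, j (Matrix.trace (U l)) = z := fun z => hZ0 z.2
  choose g hg using hg
  let S0 : Finset Λ := Z0.attach.image g
  let res : (Λ → K) → (S0 → K) := fun χ l => χ l
  apply Set.Finite.of_finite_image (f := res)
  · -- the image is finite
    have hf := fun l : S0 => uniform.{v} h hn m (l : Λ)
    choose f hf0 hf using hf
    have hfin : (Set.pi Set.univ (fun l : S0 => {x : K | Polynomial.aeval x (f l) = 0})).Finite := by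
      apply Set.Finite.pi
      intro l
      refine Set.Finite.subset (Polynomial.rootSet_finite (f l) K) ?_
      intro x hx
      rw [Polynomial.mem_rootSet]
      exact ⟨hf0 l, hx⟩
    refine hfin.subset ?_
    rintro _ ⟨χ, ⟨ρ, θ, h1, -, -⟩, rfl⟩ l -
    show Polynomial.aeval (χ l) (f l) = 0
    rw [h1]
    exact (hf l K ρ).1
  · -- injectivity
    rintro χ1 ⟨ρ1, θ1, h1, h1', h1P⟩ χ2 ⟨ρ2, θ2, h2, h2', h2P⟩ h12
    let e1 : (A ⧸ P) →+* K := Ideal.Quotient.lift P θ1 (fun a ha => h1P ha)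
    let e2 : (A ⧸ P) →+* K := Ideal.Quotient.lift P θ2 (fun a ha => h2P ha)
    have he1 : ∀ l, e1 (Ideal.Quotient.mk P (Matrix.trace (U l))) = χ1 l := by
      intro l
      rw [h1, ← CP_trace U ρ1 θ1 h1' l]
      exact Ideal.Quotient.lift_mk _ _ _
    have he2 : ∀ l, e2 (Ideal.Quotient.mk P (Matrix.trace (U l))) = χ2 l := by
      intro l
      rw [h2, ← CP_trace U ρ2 θ2 h2' l]
      exact Ideal.Quotient.lift_mk _ _ _
    have hcl : AddSubgroup.closure (Z0 : Set L) ≤
        ((RingHom.eqLocus e1 e2).toAddSubgroup).map (algebraMap (A ⧸ P) L).toAddMonoidHom := by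
      rw [AddSubgroup.closure_le]
      intro z hz
      refine ⟨Ideal.Quotient.mk P (Matrix.trace (U (g ⟨z, hz⟩))), ?_, hg ⟨z, hz⟩⟩
      show e1 _ = e2 _
      rw [he1, he2]
      have hmem : g ⟨z, hz⟩ ∈ S0 := Finset.mem_image_of_mem _ (Finset.mem_attach _ _)
      exact congrFun h12 ⟨_, hmem⟩
    funext l
    obtain ⟨N, hN, hNz⟩ := clear_den (Z0 : Set L) (hspan _ ⟨l, rfl⟩)
    obtain ⟨x, hx, hxe⟩ := hcl hNz
    have hx2 : x = (N : A ⧸ P) * Ideal.Quotient.mk P (Matrix.trace (U l)) := by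
      apply hinj
      rw [map_mul, map_natCast]
      exact hxe
    have hx3 : e1 x = e2 x := hx
    rw [hx2, map_mul, map_mul, map_natCast, map_natCast, he1, he2] at hx3
    exact mul_left_cancel₀ (Nat.cast_ne_zero.mpr hN) hx3

/-- **Finitely many characters in each degree.** -/
theorem finite_characters [Group.FG Λ] (h : QuotientsOfSL n Λ) (hn : 3 ≤ n) (m : ℕ) (K : Type v)
    [Field K] [CharZero K] : {χ : Λ → K | ∃ ρ : Λ →* Matrix.GeneralLinearGroup (Fin m) K,
      ∀ l, χ l = Matrix.trace (ρ l).1}.Finite := by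
  obtain ⟨A, iA, iF, U, hU⟩ := exists_universal.{v} (Λ := Λ) m
  have hN : IsNoetherianRing A := Algebra.FiniteType.isNoetherianRing ℤ A
  have hmin : (minimalPrimes A).Finite := minimalPrimes.finite_of_isNoetherianRing A
  refine Set.Finite.subset (hmin.biUnion (t := fun P => CP K U P) (fun P hP => ?_)) ?_
  · have : P.IsPrime := Ideal.minimalPrimes_isPrime hP
    exact CP_finite h hn U P
  · rintro χ ⟨ρ, hρ⟩
    obtain ⟨θ, hθ⟩ := hU K ρ
    have hk : (RingHom.ker θ).IsPrime := RingHom.ker_isPrime θ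
    obtain ⟨P, hP, hPk⟩ := Ideal.exists_minimalPrimes_le (bot_le : (⊥ : Ideal A) ≤ RingHom.ker θ)
    exact Set.mem_biUnion hP ⟨ρ, θ, hρ, hθ, hPk⟩

end

end Pool.Agent.X277.SR
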