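import Pool.Agent.X277.SR.Act

set_option autoImplicit false
set_option linter.unusedSectionVars false

/-! The quotient of `SL_n(ℤ)` by the normal closure of the `N`-th powers of the elementary matrices
is finite, `n ≥ 3`. -/

namespace Pool.Agent.X277.SR

open Matrix (SpecialLinearGroup)
open Matrix.SpecialLinearGroup

section
variable (ι : Type) [Fintype ι] [DecidableEq ι] (N : ℕ)

/-- the normal closure of the `N`-th powers of the elementary matrices -/
def EN : Subgroup (SpecialLinearGroup ι ℤ) :=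
  Subgroup.normalClosure {g | ∃ (i j : ι) (h : i ≠ j), g = transvection h (N : ℤ)}

instance EN_normal : (EN ι N).Normal := Subgroup.normalClosure_normal

/-- the preimage of the center of `SL_n(ℤ) / E(N)` -/
def CN : Subgroup (SpecialLinearGroup ι ℤ) :=
  (Subgroup.center (SpecialLinearGroup ι ℤ ⧸ EN ι N)).comap (QuotientGroup.mk' (EN ι N))

instance CN_normal : (CN ι N).Normal := Subgroup.Normal.comap inferInstance _

variable {ι N}

lemma EN_le : EN ι N ≤ CN ι N := by
  intro g hg
  show QuotientGroup.mk' (EN ι N) g ∈ Subgroup.center _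
  have : QuotientGroup.mk' (EN ι N) g = 1 := (QuotientGroup.eq_one_iff g).mpr hg
  rw [this]
  exact one_mem _

lemma mem_CN {g : SpecialLinearGroup ι ℤ} (h : ∀ i j (hij : i ≠ j),
    ∃ e ∈ EN ι N, g * transvection hij 1 = e * (transvection hij 1 * g)) : g ∈ CN ι N := by
  show QuotientGroup.mk' (EN ι N) g ∈ Subgroup.center _
  have h1 : (Subgroup.centralizer {QuotientGroup.mk' (EN ι N) g}).comap
      (QuotientGroup.mk' (EN ι N)) = ⊤ := by
    apply gen_top
    intro i j hij
    rw [Subgroup.mem_comap, Subgroup.mem_centralizer_singleton_iff]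
    obtain ⟨e, he, heq⟩ := h i j hij
    rw [← map_mul, ← map_mul, heq, map_mul (QuotientGroup.mk' (EN ι N)) e]
    have : QuotientGroup.mk' (EN ι N) e = 1 := (QuotientGroup.eq_one_iff e).mpr he
    rw [this, one_mul]
  rw [Subgroup.mem_center_iff]
  intro x
  obtain ⟨y, rfl⟩ := QuotientGroup.mk'_surjective _ x
  have h2 : y ∈ (Subgroup.centralizer {QuotientGroup.mk' (EN ι N) g}).comap
      (QuotientGroup.mk' (EN ι N)) := by rw [h1]; trivial
  rw [Subgroup.mem_comap, Subgroup.mem_centralizer_singleton_iff] at h2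
  exact h2

lemma tv_mem {i j : ι} (h : i ≠ j) {c : ℤ} (hc : (N : ℤ) ∣ c) : transvection h c ∈ EN ι N := by
  obtain ⟨d, rfl⟩ := hc
  have h1 : transvection h (N : ℤ) ∈ EN ι N := Subgroup.subset_normalClosure ⟨i, j, h, rfl⟩
  induction d using Int.induction_on with
  | zero => rw [mul_zero, transvection_coeff_zero]; exact one_mem _
  | succ c ih => rw [mul_add, mul_one, transvection_add]; exact mul_mem ih h1
  | pred c ih =>
    rw [mul_sub, mul_one, sub_eq_add_neg, transvection_add]
    exact mul_mem ih (by rw [← transvection_inv]; exact inv_mem h1)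

lemma colE {r : ι} (T : Finset ι) (w : ι → ℤ) : r ∉ T → (∀ k ∈ T, (N : ℤ) ∣ w k) →
    ∃ g ∈ EN ι N, ∀ A : SpecialLinearGroup ι ℤ, ∀ i b,
      (g * A).1 i b = A.1 i b + (if i ∈ T then w i else 0) * A.1 r b := by
  induction T using Finset.induction_on with
  | empty => intro _ _; exact ⟨1, one_mem _, fun A i b => by rw [one_mul]; simp⟩
  | insert t T ht ih =>
    intro hr hw
    obtain ⟨g, hg, hgA⟩ := ih (fun h => hr (Finset.mem_insert_of_mem h))
      (fun k hk => hw k (Finset.mem_insert_of_mem hk))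
    have htr : t ≠ r := fun h => hr (h ▸ Finset.mem_insert_self _ _)
    have hrT : r ∉ T := fun h => hr (Finset.mem_insert_of_mem h)
    refine ⟨transvection htr (w t) * g, mul_mem (tv_mem htr (hw t (Finset.mem_insert_self _ _))) hg,
      fun A i b => ?_⟩
    rw [mul_assoc]
    by_cases hit : i = t
    · subst hit
      rw [step_same, hgA, hgA, if_neg ht, if_neg hrT, if_pos (Finset.mem_insert_self _ _)]
      ring
    · rw [step_of_ne htr _ _ hit, hgA]
      congr 2
      by_cases hiT : i ∈ T
      · rw [if_pos hiT, if_pos (Finset.mem_insert_of_mem hiT)]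
      · rw [if_neg hiT, if_neg]
        intro h
        rcases Finset.mem_insert.mp h with h | h
        · exact hit h
        · exact hiT h

lemma rowE {r : ι} (T : Finset ι) (w : ι → ℤ) : r ∉ T → (∀ k ∈ T, (N : ℤ) ∣ w k) →
    ∃ g ∈ EN ι N, ∀ A : SpecialLinearGroup ι ℤ, (∀ i b, i ≠ r → (g * A).1 i b = A.1 i b) ∧
      ∀ b, (g * A).1 r b = A.1 r b + ∑ t ∈ T, w t * A.1 t b := by
  induction T using Finset.induction_on with
  | empty => intro _ _; exact ⟨1, one_mem _, fun A => ⟨fun i b _ => by rw [one_mul],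
      fun b => by rw [one_mul]; simp⟩⟩
  | insert t T ht ih =>
    intro hr hw
    obtain ⟨g, hg, hgA⟩ := ih (fun h => hr (Finset.mem_insert_of_mem h))
      (fun k hk => hw k (Finset.mem_insert_of_mem hk))
    have htr : t ≠ r := fun h => hr (h ▸ Finset.mem_insert_self _ _)
    refine ⟨transvection (Ne.symm htr) (w t) * g,
      mul_mem (tv_mem (Ne.symm htr) (hw t (Finset.mem_insert_self _ _))) hg, fun A => ⟨?_, ?_⟩⟩
    · intro i b hi
      rw [mul_assoc, step_of_ne (Ne.symm htr) _ _ hi, (hgA A).1 i b hi]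
    · intro b
      rw [mul_assoc, step_same, (hgA A).2 b, (hgA A).1 t b htr, Finset.sum_insert ht]
      ring

/-- congruent to the identity modulo `N` -/
def Cong (N : ℕ) (A : SpecialLinearGroup ι ℤ) : Prop :=
  ∀ i j, (N : ℤ) ∣ A.1 i j - (if i = j then 1 else 0)

lemma cong_iff (A : SpecialLinearGroup ι ℤ) :
    Cong N A ↔ A ∈ (Matrix.SpecialLinearGroup.map (n := ι) (Int.castRingHom (ZMod N))).ker := by
  rw [MonoidHom.mem_ker]
  constructor
  · intro h
    apply Subtype.ext
    ext i j
    have h1 := (ZMod.intCast_zmod_eq_zero_iff_dvd _ N).mpr (h i j)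
    rw [Int.cast_sub, sub_eq_zero] at h1
    show ((A.1 i j : ℤ) : ZMod N) = (1 : Matrix ι ι (ZMod N)) i j
    rw [h1, Matrix.one_apply]
    split_ifs <;> simp
  · intro h i j
    have h1 : ((A.1 i j : ℤ) : ZMod N) = (1 : Matrix ι ι (ZMod N)) i j :=
      congrFun (congrFun (congrArg Subtype.val h) i) j
    rw [← ZMod.intCast_zmod_eq_zero_iff_dvd, Int.cast_sub, h1, Matrix.one_apply]
    split_ifs <;> simp

lemma Cong.conj {A : SpecialLinearGroup ι ℤ} (hA : Cong N A) (g : SpecialLinearGroup ι ℤ) :
    Cong N (g * A * g⁻¹) := by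
  rw [cong_iff] at hA ⊢
  exact Subgroup.Normal.conj_mem inferInstance A hA g

lemma Cong.inv {A : SpecialLinearGroup ι ℤ} (hA : Cong N A) : Cong N A⁻¹ := by
  rw [cong_iff] at hA ⊢
  exact inv_mem hA

lemma EN_cong {g : SpecialLinearGroup ι ℤ} (hg : g ∈ EN ι N) : Cong N g := by
  rw [cong_iff]
  have : EN ι N ≤ (Matrix.SpecialLinearGroup.map (n := ι) (Int.castRingHom (ZMod N))).ker := by
    apply Subgroup.normalClosure_le_normal
    rintro _ ⟨i, j, hij, rfl⟩
    rw [SetLike.mem_coe, ← cong_iff]
    intro a b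
    have : (transvection hij (N : ℤ)).1 a b = (1 : Matrix ι ι ℤ) a b +
        Matrix.single i j (N : ℤ) a b := rfl
    rw [this, Matrix.one_apply, add_sub_cancel_left, Matrix.single_apply]
    split_ifs
    · exact dvd_refl _
    · exact dvd_zero _
  exact this hg

lemma Cong.mul_left {A g : SpecialLinearGroup ι ℤ} (hA : Cong N A) (hg : g ∈ EN ι N) :
    Cong N (g * A) := by
  have h1 := EN_cong hg
  rw [cong_iff] at hA h1 ⊢
  exact mul_mem h1 hA

lemma inv_col {A : SpecialLinearGroup ι ℤ} {r : ι} (h : ∀ k, A.1 k r = if k = r then 1 else 0) :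
    ∀ k, (A⁻¹).1 k r = if k = r then 1 else 0 := by
  intro k
  have h1 : (A⁻¹ * A).1 k r = if k = r then 1 else 0 := by
    rw [inv_mul_cancel]; exact Matrix.one_apply
  have h2 : (A⁻¹ * A).1 k r = ∑ l, (A⁻¹).1 k l * A.1 l r := Matrix.mul_apply
  rw [h2, Finset.sum_eq_single r] at h1
  · rwa [h r, if_pos rfl, mul_one] at h1
  · intro l _ hl
    rw [h l, if_neg hl, mul_zero]
  · intro h; exact absurd (Finset.mem_univ _) h

lemma mul_tv {i j : ι} (h : i ≠ j) (c : ℤ) (A : SpecialLinearGroup ι ℤ) (a b : ι) :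
    (A * transvection h c).1 a b = A.1 a b + (if b = j then c * A.1 a i else 0) := by
  have h1 : (A * transvection h c).1 = A.1 * Matrix.transvection i j c := rfl
  rw [h1]
  by_cases hb : b = j
  · subst hb
    rw [if_pos rfl]
    exact Matrix.mul_transvection_apply_same i b a c A.1
  · rw [if_neg hb, add_zero]
    exact Matrix.mul_transvection_apply_of_ne i j a b hb c A.1

/-- block matrices are central modulo `E(N)` -/
lemma block_mem {r : ι} {B : SpecialLinearGroup ι ℤ} (hB : Cong N B)
    (hc : ∀ k, B.1 k r = if k = r then 1 else 0) (hr : ∀ k, B.1 r k = if r = k then 1 else 0) :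
    B ∈ CN ι N := by
  have c1 : ∀ i (hir : i ≠ r), ∃ e ∈ EN ι N,
      B * transvection hir 1 = e * (transvection hir 1 * B) := by
    intro i hir
    obtain ⟨g, hg, hgA⟩ := colE (N := N) (r := r) (Finset.univ.erase r)
      (fun k => B.1 k i - if k = i then 1 else 0) (Finset.notMem_erase _ _)
      (fun k _ => hB k i)
    refine ⟨g, hg, ?_⟩
    apply Subtype.ext
    ext a b
    rw [hgA, mul_tv, step_of_ne hir 1 B (Ne.symm hir)]
    by_cases hai : a = i
    · subst hai
      rw [step_same, if_pos (Finset.mem_erase.mpr ⟨hir, Finset.mem_univ _⟩), if_pos rfl, hr b]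
      by_cases hbr : b = r
      · subst hbr; rw [if_pos rfl, if_pos rfl]; ring
      · rw [if_neg hbr, if_neg (Ne.symm hbr)]; ring
    · rw [step_of_ne hir 1 B hai, hr b]
      by_cases har : a = r
      · subst har
        rw [if_neg (Finset.notMem_erase _ _), hr i, if_neg (Ne.symm hir)]
        split_ifs <;> ring
      · rw [if_pos (Finset.mem_erase.mpr ⟨har, Finset.mem_univ _⟩), if_neg hai]
        by_cases hbr : b = r
        · subst hbr; rw [if_pos rfl, if_pos rfl]; ring
        · rw [if_neg hbr, if_neg (Ne.symm hbr)]; ring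
  have c2 : ∀ i (hri : r ≠ i), ∃ e ∈ EN ι N,
      B * transvection hri 1 = e * (transvection hri 1 * B) := by
    intro i hri
    obtain ⟨g, hg, hgA⟩ := rowE (N := N) (r := r) (Finset.univ.erase r)
      (fun k => (B⁻¹).1 i k - if i = k then 1 else 0) (Finset.notMem_erase _ _)
      (fun k _ => hB.inv i k)
    refine ⟨g, hg, ?_⟩
    apply Subtype.ext
    ext a b
    by_cases har : a = r
    · subst har
      have e2 : ∀ t ∈ Finset.univ.erase a, ((B⁻¹).1 i t - if i = t then 1 else 0) *
          (transvection hri 1 * B).1 t b = (B⁻¹).1 i t * B.1 t b -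
            (if i = t then 1 else 0) * B.1 t b := by
        intro t ht
        rw [step_of_ne hri 1 B (Finset.ne_of_mem_erase ht)]
        ring
      rw [(hgA _).2 b, Finset.sum_congr rfl e2, step_same, mul_tv, Finset.sum_sub_distrib]
      have e3 : ∑ t ∈ Finset.univ.erase a, (B⁻¹).1 i t * B.1 t b = if i = b then 1 else 0 := by
        have h1 : (B⁻¹ * B).1 i b = if i = b then 1 else 0 := by
          rw [inv_mul_cancel]; exact Matrix.one_apply
        have h2 : (B⁻¹ * B).1 i b = ∑ l, (B⁻¹).1 i l * B.1 l b := Matrix.mul_apply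
        rw [← h1, h2, ← Finset.sum_erase_add _ _ (Finset.mem_univ a), inv_col hc i,
          if_neg (Ne.symm hri), zero_mul, add_zero]
      have e4 : ∑ t ∈ Finset.univ.erase a, (if i = t then 1 else 0) * B.1 t b = B.1 i b := by
        rw [Finset.sum_eq_single i]
        · rw [if_pos rfl, one_mul]
        · intro t _ ht
          rw [if_neg (Ne.symm ht), zero_mul]
        · intro h; exact absurd (Finset.mem_erase.mpr ⟨Ne.symm hri, Finset.mem_univ _⟩) h
      rw [e3, e4, hc a, if_pos rfl]
      by_cases hbi : b = i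
      · subst hbi; rw [if_pos rfl, if_pos rfl]; ring
      · rw [if_neg hbi, if_neg (Ne.symm hbi)]; ring
    · rw [(hgA _).1 a b har, step_of_ne hri 1 B har, mul_tv, hc a, if_neg har]
      simp
  -- all elementary matrices
  show QuotientGroup.mk' (EN ι N) B ∈ Subgroup.center _
  let π := QuotientGroup.mk' (EN ι N)
  have hπ : ∀ i j (hij : i ≠ j), (∃ e ∈ EN ι N,
      B * transvection hij 1 = e * (transvection hij 1 * B)) →
      transvection hij (1 : ℤ) ∈ (Subgroup.centralizer {π B}).comap π := by
    rintro i j hij ⟨e, he, heq⟩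
    rw [Subgroup.mem_comap, Subgroup.mem_centralizer_singleton_iff, ← map_mul, ← map_mul, heq,
      map_mul π e]
    have : π e = 1 := (QuotientGroup.eq_one_iff e).mpr he
    rw [this, one_mul]
  have h1 : (Subgroup.centralizer {π B}).comap π = ⊤ := by
    apply gen_top
    intro i j hij
    by_cases hjr : j = r
    · subst hjr; exact hπ _ _ hij (c1 i hij)
    by_cases hir : i = r
    · subst hir; exact hπ _ _ hij (c2 j hij)
    have e1 := hπ _ _ hir (c1 i hir)
    have e2 := hπ _ _ (Ne.symm hjr) (c2 j (Ne.symm hjr))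
    have e3 := el_rel hir (Ne.symm hjr) hij
    rw [el, el, el, dif_pos hir, dif_pos (Ne.symm hjr), dif_pos hij] at e3
    have e4 : transvection hij (1 : ℤ) = transvection hir 1 * transvection (Ne.symm hjr) 1 *
        (transvection (Ne.symm hjr) 1 * transvection hir 1)⁻¹ := by
      rw [e3, mul_inv_cancel_right]
    rw [e4]
    exact mul_mem (mul_mem e1 e2) (inv_mem (mul_mem e2 e1))
  rw [Subgroup.mem_center_iff]
  intro x
  obtain ⟨y, rfl⟩ := QuotientGroup.mk'_surjective _ x
  have h2 : y ∈ (Subgroup.centralizer {π B}).comap π := by rw [h1]; trivial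
  rw [Subgroup.mem_comap, Subgroup.mem_centralizer_singleton_iff] at h2
  exact h2

end

end Pool.Agent.X277.SR
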