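import Pool.Agent.X277.SR.Fin

set_option autoImplicit false
set_option linter.unusedSectionVars false

/-! Finiteness of `SL_n(ℤ) / E(N)`. -/

namespace Pool.Agent.X277.SR

open Matrix (SpecialLinearGroup)
open Matrix.SpecialLinearGroup
open scoped commutatorElement

section
variable {ι : Type} [Fintype ι] [DecidableEq ι] {N : ℕ}

lemma bezout_col (A : SpecialLinearGroup ι ℤ) (r : ι) : ∑ l, (A⁻¹).1 r l * A.1 l r = 1 := by
  have h1 : (A⁻¹ * A).1 r r = 1 := by
    rw [inv_mul_cancel]; exact Matrix.one_apply_eq r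
  have h2 : (A⁻¹ * A).1 r r = ∑ l, (A⁻¹).1 r l * A.1 l r := Matrix.mul_apply
  rw [← h2, h1]

/-- matrices congruent to the identity are central modulo `E(N)` -/
theorem cong_mem (h3 : 3 ≤ Fintype.card ι) (hN : 0 < N) {A0 : SpecialLinearGroup ι ℤ}
    (hA0 : Cong N A0) : A0 ∈ CN ι N := by
  classical
  have hne : Nonempty ι := Fintype.card_pos_iff.mp (by omega)
  obtain ⟨r⟩ := hne
  obtain ⟨a, har, -⟩ := third h3 r r
  obtain ⟨b, hbr, hba⟩ := third h3 r a
  let P : SpecialLinearGroup ι ℤ → Prop := fun A => Cong N A ∧ (A ∈ CN ι N → A0 ∈ CN ι N)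
  have m1 : ∀ A, P A → ∀ i j, i ≠ j → j ≠ r → ∀ c : ℤ, ∃ B, P B ∧
      ∀ k, B.1 k r = if k = i then A.1 i r + c * A.1 j r else A.1 k r := by
    intro A hA i j hij hjr c
    refine ⟨transvection hij c * A * (transvection hij c)⁻¹, ⟨hA.1.conj _, fun h => hA.2 ?_⟩, ?_⟩
    · have := (CN_normal ι N).conj_mem _ h (transvection hij c)⁻¹
      have e : (transvection hij c)⁻¹ * (transvection hij c * A * (transvection hij c)⁻¹) *
          (transvection hij c)⁻¹⁻¹ = A := by group
      rwa [e] at this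
    · intro k
      rw [transvection_inv, mul_tv, if_neg (Ne.symm hjr), add_zero]
      by_cases hki : k = i
      · subst hki; rw [if_pos rfl, step_same]
      · rw [if_neg hki, step_of_ne hij c A hki]
  have m2 : ∀ A, P A → ∀ i, i ≠ r → ∃ B, P B ∧
      ∀ k, B.1 k r = if k = i then A.1 i r + N * A.1 r r else A.1 k r := by
    intro A hA i hir
    have hmem : transvection hir (N : ℤ) ∈ EN ι N := tv_mem hir (dvd_refl _)
    refine ⟨transvection hir (N : ℤ) * A, ⟨hA.1.mul_left hmem, fun h => hA.2 ?_⟩, ?_⟩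
    · have := mul_mem (inv_mem (EN_le hmem)) h
      rwa [inv_mul_cancel_left] at this
    · intro k
      by_cases hki : k = i
      · subst hki; rw [if_pos rfl, step_same]
      · rw [if_neg hki, step_of_ne hir _ A hki]
  have hP0 : P A0 := ⟨hA0, id⟩
  have hex : ∃ m : ℕ, 0 < m ∧ ∃ A, P A ∧ (A.1 a r).natAbs = m := by
    by_contra hcon
    have hz : ∀ A, P A → A.1 a r = 0 := by
      intro A hA
      by_contra h0
      exact hcon ⟨_, Int.natAbs_pos.mpr h0, A, hA, rfl⟩
    have h0 : ∀ k, A0.1 k r = 0 := by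
      intro k
      by_cases hkr : k = r
      · subst hkr
        obtain ⟨B, hB, hBk⟩ := m2 A0 hP0 a har
        have h1 := hBk a
        rw [hz B hB, if_pos rfl, hz A0 hP0, zero_add] at h1
        rcases mul_eq_zero.mp h1.symm with h2 | h2
        · exfalso; omega
        · exact h2
      by_cases hka : k = a
      · subst hka; exact hz A0 hP0
      obtain ⟨B, hB, hBk⟩ := m1 A0 hP0 a k (Ne.symm hka) hkr 1
      have h1 := hBk a
      rw [hz B hB, if_pos rfl, hz A0 hP0, zero_add, one_mul] at h1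
      exact h1.symm
    have h1 := bezout_col A0 r
    rw [Finset.sum_eq_zero (fun l _ => by rw [h0 l, mul_zero])] at h1
    exact zero_ne_one h1
  obtain ⟨hm0, A1, hA1, hA1m⟩ := Nat.find_spec hex
  have hmin : ∀ A, P A → A.1 a r ≠ 0 → Nat.find hex ≤ (A.1 a r).natAbs := by
    intro A hA h0
    exact Nat.find_min' hex ⟨Int.natAbs_pos.mpr h0, A, hA, rfl⟩
  have hα : ∀ A, P A → (A.1 a r).natAbs = Nat.find hex → ∀ k, k ≠ r → A.1 a r ∣ A.1 k r := by
    intro A hA hAm k hkr
    by_cases hka : k = a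
    · subst hka; exact dvd_refl _
    have hA0' : A.1 a r ≠ 0 := by
      intro h0; rw [h0] at hAm; simp at hAm; omega
    obtain ⟨B, hB, hBk⟩ := m1 A hA k a hka har (-(A.1 k r / A.1 a r))
    have e1 : B.1 k r = A.1 k r % A.1 a r := by
      rw [hBk k, if_pos rfl, Int.emod_def]; ring
    have e2 : B.1 a r = A.1 a r := by rw [hBk a, if_neg (Ne.symm hka)]
    have e3 := Int.emod_nonneg (A.1 k r) hA0'
    have e4 := Int.emod_lt_abs (A.1 k r) hA0'
    rw [Int.abs_eq_natAbs, hAm] at e4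
    by_cases hs : B.1 k r = 0
    · rw [e1] at hs
      exact Int.dvd_of_emod_eq_zero hs
    exfalso
    obtain ⟨B2, hB2, hB2k⟩ := m1 B hB a k (Ne.symm hka) hkr (-(B.1 a r / B.1 k r))
    have f1 : B2.1 a r = B.1 a r % B.1 k r := by
      rw [hB2k a, if_pos rfl, Int.emod_def]; ring
    have f2 : B2.1 k r = B.1 k r := by rw [hB2k k, if_neg hka]
    have f3 := Int.emod_nonneg (B.1 a r) hs
    have f4 := Int.emod_lt_abs (B.1 a r) hs
    rw [e1] at f4 hs f1 f2 f3
    rw [abs_of_nonneg e3] at f4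
    by_cases hs2 : B2.1 a r = 0
    · obtain ⟨B3, hB3, hB3k⟩ := m1 B2 hB2 a k (Ne.symm hka) hkr 1
      have g1 : B3.1 a r = A.1 k r % A.1 a r := by
        rw [hB3k a, if_pos rfl, hs2, f2]; ring
      have g2 := hmin B3 hB3 (by rw [g1]; exact hs)
      rw [g1] at g2
      omega
    · have g2 := hmin B2 hB2 hs2
      rw [f1] at g2
      omega
  have hd1 := hα A1 hA1 hA1m
  have hdN : A1.1 a r ∣ (N : ℤ) := by
    have hNr : A1.1 a r ∣ N * A1.1 r r := by
      obtain ⟨B, hB, hBk⟩ := m2 A1 hA1 b hbr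
      have e1 : B.1 a r = A1.1 a r := by rw [hBk a, if_neg (Ne.symm hba)]
      have e2 := hα B hB (by rw [e1, hA1m]) b hbr
      rw [e1, hBk b, if_pos rfl] at e2
      exact (dvd_add_right (hd1 b hbr)).mp e2
    have h1 : (N : ℤ) = ∑ l, (A1⁻¹).1 r l * (N * A1.1 l r) := by
      calc (N : ℤ) = N * ∑ l, (A1⁻¹).1 r l * A1.1 l r := by rw [bezout_col A1 r, mul_one]
        _ = ∑ l, (A1⁻¹).1 r l * (N * A1.1 l r) := by
          rw [Finset.mul_sum]
          exact Finset.sum_congr rfl (fun l _ => by ring)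
    rw [h1]
    refine Finset.dvd_sum (fun l _ => ?_)
    by_cases hlr : l = r
    · subst hlr; exact Dvd.dvd.mul_left hNr _
    · exact Dvd.dvd.mul_left (Dvd.dvd.mul_left (hd1 l hlr) _) _
  obtain ⟨e, he⟩ := hdN
  obtain ⟨u, hu⟩ := hA1.1 r r
  rw [if_pos rfl] at hu
  obtain ⟨A4, hA4, hA4k⟩ := m1 A1 hA1 r a (Ne.symm har) har (-(u * e))
  have hA4r : A4.1 r r = 1 := by
    rw [hA4k r, if_pos rfl]
    linear_combination hu + u * he
  obtain ⟨g5, hg5, hg5A⟩ := colE (N := N) (r := r) (Finset.univ.erase r) (fun k => -A4.1 k r)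
    (Finset.notMem_erase _ _) (fun k hk => by
      have := hA4.1 k r
      rw [if_neg (Finset.ne_of_mem_erase hk), sub_zero] at this
      exact (dvd_neg).mpr this)
  have h5 : ∀ k, (g5 * A4).1 k r = if k = r then 1 else 0 := by
    intro k
    rw [hg5A A4 k r, hA4r, mul_one]
    by_cases hkr : k = r
    · subst hkr
      rw [if_neg (Finset.notMem_erase _ _), if_pos rfl, hA4r, add_zero]
    · rw [if_pos (Finset.mem_erase.mpr ⟨hkr, Finset.mem_univ _⟩), if_neg hkr, add_neg_cancel]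
  have hc5 : Cong N (g5 * A4) := hA4.1.mul_left hg5
  obtain ⟨g6, hg6, hg6A⟩ := rowE (N := N) (r := r) (Finset.univ.erase r)
    (fun k => ((g5 * A4)⁻¹).1 r k) (Finset.notMem_erase _ _) (fun k hk => by
      have := hc5.inv r k
      rwa [if_neg (Ne.symm (Finset.ne_of_mem_erase hk)), sub_zero] at this)
  have h6r : ∀ k, (g6 * (g5 * A4)).1 r k = if r = k then 1 else 0 := by
    intro k
    rw [(hg6A _).2 k]
    have h1 : ((g5 * A4)⁻¹ * (g5 * A4)).1 r k = if r = k then 1 else 0 := by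
      rw [inv_mul_cancel]; exact Matrix.one_apply
    have h2 : ((g5 * A4)⁻¹ * (g5 * A4)).1 r k =
        ∑ l, ((g5 * A4)⁻¹).1 r l * (g5 * A4).1 l k := Matrix.mul_apply
    rw [← h1, h2, ← Finset.sum_erase_add _ _ (Finset.mem_univ r), inv_col h5 r, if_pos rfl,
      one_mul, add_comm]
  have h6c : ∀ k, (g6 * (g5 * A4)).1 k r = if k = r then 1 else 0 := by
    intro k
    by_cases hkr : k = r
    · subst hkr; rw [h6r k]
    · rw [(hg6A _).1 k r hkr, h5 k]
  have h7 := block_mem (hc5.mul_left hg6) h6c h6r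
  apply hA4.2
  have h8 := mul_mem (inv_mem (EN_le hg6)) h7
  rw [inv_mul_cancel_left] at h8
  have h9 := mul_mem (inv_mem (EN_le hg5)) h8
  rwa [inv_mul_cancel_left] at h9

/-- **`SL_n(ℤ) / E(N)` is finite for `n ≥ 3`, `N ≥ 1`.** -/
theorem fin_EN (h3 : 3 ≤ Fintype.card ι) (hN : 0 < N) : Finite (SpecialLinearGroup ι ℤ ⧸ EN ι N) := by
  classical
  haveI : NeZero N := ⟨by omega⟩
  let f := Matrix.SpecialLinearGroup.map (n := ι) (Int.castRingHom (ZMod N))
  have hfin : Finite (SpecialLinearGroup ι ℤ ⧸ f.ker) := by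
    have h1 : Finite (SpecialLinearGroup ι (ZMod N)) := Subtype.finite
    have h2 : Finite f.range := inferInstance
    exact Finite.of_equiv _ (QuotientGroup.quotientKerEquivRange f).toEquiv.symm
  let π := QuotientGroup.mk' (EN ι N)
  let F := SpecialLinearGroup ι ℤ ⧸ EN ι N
  have hcen : ∀ g ∈ f.ker, ∀ x : F, x * π g = π g * x := by
    intro g hg x
    have h1 : g ∈ CN ι N := cong_mem h3 hN ((cong_iff g).mpr hg)
    exact Subgroup.mem_center_iff.mp h1 x
  have hset : Finite (commutatorSet F) := by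
    refine Set.Finite.subset (Set.finite_range
      (fun p : (SpecialLinearGroup ι ℤ ⧸ f.ker) × (SpecialLinearGroup ι ℤ ⧸ f.ker) =>
        ⁅π p.1.out, π p.2.out⁆)) ?_
    rintro _ ⟨x, y, rfl⟩
    obtain ⟨x, rfl⟩ := QuotientGroup.mk'_surjective _ x
    obtain ⟨y, rfl⟩ := QuotientGroup.mk'_surjective _ y
    refine ⟨((x : SpecialLinearGroup ι ℤ ⧸ f.ker), (y : SpecialLinearGroup ι ℤ ⧸ f.ker)), ?_⟩
    obtain ⟨g, hg⟩ := QuotientGroup.mk_out_eq_mul f.ker x
    obtain ⟨h, hh⟩ := QuotientGroup.mk_out_eq_mul f.ker y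
    show ⁅π (QuotientGroup.mk x : SpecialLinearGroup ι ℤ ⧸ f.ker).out,
      π (QuotientGroup.mk y : SpecialLinearGroup ι ℤ ⧸ f.ker).out⁆ = ⁅π x, π y⁆
    rw [hg, hh, map_mul, map_mul]
    have c1 := hcen g.1 g.2
    have c2 := hcen h.1 h.2
    generalize π g.1 = z at c1
    generalize π h.1 = w at c2
    have c1' : ∀ x, x * z⁻¹ = z⁻¹ * x := fun x => by
      rw [mul_inv_eq_iff_eq_mul, mul_assoc, c1 x, inv_mul_cancel_left]
    rw [commutatorElement_def, commutatorElement_def, mul_inv_rev, mul_inv_rev]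
    calc π x * z * (π y * w) * (z⁻¹ * (π x)⁻¹) * (w⁻¹ * (π y)⁻¹)
        = π x * (z * (π y * w * z⁻¹)) * (π x)⁻¹ * (w⁻¹ * (π y)⁻¹) := by simp only [mul_assoc]
      _ = π x * π y * (w * (π x)⁻¹) * (w⁻¹ * (π y)⁻¹) := by
          rw [c1', mul_inv_cancel_left]; simp only [mul_assoc]
      _ = π x * π y * ((π x)⁻¹ * w) * (w⁻¹ * (π y)⁻¹) := by rw [c2 (π x)⁻¹]
      _ = π x * π y * (π x)⁻¹ * (π y)⁻¹ := by
          simp only [mul_assoc, mul_inv_cancel_left]
  have hcomm : commutator F = ⊤ := by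
    rw [eq_top_iff]
    intro x _
    obtain ⟨y, rfl⟩ := QuotientGroup.mk'_surjective _ x
    have h1 := comm_trivial h3 ((Abelianization.of (G := F)).comp π) y
    rw [← Abelianization.ker_of, MonoidHom.mem_ker]
    exact h1
  have h1 : Finite (commutator F) := inferInstance
  rw [hcomm] at h1
  exact Finite.of_equiv _ Subgroup.topEquiv.toEquiv

end

end Pool.Agent.X277.SR
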