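import Pool.Agent.X277.SR.Pos

set_option autoImplicit false

/-! Finite-index subgroups of groups whose finite quotients are quotients of `SL_n(ℤ)`. -/

namespace Pool.Agent.X277.SR

universe u v

section CoInd
variable {Λ : Type} [Group Λ] (Δ : Subgroup Λ) {K : Type v} [Field K] {m : ℕ}
  (ρ : Δ →* Matrix.GeneralLinearGroup (Fin m) K)

/-- the coinduced module -/
def coind : Submodule K (Λ → Fin m → K) where
  carrier := {f | ∀ (d : Δ) (x : Λ), f (d * x) = (ρ d).1.mulVec (f x)}
  zero_mem' := by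
    intro d x; simp
  add_mem' := by
    intro f g hf hg d x
    simp only [Pi.add_apply, hf d x, hg d x, Matrix.mulVec_add]
  smul_mem' := by
    intro c f hf d x
    simp only [Pi.smul_apply, hf d x, Matrix.mulVec_smul]

/-- the action on the coinduced module -/
def coindAct : Λ →* Module.End K (coind Δ ρ) where
  toFun l :=
    { toFun := fun f => ⟨fun x => f.1 (x * l), fun d x => by
        have := f.2 d (x * l)
        rw [← mul_assoc] at this
        exact this⟩
      map_add' := fun f g => rfl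
      map_smul' := fun c f => rfl }
  map_one' := by
    refine LinearMap.ext fun f => Subtype.ext (funext fun x => ?_)
    change f.1 (x * 1) = f.1 x
    rw [mul_one]
  map_mul' l l' := by
    refine LinearMap.ext fun f => Subtype.ext (funext fun x => ?_)
    change f.1 (x * (l * l')) = f.1 (x * l * l')
    rw [mul_assoc]

theorem coind_finite [Δ.FiniteIndex] : Module.Finite K (coind Δ ρ) := by
  let ev : coind Δ ρ →ₗ[K] (Λ ⧸ Δ → Fin m → K) :=
    { toFun := fun f q => f.1 (q.out)⁻¹
      map_add' := fun f g => rfl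
      map_smul' := fun c f => rfl }
  have hev : Function.Injective ev := by
    intro f g hfg
    refine Subtype.ext (funext fun y => ?_)
    obtain ⟨d, hd⟩ := QuotientGroup.mk_out_eq_mul Δ y⁻¹
    have h1 : f.1 ((QuotientGroup.mk y⁻¹ : Λ ⧸ Δ).out)⁻¹ =
        g.1 ((QuotientGroup.mk y⁻¹ : Λ ⧸ Δ).out)⁻¹ := congrFun hfg (QuotientGroup.mk y⁻¹)
    have h2 : y = d * ((QuotientGroup.mk y⁻¹ : Λ ⧸ Δ).out)⁻¹ := by
      rw [hd]; group
    rw [h2, f.2 d, g.2 d, h1]
  have : Finite (Λ ⧸ Δ) := Subgroup.finite_quotient_of_finiteIndex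
  exact Module.Finite.of_injective ev hev

open Classical in
/-- functions supported on the subgroup -/
noncomputable def delta (w : Fin m → K) : coind Δ ρ :=
  ⟨fun x => if hx : x ∈ Δ then (ρ ⟨x, hx⟩).1.mulVec w else 0, by
    intro d x
    by_cases hx : x ∈ Δ
    · have hdx : (d : Λ) * x ∈ Δ := Δ.mul_mem d.2 hx
      simp only [hx, hdx, dif_pos]
      have : (⟨(d : Λ) * x, hdx⟩ : Δ) = d * ⟨x, hx⟩ := rfl
      rw [this, map_mul, Matrix.mulVec_mulVec]
      rfl
    · have hdx : (d : Λ) * x ∉ Δ := fun h => hx ((Subgroup.mul_mem_cancel_left Δ d.2).mp h)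
      simp only [hx, hdx, dif_neg, not_false_eq_true, Matrix.mulVec_zero]⟩

theorem act_delta (d : Δ) (w : Fin m → K) :
    (coindAct Δ ρ d (delta Δ ρ w)).1 1 = (ρ d).1.mulVec w := by
  change (delta Δ ρ w).1 (1 * (d : Λ)) = _
  rw [one_mul]
  unfold delta
  simp only [d.2, dif_pos]

theorem finite_image_sub [Group.FG Λ] {n : ℕ} (h : QuotientsOfSL n Λ) (hn : 3 ≤ n) (p : ℕ)
    [Fact p.Prime] [CharP K p] [Δ.FiniteIndex] : Finite ρ.range := by
  classical
  have := coind_finite Δ ρ
  let b := Module.finBasis K (coind Δ ρ)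
  let e := LinearMap.toMatrixAlgEquiv b
  let σ : Λ →* Matrix.GeneralLinearGroup (Fin (Module.finrank K (coind Δ ρ))) K :=
    ((e : Module.End K (coind Δ ρ) →* Matrix _ _ K).comp (coindAct Δ ρ)).toHomUnits
  have hσ : Finite σ.range := finite_image h hn p _ σ
  have hS : (Set.range σ).Finite := by
    rw [← MonoidHom.coe_range]
    exact Set.toFinite _
  let F : Matrix.GeneralLinearGroup (Fin (Module.finrank K (coind Δ ρ))) K →
      Matrix (Fin m) (Fin m) K := fun M =>
    Matrix.of fun i j => ((e.symm M.1) (delta Δ ρ (Pi.single j 1))).1 1 i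
  have h1 : (Set.range fun d : Δ => ((ρ d).1 : Matrix (Fin m) (Fin m) K)).Finite := by
    refine (hS.image F).subset ?_
    rintro _ ⟨d, rfl⟩
    refine ⟨σ d, ⟨d, rfl⟩, ?_⟩
    ext i j
    have h2 : e.symm (σ d).1 = coindAct Δ ρ d := e.symm_apply_apply _
    change ((e.symm (σ d).1) (delta Δ ρ (Pi.single j 1))).1 1 i = _
    rw [h2, act_delta, Matrix.mulVec_single_one]
    rfl
  have h2 : (Set.range ρ).Finite := by
    refine Set.Finite.of_finite_image (f := fun M : Matrix.GeneralLinearGroup (Fin m) K =>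
      (M.1 : Matrix (Fin m) (Fin m) K)) ?_ (fun x _ y _ hxy => Units.ext hxy)
    rw [← Set.range_comp]
    exact h1
  rw [← MonoidHom.coe_range] at h2
  exact h2.to_subtype

end CoInd

section FAb
variable {Λ : Type} [Group Λ]

theorem X_inf : ¬ IsOfFinOrder (Units.mk0 (RatFunc.X : RatFunc (ZMod 2)) RatFunc.X_ne_zero) := by
  rw [isOfFinOrder_iff_pow_eq_one]
  rintro ⟨k, hk, h⟩
  have h1 : (RatFunc.X : RatFunc (ZMod 2)) ^ k = 1 := by
    have := congrArg Units.val h
    simpa using this
  rw [← RatFunc.algebraMap_X, ← map_pow, ← map_one (algebraMap (Polynomial (ZMod 2)) _)] at h1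
  have h2 := RatFunc.algebraMap_injective (ZMod 2) h1
  have h3 := congrArg Polynomial.natDegree h2
  rw [Polynomial.natDegree_X_pow, Polynomial.natDegree_one] at h3
  omega

theorem fab [Group.FG Λ] {n : ℕ} (h : QuotientsOfSL n Λ) (hn : 3 ≤ n) (Δ : Subgroup Λ)
    [Δ.FiniteIndex] {A : Type u} [CommGroup A] (f : Δ →* A) (hf : Function.Surjective f) :
    Finite A := by
  have hp : Fact (Nat.Prime 2) := ⟨Nat.prime_two⟩
  have hfg : Group.FG A := Group.fg_of_surjective hf
  obtain ⟨ι, j, _, _, q, hq, e, ⟨φ⟩⟩ := CommGroup.equiv_free_prod_prod_multiplicative_zmod A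
  have hne : ∀ i, NeZero (q i ^ e i) := fun i => ⟨pow_ne_zero _ (hq i).ne_zero⟩
  have hfi : ∀ i, Finite (Multiplicative (ZMod (q i ^ e i))) := fun i =>
    inferInstanceAs (Finite (ZMod (q i ^ e i)))
  rcases isEmpty_or_nonempty j with hj | ⟨⟨j0⟩⟩
  · exact Finite.of_equiv _ φ.symm.toEquiv
  · exfalso
    let ψ : Δ →* Multiplicative ℤ :=
      (Pi.evalMonoidHom (fun _ : j => Multiplicative ℤ) j0).comp
        ((MonoidHom.fst _ _).comp (φ.toMonoidHom.comp f))
    have hψ : Function.Surjective ψ := by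
      intro z
      obtain ⟨d, hd⟩ := hf (φ.symm (fun _ => z, 1))
      refine ⟨d, ?_⟩
      change (φ (f d)).1 j0 = z
      rw [hd, MulEquiv.apply_symm_apply]
    let t := Units.mk0 (RatFunc.X : RatFunc (ZMod 2)) RatFunc.X_ne_zero
    let χ : Multiplicative ℤ →* Matrix.GeneralLinearGroup (Fin 1) (RatFunc (ZMod 2)) :=
      (Units.map ((Matrix.scalar (Fin 1) : RatFunc (ZMod 2) →+* _) : RatFunc (ZMod 2) →* _)).comp
        (zpowersHom _ t)
    have hχ : Function.Injective χ := by
      intro a b hab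
      have h1 : (zpowersHom _ t) a = (zpowersHom _ t) b := by
        apply Units.ext
        have h2 : Matrix.scalar (Fin 1) ((zpowersHom _ t) a : (RatFunc (ZMod 2))ˣ).1 0 0 =
            Matrix.scalar (Fin 1) ((zpowersHom _ t) b : (RatFunc (ZMod 2))ˣ).1 0 0 :=
          congrArg (fun M : Matrix.GeneralLinearGroup (Fin 1) (RatFunc (ZMod 2)) =>
            M.1 0 0) hab
        rw [Matrix.scalar_apply, Matrix.scalar_apply, Matrix.diagonal_apply_eq,
          Matrix.diagonal_apply_eq] at h2
        exact h2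
      have h3 := injective_zpow_iff_not_isOfFinOrder.mpr X_inf
      have h4 : Multiplicative.toAdd a = Multiplicative.toAdd b := by
        apply h3
        simpa [zpowersHom_apply] using h1
      exact Multiplicative.toAdd.injective h4
    have hfin : Finite (χ.comp ψ).range := finite_image_sub Δ (χ.comp ψ) h hn 2
    have : Finite (Multiplicative ℤ) := by
      refine Finite.of_injective (fun z : Multiplicative ℤ =>
        (⟨χ z, by obtain ⟨d, hd⟩ := hψ z; exact ⟨d, by rw [← hd]; rfl⟩⟩ : (χ.comp ψ).range)) ?_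
      intro a b hab
      exact hχ (congrArg Subtype.val hab)
    exact not_finite (Multiplicative ℤ)

theorem comm_fi [Group.FG Λ] {n : ℕ} (h : QuotientsOfSL n Λ) (hn : 3 ≤ n) (Δ : Subgroup Λ)
    [Δ.FiniteIndex] : (⁅Δ, Δ⁆ : Subgroup Λ).FiniteIndex := by
  have h1 : Finite (Abelianization Δ) :=
    fab h hn Δ (Abelianization.of) QuotientGroup.mk_surjective
  have h2 : (commutator Δ).FiniteIndex := by
    have : Finite (Δ ⧸ commutator Δ) := h1
    exact Subgroup.finiteIndex_of_finite_quotient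
  have h3 : (commutator Δ).map Δ.subtype = ⁅Δ, Δ⁆ := Subgroup.map_subtype_commutator Δ
  rw [← h3]
  refine ⟨?_⟩
  rw [Subgroup.index_map_subtype]
  exact mul_ne_zero h2.index_ne_zero (Subgroup.FiniteIndex.index_ne_zero)

theorem derived_fi [Group.FG Λ] {n : ℕ} (h : QuotientsOfSL n Λ) (hn : 3 ≤ n) (Δ : Subgroup Λ)
    [hΔ : Δ.FiniteIndex] (k : ℕ) : ((derivedSeries Δ k).map Δ.subtype).FiniteIndex := by
  induction k with
  | zero =>
    rw [derivedSeries_zero, ← MonoidHom.range_eq_map, Subgroup.range_subtype]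
    exact hΔ
  | succ k ih =>
    rw [derivedSeries_succ, Subgroup.map_commutator]
    exact comm_fi h hn _

theorem solv_fi [Group.FG Λ] {n : ℕ} (h : QuotientsOfSL n Λ) (hn : 3 ≤ n) (Δ : Subgroup Λ)
    [hΔ : Δ.FiniteIndex] {S : Type u} [Group S] [Group.IsSolvable S] (f : Δ →* S) :
    f.ker.FiniteIndex := by
  obtain ⟨k, hk⟩ := (Group.isSolvable_def S).mp inferInstance
  have h1 : derivedSeries Δ k ≤ f.ker := by
    intro x hx
    have h2 : f x ∈ derivedSeries S k :=
      map_derivedSeries_le_derivedSeries f k (Subgroup.mem_map_of_mem f hx)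
    rw [hk] at h2
    exact h2
  have h3 : (derivedSeries Δ k).FiniteIndex := by
    have h4 := derived_fi h hn Δ k
    refine ⟨?_⟩
    have h5 := h4.index_ne_zero
    rw [Subgroup.index_map_subtype] at h5
    exact left_ne_zero_of_mul h5
  exact Subgroup.finiteIndex_of_le h1

theorem vsolv_fi [Group.FG Λ] {n : ℕ} (h : QuotientsOfSL n Λ) (hn : 3 ≤ n) (Δ : Subgroup Λ)
    [hΔ : Δ.FiniteIndex] {G : Type u} [Group G] (T : Subgroup G) [T.FiniteIndex] [Group.IsSolvable T]
    (f : Δ →* G) : Finite f.range := by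
  have hT : (T.comap f).FiniteIndex := by
    refine ⟨?_⟩
    rw [Subgroup.index_comap]
    exact Subgroup.FiniteIndex.index_ne_zero (H := T.subgroupOf f.range)
  let Δ1 : Subgroup Λ := (T.comap f).map Δ.subtype
  have h1 : Δ1.FiniteIndex := by
    refine ⟨?_⟩
    rw [Subgroup.index_map_subtype]
    exact mul_ne_zero hT.index_ne_zero hΔ.index_ne_zero
  have hle : Δ1 ≤ Δ := Subgroup.map_subtype_le _
  let g : Δ1 →* T := (f.comp (Subgroup.inclusion hle)).codRestrict T (by
    rintro ⟨x, y, hy, rfl⟩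
    exact hy)
  have h2 : g.ker.FiniteIndex := solv_fi h hn Δ1 g
  have h3 : g.ker.map Δ1.subtype ≤ f.ker.map Δ.subtype := by
    rintro _ ⟨x, hx, rfl⟩
    refine ⟨Subgroup.inclusion hle x, ?_, rfl⟩
    have := congrArg Subtype.val hx
    exact this
  have h4 : (g.ker.map Δ1.subtype).FiniteIndex := by
    refine ⟨?_⟩
    rw [Subgroup.index_map_subtype]
    exact mul_ne_zero h2.index_ne_zero h1.index_ne_zero
  have h5 : (f.ker.map Δ.subtype).FiniteIndex := Subgroup.finiteIndex_of_le h3
  have h6 : f.ker.FiniteIndex := by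
    refine ⟨?_⟩
    have h7 := h5.index_ne_zero
    rw [Subgroup.index_map_subtype] at h7
    exact left_ne_zero_of_mul h7
  have h8 : Finite (Δ ⧸ f.ker) := Subgroup.finite_quotient_of_finiteIndex
  exact Finite.of_equiv _ (QuotientGroup.quotientKerEquivRange f).toEquiv

end FAb

end Pool.Agent.X277.SR
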