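import Pool.Agent.X277.SR.Chars
import Pool.Agent.X277.SR.Sub

set_option autoImplicit false
set_option linter.unusedSectionVars false

/-! Finitely generated groups all of whose linear representations in positive characteristic have
finite image: algebraicity of eigenvalues and finiteness of characters in characteristic zero. -/

namespace Pool.Agent.X277.SR

universe v

open Matrix (SpecialLinearGroup)

section
variable {Λ : Type} [Group Λ]

/-- representations in positive characteristic have finite image -/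
def PF (Λ : Type) [Group Λ] : Prop :=
  ∀ (p : ℕ) [Fact p.Prime] (m : ℕ) (K : Type v) [Field K] [CharP K p]
    (ρ : Λ →* Matrix.GeneralLinearGroup (Fin m) K), Finite ρ.range

/-- **The eigenvalues of linear representations in characteristic zero are algebraic.** -/
theorem eigen_algebraicG [Group.FG Λ] (h : PF.{v} Λ) {m : ℕ} {K : Type v}
    [Field K] [CharZero K] (ρ : Λ →* Matrix.GeneralLinearGroup (Fin m) K) (l : Λ) (α : K)
    (hα : (ρ l).1.charpoly.IsRoot α) : IsAlgebraic ℤ α := by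
  classical
  by_contra htr
  obtain ⟨T, hT, ρ0, hρ0⟩ := descend ρ {α}
  have hαT : α ∈ T := hT (Finset.mem_singleton_self α)
  obtain ⟨p, hp, k, _, _, θ, hθ⟩ := exists_spec T α hαT htr
  have hp' : Fact p.Prime := ⟨hp⟩
  let φ : Λ →* Matrix.GeneralLinearGroup (Fin m) k :=
    ((θ.mapMatrix : Matrix (Fin m) (Fin m) _ →+* Matrix (Fin m) (Fin m) k).toMonoidHom.comp
      ρ0).toHomUnits
  obtain ⟨e, hpos, he⟩ : ∃ e : ℕ, 0 < e ∧ φ l ^ e = 1 := by
    have hfin : Finite φ.range := h p m k φ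
    refine ⟨Nat.card φ.range, Nat.card_pos, ?_⟩
    have h1 := pow_card_eq_one' (x := (⟨φ l, l, rfl⟩ : φ.range))
    exact congrArg Subtype.val h1
  -- the determinant
  let R0 := Algebra.adjoin ℤ (T : Set K)
  let α0 : R0 := ⟨α, Algebra.subset_adjoin hαT⟩
  have hdetK : (Matrix.scalar (Fin m) α - (ρ l).1).det = 0 := by
    rw [← Matrix.eval_charpoly]; exact hα
  have hmap : (R0.val : R0 →+* K).mapMatrix (Matrix.scalar (Fin m) α0 - ρ0 l) =
      Matrix.scalar (Fin m) α - (ρ l).1 := by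
    ext i j
    show ((Matrix.scalar (Fin m) α0 i j - ρ0 l i j : R0) : K) =
      Matrix.scalar (Fin m) α i j - (ρ l).1 i j
    rw [← hρ0 l i j, Matrix.scalar_apply, Matrix.scalar_apply, Matrix.diagonal_apply,
      Matrix.diagonal_apply]
    split_ifs <;> rfl
  have hdet0 : (Matrix.scalar (Fin m) α0 - ρ0 l).det = 0 := by
    have h1 := RingHom.map_det (R0.val : R0 →+* K) (Matrix.scalar (Fin m) α0 - ρ0 l)
    rw [hmap, hdetK] at h1
    exact Subtype.ext h1
  have hdetk : (Matrix.scalar (Fin m) (θ α0) - (φ l).1).det = 0 := by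
    have h1 := RingHom.map_det θ (Matrix.scalar (Fin m) α0 - ρ0 l)
    rw [hdet0, map_zero] at h1
    have h2 : θ.mapMatrix (Matrix.scalar (Fin m) α0 - ρ0 l) =
        Matrix.scalar (Fin m) (θ α0) - (φ l).1 := by
      ext i j
      show θ (Matrix.scalar (Fin m) α0 i j - ρ0 l i j) =
        Matrix.scalar (Fin m) (θ α0) i j - θ (ρ0 l i j)
      rw [map_sub, Matrix.scalar_apply, Matrix.scalar_apply, Matrix.diagonal_apply,
        Matrix.diagonal_apply]
      split_ifs
      · rfl
      · rw [map_zero]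
    rw [← h2]
    exact h1.symm
  obtain ⟨v, hv0, hv⟩ := Matrix.exists_mulVec_eq_zero_iff.mpr hdetk
  have hv1 : (φ l).1.mulVec v = θ α0 • v := by
    rw [Matrix.sub_mulVec, sub_eq_zero] at hv
    rw [← hv]
    ext i
    rw [Matrix.scalar_apply, Matrix.mulVec_diagonal]
    rfl
  have hv2 : ∀ e : ℕ, ((φ l).1 ^ e).mulVec v = (θ α0) ^ e • v := by
    intro e
    induction e with
    | zero => rw [pow_zero, pow_zero, Matrix.one_mulVec, one_smul]
    | succ e ih =>
      rw [pow_succ, ← Matrix.mulVec_mulVec, hv1, Matrix.mulVec_smul, ih, smul_smul, pow_succ,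
        mul_comm]
  have h1 : (φ l).1 ^ e = 1 := congrArg Units.val he
  have h2 := hv2 e
  rw [h1, Matrix.one_mulVec] at h2
  apply hθ e hpos
  obtain ⟨i, hi⟩ : ∃ i, v i ≠ 0 := by
    by_contra hcon
    push Not at hcon
    exact hv0 (funext hcon)
  have h3 := congrFun h2 i
  rw [Pi.smul_apply, smul_eq_mul] at h3
  exact (mul_right_cancel₀ hi (by rw [one_mul]; exact h3)).symm

/-- **The traces of linear representations in characteristic zero are algebraic.** -/
theorem trace_algebraicG [Group.FG Λ] (h : PF.{v} Λ) {m : ℕ} {K : Type v}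
    [Field K] [CharZero K] (ρ : Λ →* Matrix.GeneralLinearGroup (Fin m) K) (l : Λ) :
    IsAlgebraic ℤ (Matrix.trace (ρ l).1) := by
  classical
  let L := AlgebraicClosure K
  have hL : CharZero L := charZero_of_injective_algebraMap (algebraMap K L).injective
  let ρ' : Λ →* Matrix.GeneralLinearGroup (Fin m) L :=
    (Matrix.GeneralLinearGroup.map (algebraMap K L)).comp ρ
  have h1 : ∀ α ∈ (ρ' l).1.charpoly.roots, α ∈ algebraicClosure ℚ L := by
    intro α hα
    rw [mem_algebraicClosure_iff]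
    exact (IsFractionRing.isAlgebraic_iff ℤ ℚ L).mp
      (eigen_algebraicG h ρ' l α ((Polynomial.mem_roots'.mp hα).2))
  have h2 : Matrix.trace (ρ' l).1 = (ρ' l).1.charpoly.roots.sum :=
    Matrix.trace_eq_sum_roots_charpoly _
  have h3 : Matrix.trace (ρ' l).1 = algebraMap K L (Matrix.trace (ρ l).1) := by
    rw [Matrix.trace, Matrix.trace, map_sum]
    rfl
  have h4 : algebraMap K L (Matrix.trace (ρ l).1) ∈ algebraicClosure ℚ L := by
    rw [← h3, h2]
    exact multiset_sum_mem _ h1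
  rw [mem_algebraicClosure_iff] at h4
  have h5 : IsAlgebraic ℤ (algebraMap K L (Matrix.trace (ρ l).1)) :=
    (IsFractionRing.isAlgebraic_iff ℤ ℚ L).mpr h4
  exact (isAlgebraic_algebraMap_iff (algebraMap K L).injective).mp h5

theorem trace_algebraicQG [Group.FG Λ] (h : PF.{v} Λ) {m : ℕ} {K : Type v}
    [Field K] [CharZero K] (ρ : Λ →* Matrix.GeneralLinearGroup (Fin m) K) (l : Λ) :
    IsAlgebraic ℚ (Matrix.trace (ρ l).1) :=
  (IsFractionRing.isAlgebraic_iff ℤ ℚ K).mp (trace_algebraicG h ρ l)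

open Polynomial in
/-- **Uniform version: each trace takes only finitely many values.** -/
theorem uniformG [Group.FG Λ] (h : PF.{v} Λ) (m : ℕ) (l : Λ) :
    ∃ f : ℤ[X], f ≠ 0 ∧ ∀ (K : Type v) [Field K] [CharZero K]
      (ρ : Λ →* Matrix.GeneralLinearGroup (Fin m) K),
        aeval (Matrix.trace (ρ l).1) f = 0 ∧
          ∀ α : K, (ρ l).1.charpoly.IsRoot α → aeval α f = 0 := by
  classical
  by_contra hcon
  push Not at hcon
  have hex : ∀ f : {f : ℤ[X] // f ≠ 0}, ∃ (K : Type v) (_ : Field K) (_ : CharZero K)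
      (ρ : Λ →* Matrix.GeneralLinearGroup (Fin m) K) (x : K),
      (Matrix.scalar (Fin m) x - (ρ l).1).det * (x - Matrix.trace (ρ l).1) = 0 ∧
        aeval x f.1 ≠ 0 := by
    rintro ⟨f, hf⟩
    obtain ⟨K, iF, iC, ρ, hρ⟩ := hcon f hf
    by_cases h0 : aeval (Matrix.trace (ρ l).1) f = 0
    · obtain ⟨α, hα, hα'⟩ := hρ h0
      refine ⟨K, iF, iC, ρ, α, ?_, hα'⟩
      rw [← Matrix.eval_charpoly, hα, zero_mul]
    · refine ⟨K, iF, iC, ρ, Matrix.trace (ρ l).1, ?_, h0⟩
      rw [sub_self, mul_zero]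
  choose K iF iC ρ x hD hx using hex
  let A := ∀ f : {f : ℤ[X] // f ≠ 0}, K f
  let J : Ideal A :=
    { carrier := {a | ∃ f : {f : ℤ[X] // f ≠ 0}, ∀ g : {f : ℤ[X] // f ≠ 0}, f.1 ∣ g.1 → a g = 0}
      zero_mem' := ⟨⟨1, one_ne_zero⟩, fun g _ => rfl⟩
      add_mem' := by
        rintro a b ⟨f, hf⟩ ⟨g, hg⟩
        refine ⟨⟨f.1 * g.1, mul_ne_zero f.2 g.2⟩, fun r hr => ?_⟩
        show a r + b r = 0
        rw [hf r ((dvd_mul_right _ _).trans hr), hg r ((dvd_mul_left _ _).trans hr), add_zero]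
      smul_mem' := by
        rintro c a ⟨f, hf⟩
        refine ⟨f, fun r hr => ?_⟩
        show c r * a r = 0
        rw [hf r hr, mul_zero] }
  have hJ : J ≠ ⊤ := by
    intro hJ
    have h1 : (1 : A) ∈ J := by rw [hJ]; trivial
    obtain ⟨f, hf⟩ := h1
    exact one_ne_zero (hf f (dvd_refl _))
  obtain ⟨M, hM, hJM⟩ := Ideal.exists_le_maximal J hJ
  letI fk : Field (A ⧸ M) := Ideal.Quotient.field M
  -- elements nonzero on a large set are not in `M`
  have hlarge : ∀ a : A, (∃ f : {f : ℤ[X] // f ≠ 0}, ∀ g : {f : ℤ[X] // f ≠ 0},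
      f.1 ∣ g.1 → a g ≠ 0) → a ∉ M := by
    rintro a ⟨f, hf⟩ haM
    let u : A := fun g => (a g)⁻¹
    have h1 : (1 - u * a) ∈ M := by
      apply hJM
      refine ⟨f, fun g hg => ?_⟩
      show 1 - (a g)⁻¹ * a g = 0
      rw [inv_mul_cancel₀ (hf g hg), sub_self]
    apply hM.ne_top
    rw [Ideal.eq_top_iff_one]
    have h2 := M.add_mem h1 (M.mul_mem_left u haM)
    rwa [sub_add_cancel] at h2
  have hchar : CharZero (A ⧸ M) := by
    refine charZero_of_inj_zero (fun c hc => ?_)
    by_contra hc0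
    have h1 : ((c : ℕ) : A) ∉ M := by
      apply hlarge
      refine ⟨⟨1, one_ne_zero⟩, fun g _ => ?_⟩
      show ((c : ℕ) : K g) ≠ 0
      exact Nat.cast_ne_zero.mpr hc0
    apply h1
    rw [← Ideal.Quotient.eq_zero_iff_mem, map_natCast]
    exact hc
  let ρA : Λ →* Matrix (Fin m) (Fin m) A :=
    { toFun := fun γ => Matrix.of fun i j f => (ρ f γ).1 i j
      map_one' := by
        ext i j f
        show (ρ f 1).1 i j = (1 : Matrix (Fin m) (Fin m) A) i j f
        rw [map_one]
        show (1 : Matrix (Fin m) (Fin m) (K f)) i j = _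
        rw [Matrix.one_apply, Matrix.one_apply]
        split_ifs <;> rfl
      map_mul' := by
        intro a b
        ext i j f
        show (ρ f (a * b)).1 i j = _
        have : (ρ f (a * b)).1 i j = ∑ k, (ρ f a).1 i k * (ρ f b).1 k j := by
          rw [map_mul]; exact Matrix.mul_apply
        rw [this, Matrix.mul_apply, Finset.sum_apply]
        rfl }
  let φ : Λ →* Matrix.GeneralLinearGroup (Fin m) (A ⧸ M) :=
    (((Ideal.Quotient.mk M).mapMatrix : Matrix (Fin m) (Fin m) A →+*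
      Matrix (Fin m) (Fin m) (A ⧸ M)).toMonoidHom.comp ρA).toHomUnits
  have hDA : (Matrix.scalar (Fin m) (x : A) - ρA l).det * ((x : A) - Matrix.trace (ρA l)) = 0 := by
    funext f
    have h1 := RingHom.map_det (Pi.evalRingHom K f) (Matrix.scalar (Fin m) (x : A) - ρA l)
    have h2 : (Pi.evalRingHom K f).mapMatrix (Matrix.scalar (Fin m) (x : A) - ρA l) =
        Matrix.scalar (Fin m) (x f) - (ρ f l).1 := by
      ext i j
      show (Matrix.scalar (Fin m) (x : A) i j - ρA l i j) f =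
        Matrix.scalar (Fin m) (x f) i j - (ρ f l).1 i j
      rw [Matrix.scalar_apply, Matrix.scalar_apply, Matrix.diagonal_apply, Matrix.diagonal_apply]
      split_ifs <;> rfl
    have h3 : Pi.evalRingHom K f (Matrix.trace (ρA l)) = Matrix.trace (ρ f l).1 := by
      rw [Matrix.trace, Matrix.trace, map_sum]
      rfl
    rw [h2] at h1
    show (Matrix.scalar (Fin m) (x : A) - ρA l).det f * (x f - Matrix.trace (ρA l) f) = 0
    have h4 : (Matrix.scalar (Fin m) (x : A) - ρA l).det f =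
        (Matrix.scalar (Fin m) (x f) - (ρ f l).1).det := h1
    have h5 : Matrix.trace (ρA l) f = Matrix.trace (ρ f l).1 := h3
    rw [h4, h5]
    exact hD f
  have hDk : (Matrix.scalar (Fin m) (Ideal.Quotient.mk M (x : A)) - (φ l).1).det *
      (Ideal.Quotient.mk M (x : A) - Matrix.trace (φ l).1) = 0 := by
    have h1 := congrArg (Ideal.Quotient.mk M) hDA
    rw [map_mul, map_zero, RingHom.map_det, map_sub (Ideal.Quotient.mk M) (x : A)] at h1
    have h2 : (Ideal.Quotient.mk M).mapMatrix (Matrix.scalar (Fin m) (x : A) - ρA l) =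
        Matrix.scalar (Fin m) (Ideal.Quotient.mk M (x : A)) - (φ l).1 := by
      ext i j
      show Ideal.Quotient.mk M (Matrix.scalar (Fin m) (x : A) i j - ρA l i j) =
        Matrix.scalar (Fin m) (Ideal.Quotient.mk M (x : A)) i j - Ideal.Quotient.mk M (ρA l i j)
      rw [map_sub, Matrix.scalar_apply, Matrix.scalar_apply, Matrix.diagonal_apply,
        Matrix.diagonal_apply]
      split_ifs
      · rfl
      · rw [map_zero]
    have h3 : Ideal.Quotient.mk M (Matrix.trace (ρA l)) = Matrix.trace (φ l).1 := by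
      rw [Matrix.trace, Matrix.trace, map_sum]
      rfl
    rw [h2, h3] at h1
    exact h1
  have halg : IsAlgebraic ℤ (Ideal.Quotient.mk M (x : A)) := by
    rcases mul_eq_zero.mp hDk with h1 | h1
    · apply eigen_algebraicG h φ l
      rw [Polynomial.IsRoot.def, Matrix.eval_charpoly]
      exact h1
    · rw [sub_eq_zero.mp h1]
      exact trace_algebraicG h φ l
  obtain ⟨f, hf0, hf⟩ := halg
  have h1 : (aeval (x : A) f) ∉ M := by
    apply hlarge
    refine ⟨⟨f, hf0⟩, fun g hg => ?_⟩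
    have h2 : (aeval (x : A) f) g = aeval (x g) f := by
      have h3 := Polynomial.hom_eval₂ f (algebraMap ℤ A) (Pi.evalRingHom K g) (x : A)
      have h4 : (Pi.evalRingHom K g).comp (algebraMap ℤ A) = algebraMap ℤ (K g) :=
        RingHom.ext_int _ _
      rw [h4] at h3
      exact h3
    rw [h2]
    obtain ⟨q, hq⟩ := hg
    intro h0
    apply hx g
    have h5 : g.1 = f * q := hq
    rw [h5, map_mul, h0, zero_mul]
  apply h1
  rw [← Ideal.Quotient.eq_zero_iff_mem]
  have h3 := Polynomial.hom_eval₂ f (algebraMap ℤ A) (Ideal.Quotient.mk M) (x : A)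
  have h4 : (Ideal.Quotient.mk M).comp (algebraMap ℤ A) = algebraMap ℤ (A ⧸ M) :=
    RingHom.ext_int _ _
  rw [h4] at h3
  have h5 : Ideal.Quotient.mk M (aeval (x : A) f) = aeval (Ideal.Quotient.mk M (x : A)) f := h3
  rw [h5, hf]

theorem CP_finiteG [Group.FG Λ] (h0 : PF.{0} Λ) (h : PF.{v} Λ) {m : ℕ} {K : Type v} [Field K]
    [CharZero K] {A : Type} [CommRing A] [Algebra.FiniteType ℤ A]
    (U : Λ →* Matrix (Fin m) (Fin m) A) (P : Ideal A) [hP : P.IsPrime] : (CP K U P).Finite := by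
  classical
  by_cases hne : (CP K U P).Nonempty
  swap
  · rw [Set.not_nonempty_iff_eq_empty.mp hne]; exact Set.finite_empty
  obtain ⟨χ0, ρ0, θ0, -, -, hPθ0⟩ := hne
  have hR : CharZero (A ⧸ P) :=
    RingHom.charZero (Ideal.Quotient.lift P θ0 (fun a ha => hPθ0 ha))
  let L := FractionRing (A ⧸ P)
  have hinj : Function.Injective (algebraMap (A ⧸ P) L) := IsFractionRing.injective _ _
  have hL : CharZero L := charZero_of_injective_algebraMap hinj
  let j : A →+* L := (algebraMap (A ⧸ P) L).comp (Ideal.Quotient.mk P)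
  let ρL : Λ →* Matrix.GeneralLinearGroup (Fin m) L :=
    ((j.mapMatrix : Matrix (Fin m) (Fin m) A →+* Matrix (Fin m) (Fin m) L).toMonoidHom.comp
      U).toHomUnits
  have htrL : ∀ l, j (Matrix.trace (U l)) = Matrix.trace (ρL l).1 := fun l =>
    CP_trace U ρL j (fun _ _ _ => rfl) l
  obtain ⟨G, hG⟩ := (Algebra.FiniteType.out : (⊤ : Subalgebra ℤ A).FG)
  let T : Finset L := G.image j
  have hT : ∀ a : A, j a ∈ Algebra.adjoin ℚ (T : Set L) := by
    intro a
    have ha : a ∈ Algebra.adjoin ℤ (G : Set A) := by rw [hG]; trivial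
    induction ha using Algebra.adjoin_induction with
    | mem x hx => exact Algebra.subset_adjoin (Finset.mem_coe.mpr (Finset.mem_image_of_mem _ hx))
    | algebraMap c =>
      have : j (algebraMap ℤ A c) = ((c : ℤ) : L) := by
        rw [show algebraMap ℤ A c = ((c : ℤ) : A) from rfl, map_intCast]
      rw [this]
      exact intCast_mem _ c
    | add x y _ _ h1 h2 => rw [map_add]; exact add_mem h1 h2
    | mul x y _ _ h1 h2 => rw [map_mul]; exact mul_mem h1 h2
  let Z : Set L := Set.range (fun l : Λ => j (Matrix.trace (U l)))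
  obtain ⟨Z0, hZ0, hspan⟩ := finite_alg T Z (by rintro _ ⟨l, rfl⟩; exact hT _) (by
    rintro _ ⟨l, rfl⟩
    have h1 := trace_algebraicQG h0 ρL l
    rw [← htrL l] at h1
    exact h1)
  have hg : ∀ z : Z0, ∃ l : Λ, j (Matrix.trace (U l)) = z := fun z => hZ0 z.2
  choose g hg using hg
  let S0 : Finset Λ := Z0.attach.image g
  let res : (Λ → K) → (S0 → K) := fun χ l => χ l
  apply Set.Finite.of_finite_image (f := res)
  · -- the image is finite
    have hf := fun l : S0 => uniformG.{v} h m (l : Λ)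
    choose f hf0 hf using hf
    have hfin : (Set.pi Set.univ (fun l : S0 => {x : K | Polynomial.aeval x (f l) = 0})).Finite := by
      apply Set.Finite.pi
      intro l
      refine Set.Finite.subset (Polynomial.rootSet_finite (f l) K) ?_
      intro x hx
      rw [Polynomial.mem_rootSet]
      exact ⟨hf0 l, hx⟩
    refine hfin.subset ?_
    rintro _ ⟨χ, ⟨ρ, θ, h1, -, -⟩, rfl⟩ l -
    show Polynomial.aeval (χ l) (f l) = 0
    rw [h1]
    exact (hf l K ρ).1
  · -- injectivity
    rintro χ1 ⟨ρ1, θ1, h1, h1', h1P⟩ χ2 ⟨ρ2, θ2, h2, h2', h2P⟩ h12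
    let e1 : (A ⧸ P) →+* K := Ideal.Quotient.lift P θ1 (fun a ha => h1P ha)
    let e2 : (A ⧸ P) →+* K := Ideal.Quotient.lift P θ2 (fun a ha => h2P ha)
    have he1 : ∀ l, e1 (Ideal.Quotient.mk P (Matrix.trace (U l))) = χ1 l := by
      intro l
      rw [h1, ← CP_trace U ρ1 θ1 h1' l]
      exact Ideal.Quotient.lift_mk _ _ _
    have he2 : ∀ l, e2 (Ideal.Quotient.mk P (Matrix.trace (U l))) = χ2 l := by
      intro l
      rw [h2, ← CP_trace U ρ2 θ2 h2' l]
      exact Ideal.Quotient.lift_mk _ _ _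
    have hcl : AddSubgroup.closure (Z0 : Set L) ≤
        ((RingHom.eqLocus e1 e2).toAddSubgroup).map (algebraMap (A ⧸ P) L).toAddMonoidHom := by
      rw [AddSubgroup.closure_le]
      intro z hz
      refine ⟨Ideal.Quotient.mk P (Matrix.trace (U (g ⟨z, hz⟩))), ?_, hg ⟨z, hz⟩⟩
      show e1 _ = e2 _
      rw [he1, he2]
      have hmem : g ⟨z, hz⟩ ∈ S0 := Finset.mem_image_of_mem _ (Finset.mem_attach _ _)
      exact congrFun h12 ⟨_, hmem⟩
    funext l
    obtain ⟨N, hN, hNz⟩ := clear_den (Z0 : Set L) (hspan _ ⟨l, rfl⟩)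
    obtain ⟨x, hx, hxe⟩ := hcl hNz
    have hx2 : x = (N : A ⧸ P) * Ideal.Quotient.mk P (Matrix.trace (U l)) := by
      apply hinj
      rw [map_mul, map_natCast]
      exact hxe
    have hx3 : e1 x = e2 x := hx
    rw [hx2, map_mul, map_mul, map_natCast, map_natCast, he1, he2] at hx3
    exact mul_left_cancel₀ (Nat.cast_ne_zero.mpr hN) hx3

/-- **Finitely many characters in each degree.** -/
theorem finite_charactersG [Group.FG Λ] (h0 : PF.{0} Λ) (h : PF.{v} Λ) (m : ℕ) (K : Type v)
    [Field K] [CharZero K] : {χ : Λ → K | ∃ ρ : Λ →* Matrix.GeneralLinearGroup (Fin m) K,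
      ∀ l, χ l = Matrix.trace (ρ l).1}.Finite := by
  obtain ⟨A, iA, iF, U, hU⟩ := exists_universal.{v} (Λ := Λ) m
  have hN : IsNoetherianRing A := Algebra.FiniteType.isNoetherianRing ℤ A
  have hmin : (minimalPrimes A).Finite := minimalPrimes.finite_of_isNoetherianRing A
  refine Set.Finite.subset (hmin.biUnion (t := fun P => CP K U P) (fun P hP => ?_)) ?_
  · have : P.IsPrime := Ideal.minimalPrimes_isPrime hP
    exact CP_finiteG h0 h U P
  · rintro χ ⟨ρ, hρ⟩
    obtain ⟨θ, hθ⟩ := hU K ρ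
    have hk : (RingHom.ker θ).IsPrime := RingHom.ker_isPrime θ
    obtain ⟨P, hP, hPk⟩ := Ideal.exists_minimalPrimes_le (bot_le : (⊥ : Ideal A) ≤ RingHom.ker θ)
    exact Set.mem_biUnion hP ⟨ρ, θ, hρ, hθ, hPk⟩

end

end Pool.Agent.X277.SR
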