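import Pool.Agent.X277.SR.Rep

set_option autoImplicit false
set_option linter.unusedSectionVars false

/-! Families of operators satisfying the Steinberg relations in dimension below the rank are
trivial. -/

namespace Pool.Agent.X277.SR

section
variable {ι K V : Type*} [Field K] [AddCommGroup V] [Module K V] [FiniteDimensional K V]
  [Fintype ι] [DecidableEq ι] {x : ι → ι → Module.End K V}

lemma inj (h : StE x) {i j : ι} (hij : i ≠ j) : Function.Injective (x i j) :=
  LinearMap.injective_iff_surjective.mpr (h.surj i j hij)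

lemma ne_zero (h : StE x) {i j : ι} (hij : i ≠ j) {v : V} (hv : v ≠ 0) : x i j v ≠ 0 := by
  intro h0
  exact hv (inj h hij (by rw [h0, map_zero]))

lemma move (h : StE x) {a i j : ι} (hi : i ≠ a) (hj : j ≠ a) (hij : i ≠ j) {χ : ι → K} {v : V}
    (hv : ∀ k, k ≠ a → x a k v = χ k • v) :
    ∀ k, k ≠ a → x a k (x i j v) = (Function.update χ i (χ i * χ j)) k • x i j v := by
  have hne : ∀ k, k ≠ a → k ≠ i → x a k (x i j v) = χ k • x i j v := by
    intro k hk hki
    rw [h.comm a k i j (Ne.symm hk) hij hki (Ne.symm hj) v, hv k hk, map_smul]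
  intro k hk
  by_cases hki : k = i
  · subst hki
    rw [Function.update_self, h.rel a k j (Ne.symm hi) hij (Ne.symm hj) v, hv k hi, map_smul,
      map_smul, hne j hj (Ne.symm hij), smul_smul]
  · rw [Function.update_of_ne hki]; exact hne k hk hki

lemma weight_trivial (h : StE x) (h3 : 3 ≤ Fintype.card ι)
    (hd : Module.finrank K V < Fintype.card ι) {a : ι} {v : V} (hv0 : v ≠ 0) {χ : ι → K}
    (hv : ∀ k, k ≠ a → x a k v = χ k • v) : ∀ k, k ≠ a → χ k = 1 := by
  intro k hka
  by_contra hk1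
  obtain ⟨c, hca, hck⟩ := third h3 a k
  have hχ0 : ∀ j, j ≠ a → χ j ≠ 0 := by
    intro j hj h0
    apply ne_zero h (Ne.symm hj) hv0
    rw [hv j hj, h0, zero_smul]
  obtain ⟨u, hu0, ψ, hu, hψ⟩ : ∃ u : V, u ≠ 0 ∧ ∃ ψ : ι → K, (∀ j, j ≠ a → x a j u = ψ j • u) ∧
      ψ k ≠ χ k := by
    by_cases hc1 : χ c = 1
    · have e1 := move h hca hka hck hv
      have e2 := move h hka hca (Ne.symm hck) e1
      refine ⟨_, ne_zero h (Ne.symm hck) (ne_zero h hck hv0), _, e2, ?_⟩
      rw [Function.update_self, Function.update_self, Function.update_of_ne (Ne.symm hck), hc1,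
        one_mul]
      intro h4
      exact hk1 (mul_left_cancel₀ (hχ0 k hka) (by rw [h4, mul_one]))
    · refine ⟨_, ne_zero h (Ne.symm hck) hv0, _, move h hka hca (Ne.symm hck) hv, ?_⟩
      rw [Function.update_self]
      intro h4
      exact hc1 (mul_left_cancel₀ (hχ0 k hka) (by rw [h4, mul_one]))
  let w : ι → V := fun t => if t = a then u else if t = k then v else x t k v
  let X : ι → {j : ι // j ≠ a} → K := fun t j =>
    if t = a then ψ j else if t = k then χ j else Function.update χ t (χ t * χ k) j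
  have h1 := card_le_of_weights (fun j : {j : ι // j ≠ a} => x a j)
    (fun i j z => h.comm a i a j (Ne.symm i.2) (Ne.symm j.2) i.2 (Ne.symm j.2) z) w ?_ X ?_ ?_
  · omega
  · intro t
    simp only [w]
    split_ifs with h4 h5
    · exact hu0
    · exact hv0
    · exact ne_zero h h5 hv0
  · have hk : ∀ t, t ≠ a → X t ⟨k, hka⟩ = χ k := by
      intro t ht
      simp only [X, if_neg ht]
      split_ifs with h5
      · rfl
      · rw [Function.update_of_ne (Ne.symm h5)]
    have ha : X a ⟨k, hka⟩ = ψ k := by simp [X]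
    have hself : ∀ t (ht : t ≠ a), t ≠ k → X t ⟨t, ht⟩ = χ t * χ k := by
      intro t ht htk
      simp only [X, if_neg ht, if_neg htk, Function.update_self]
    have hoth : ∀ t s (_ : t ≠ a) (hs : s ≠ a), t ≠ s → X t ⟨s, hs⟩ = χ s := by
      intro t s ht hs hts
      simp only [X, if_neg ht]
      split_ifs with h5
      · rfl
      · rw [Function.update_of_ne (Ne.symm hts)]
    intro t s hts
    by_cases hta : t = a
    · by_cases hsa : s = a
      · rw [hta, hsa]
      · exfalso
        apply hψ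
        rw [← ha, ← hk s hsa, ← hts, hta]
    · by_cases hsa : s = a
      · exfalso
        apply hψ
        rw [← ha, ← hk t hta, hts, hsa]
      · by_contra hne
        by_cases htk : t = k
        · have hsk : s ≠ k := fun h6 => hne (by rw [htk, h6])
          have h7 := hself s hsa hsk
          rw [← hts, hoth t s hta hsa hne] at h7
          exact hk1 (mul_left_cancel₀ (hχ0 s hsa) (by rw [← h7, mul_one]))
        · have h7 := hself t hta htk
          rw [hts, hoth s t hsa hta (Ne.symm hne)] at h7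
          exact hk1 (mul_left_cancel₀ (hχ0 t hta) (by rw [← h7, mul_one]))
  · rintro t ⟨j, hj⟩
    simp only [w, X]
    split_ifs with h4 h5
    · exact hu j hj
    · exact hv j hj
    · exact move h h4 hka h5 hv j hj

/-- vectors fixed by a row -/
def fixRow (x : ι → ι → Module.End K V) (a : ι) : Submodule K V where
  carrier := {v | ∀ j, j ≠ a → x a j v = v}
  add_mem' := by
    intro u v hu hv j hj
    rw [map_add, hu j hj, hv j hj]
  zero_mem' := fun j _ => map_zero _
  smul_mem' := by
    intro c v hv j hj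
    rw [map_smul, hv j hj]

lemma mem_fixRow {a : ι} {v : V} : v ∈ fixRow x a ↔ ∀ j, j ≠ a → x a j v = v := Iff.rfl

lemma fixRow_stable (h : StE x) {a i j : ι} (hi : i ≠ a) (hj : j ≠ a) (hij : i ≠ j) :
    ∀ v ∈ fixRow x a, x i j v ∈ fixRow x a := by
  intro v hv k hk
  have h1 := move h hi hj hij (χ := fun _ => (1 : K)) (v := v)
    (fun k hk => by rw [one_smul]; exact hv k hk) k hk
  rw [h1]
  have h2 : Function.update (fun _ : ι => (1 : K)) i (1 * 1) k = 1 := by
    by_cases hki : k = i
    · subst hki; simp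
    · rw [Function.update_of_ne hki]
  rw [h2, one_smul]

lemma fixRow_ne_bot [IsAlgClosed K] [Nontrivial V] (h : StE x) (h3 : 3 ≤ Fintype.card ι)
    (hd : Module.finrank K V < Fintype.card ι) (a : ι) : fixRow x a ≠ ⊥ := by
  obtain ⟨v, hv0, χ, hv⟩ := exists_joint (fun j : {j : ι // j ≠ a} => x a j)
    (fun i j z => h.comm a i a j (Ne.symm i.2) (Ne.symm j.2) i.2 (Ne.symm j.2) z)
  have h1 := weight_trivial h h3 hd hv0 (χ := fun j => if hj : j ≠ a then χ ⟨j, hj⟩ else 1)
    (fun k hk => by rw [dif_pos hk]; exact hv ⟨k, hk⟩)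
  intro hb
  have h2 : v ∈ fixRow x a := by
    intro j hj
    have h3 := h1 j hj
    rw [dif_pos hj] at h3
    have h4 : x a j v = χ ⟨j, hj⟩ • v := hv ⟨j, hj⟩
    rw [h4, h3, one_smul]
  rw [hb, Submodule.mem_bot] at h2
  exact hv0 h2

lemma restr (h : StE x) (a : ι) (W : Submodule K V)
    (hst : ∀ i j : ι, i ≠ a → j ≠ a → i ≠ j → ∀ w ∈ W, x i j w ∈ W) :
    ∃ y : {i : ι // i ≠ a} → {i : ι // i ≠ a} → Module.End K W, StE y ∧
      ∀ i j : {i : ι // i ≠ a}, i ≠ j → ∀ w : W, ((y i j w : W) : V) = x i j w := by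
  classical
  have hne : ∀ {i j : {i : ι // i ≠ a}}, i ≠ j → i.1 ≠ j.1 := fun h h' => h (Subtype.ext h')
  let y : {i : ι // i ≠ a} → {i : ι // i ≠ a} → Module.End K W := fun i j =>
    if hij : i ≠ j then (x i j).restrict (hst i j i.2 j.2 (hne hij)) else 1
  have hy : ∀ i j : {i : ι // i ≠ a}, i ≠ j → ∀ w : W, ((y i j w : W) : V) = x i j w := by
    intro i j hij w
    simp only [y]
    rw [dif_pos hij]
    rfl
  refine ⟨y, ⟨?_, ?_, ?_⟩, hy⟩
  · intro i j k l h1 h2 h3 h4 v
    apply Subtype.ext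
    rw [hy i j h1, hy k l h2, hy k l h2, hy i j h1]
    exact h.comm i j k l (hne h1) (hne h2) (hne h3) (hne h4) v
  · intro i j k h1 h2 h3 v
    apply Subtype.ext
    rw [hy i j h1, hy j k h2, hy i k h3, hy j k h2, hy i j h1]
    exact h.rel i j k (hne h1) (hne h2) (hne h3) v
  · intro i j h1
    apply LinearMap.injective_iff_surjective.mp
    intro u v huv
    apply Subtype.ext
    apply inj h (hne h1)
    rw [← hy i j h1, ← hy i j h1, huv]

lemma quot (h : StE x) (a : ι) (W : Submodule K V)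
    (hst : ∀ i j : ι, i ≠ a → j ≠ a → i ≠ j → ∀ w ∈ W, x i j w ∈ W) :
    ∃ y : {i : ι // i ≠ a} → {i : ι // i ≠ a} → Module.End K (V ⧸ W), StE y ∧
      ∀ i j : {i : ι // i ≠ a}, i ≠ j → ∀ v : V, y i j (W.mkQ v) = W.mkQ (x i j v) := by
  classical
  have hne : ∀ {i j : {i : ι // i ≠ a}}, i ≠ j → i.1 ≠ j.1 := fun h h' => h (Subtype.ext h')
  let y : {i : ι // i ≠ a} → {i : ι // i ≠ a} → Module.End K (V ⧸ W) := fun i j =>
    if hij : i ≠ j then W.mapQ W (x i j) (fun w hw => hst i j i.2 j.2 (hne hij) w hw) else 1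
  have hy : ∀ i j : {i : ι // i ≠ a}, i ≠ j → ∀ v : V, y i j (W.mkQ v) = W.mkQ (x i j v) := by
    intro i j hij w
    simp only [y]
    rw [dif_pos hij]
    rfl
  refine ⟨y, ⟨?_, ?_, ?_⟩, hy⟩
  · intro i j k l h1 h2 h3 h4 v
    obtain ⟨v, rfl⟩ := W.mkQ_surjective v
    rw [hy k l h2, hy i j h1, hy i j h1, hy k l h2,
      h.comm i j k l (hne h1) (hne h2) (hne h3) (hne h4) v]
  · intro i j k h1 h2 h3 v
    obtain ⟨v, rfl⟩ := W.mkQ_surjective v
    rw [hy j k h2, hy i j h1, hy i j h1, hy j k h2, hy i k h3,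
      h.rel i j k (hne h1) (hne h2) (hne h3) v]
  · intro i j h1 v
    obtain ⟨v, rfl⟩ := W.mkQ_surjective v
    obtain ⟨u, rfl⟩ := h.surj i j (hne h1) v
    exact ⟨W.mkQ u, hy i j h1 u⟩

/-- the rank three case -/
lemma base [IsAlgClosed K] (h : StE x) (h3 : Fintype.card ι = 3)
    (hd : Module.finrank K V < 3) (a : ι) (hW : fixRow x a ≠ ⊤) (hW' : fixRow x a ≠ ⊥) :
    ∃ b, a ≠ b ∧ ∀ v, x a b v = v := by
  obtain ⟨b, hba, -⟩ := third (le_of_eq h3.symm) a a
  obtain ⟨c, hca, hcb⟩ := third (le_of_eq h3.symm) a b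
  refine ⟨b, Ne.symm hba, ?_⟩
  obtain ⟨w, hw, hw0⟩ := Submodule.exists_mem_ne_zero_of_ne_bot hW'
  obtain ⟨z, hz⟩ : ∃ z, z ∉ fixRow x a := by
    by_contra hcon
    apply hW
    rw [eq_top_iff]
    intro z _
    by_contra hz
    exact hcon ⟨z, hz⟩
  have hind : ∀ p q : K, p • z + q • w = 0 → p = 0 ∧ q = 0 := by
    intro p q hpq
    have hp : p = 0 := by
      by_contra hp
      apply hz
      have h1 : z = (-(p⁻¹ * q)) • w := by
        have h2 : p⁻¹ • (p • z + q • w) = 0 := by rw [hpq, smul_zero]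
        rw [smul_add, smul_smul, inv_mul_cancel₀ hp, one_smul, smul_smul] at h2
        rw [neg_smul]
        exact eq_neg_of_add_eq_zero_left h2
      rw [h1]
      exact Submodule.smul_mem _ _ hw
    refine ⟨hp, ?_⟩
    rw [hp, zero_smul, zero_add] at hpq
    exact (smul_eq_zero.mp hpq).resolve_right hw0
  have hcoef : ∀ p q p' q' : K, p • z + q • w = p' • z + q' • w → p = p' ∧ q = q' := by
    intro p q p' q' he
    have h1 := hind (p - p') (q - q') (by
      rw [sub_smul, sub_smul, sub_add_sub_comm, he, sub_self])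
    exact ⟨sub_eq_zero.mp h1.1, sub_eq_zero.mp h1.2⟩
  have hli : LinearIndependent K ![z, w] := by
    rw [LinearIndependent.pair_iff]
    exact hind
  have hdim : Module.finrank K V = 2 := by
    have := hli.fintype_card_le_finrank
    simp at this
    omega
  have hspan : ∀ v : V, ∃ p q : K, v = p • z + q • w := by
    intro v
    have h1 := hli.span_eq_top_of_card_eq_finrank (by simp [hdim])
    have h2 : v ∈ Submodule.span K (Set.range ![z, w]) := by rw [h1]; trivial
    rw [Matrix.range_cons, Matrix.range_cons, Matrix.range_empty, Set.union_empty,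
      Set.singleton_union, Submodule.mem_span_pair] at h2
    obtain ⟨p, q, hpq⟩ := h2
    exact ⟨p, q, hpq.symm⟩
  have hWl : ∀ v ∈ fixRow x a, ∃ q : K, v = q • w := by
    intro v hv
    obtain ⟨p, q, rfl⟩ := hspan v
    by_cases hp : p = 0
    · exact ⟨q, by rw [hp, zero_smul, zero_add]⟩
    · exfalso
      apply hz
      have h1 : p • z ∈ fixRow x a := by
        have := Submodule.sub_mem _ hv (Submodule.smul_mem _ q hw)
        rwa [add_sub_cancel_right] at this
      have h2 := Submodule.smul_mem _ p⁻¹ h1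
      rwa [smul_smul, inv_mul_cancel₀ hp, one_smul] at h2
  -- the operators in coordinates
  obtain ⟨dab, eab, hab⟩ := hspan (x a b z)
  obtain ⟨dac, eac, hac⟩ := hspan (x a c z)
  obtain ⟨dbc, ebc, hbc⟩ := hspan (x b c z)
  obtain ⟨dcb, ecb, hcbz⟩ := hspan (x c b z)
  obtain ⟨tbc, htbc⟩ := hWl _ (fixRow_stable h hba hca (Ne.symm hcb) w hw)
  obtain ⟨tcb, htcb⟩ := hWl _ (fixRow_stable h hca hba hcb w hw)
  have hwb : x a b w = w := hw b hba
  have hwc : x a c w = w := hw c hca
  have nz : ∀ {i j : ι} (_ : i ≠ j) {d e t : K}, x i j z = d • z + e • w → x i j w = t • w →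
      d ≠ 0 ∧ t ≠ 0 := by
    intro i j hij d e t h1 h2
    have ht : t ≠ 0 := by
      intro h0
      rw [h0, zero_smul] at h2
      exact ne_zero h hij hw0 h2
    refine ⟨?_, ht⟩
    intro h0
    rw [h0, zero_smul, zero_add] at h1
    have h5 : x i j (z - (e / t) • w) = 0 := by
      rw [map_sub, map_smul, h1, h2, smul_smul, div_mul_cancel₀ _ ht, sub_self]
    have h6 : z - (e / t) • w = 0 := by
      by_contra h7
      exact ne_zero h hij h7 h5
    exact hz (by rw [sub_eq_zero.mp h6]; exact Submodule.smul_mem _ _ hw)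
  have nbc := nz (Ne.symm hcb) hbc htbc
  have ncb := nz hcb hcbz htcb
  have nab := nz (Ne.symm hba) hab (t := 1) (by rw [one_smul]; exact hwb)
  have nac := nz (Ne.symm hca) hac (t := 1) (by rw [one_smul]; exact hwc)
  -- dac = 1
  have r1 := h.rel a b c (Ne.symm hba) (Ne.symm hcb) (Ne.symm hca) z
  rw [hbc, hab] at r1
  simp only [map_add, map_smul, hab, hac, hbc, hwb, hwc, htbc, smul_add, smul_smul] at r1
  have r2 := h.rel a c b (Ne.symm hca) hcb (Ne.symm hba) z
  rw [hcbz, hac] at r2
  simp only [map_add, map_smul, hab, hac, hcbz, hwb, hwc, htcb, smul_add, smul_smul] at r2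
  have r3 := h.comm a b c b (Ne.symm hba) hcb (Ne.symm hcb) (Ne.symm hba) z
  rw [hcbz, hab] at r3
  simp only [map_add, map_smul, hab, hac, hcbz, hwb, hwc, htcb, smul_add, smul_smul] at r3
  have c1 := hcoef (dbc * dab) (dbc * eab + ebc) (dab * (dbc * dac))
    (dab * (dbc * eac) + dab * ebc + eab * tbc) (by
      refine Eq.trans ?_ (r1.trans ?_) <;> module)
  have c2 := hcoef (dcb * dac) (dcb * eac + ecb) (dac * (dcb * dab))
    (dac * (dcb * eab) + dac * ecb + eac * tcb) (by
      refine Eq.trans ?_ (r2.trans ?_) <;> module)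
  have c3 := hcoef (dcb * dab) (dcb * eab + ecb) (dab * dcb)
    (dab * ecb + eab * tcb) (by
      refine Eq.trans ?_ (r3.trans ?_) <;> module)
  have k1 : dac = 1 := by
    have : dbc * dab * dac = dbc * dab * 1 := by linear_combination -c1.1
    exact mul_left_cancel₀ (mul_ne_zero nbc.1 nab.1) this
  have k2 : dab = 1 := by
    have : dcb * dac * dab = dcb * dac * 1 := by linear_combination -c2.1
    exact mul_left_cancel₀ (mul_ne_zero ncb.1 nac.1) this
  have k3 := c3.2
  have k4 := c2.2
  rw [k2] at k3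
  rw [k1] at k4
  have e0 : eab = 0 := by
    by_contra hne
    have k5 : dcb = tcb := by
      have : eab * dcb = eab * tcb := by linear_combination k3
      exact mul_left_cancel₀ hne this
    rw [← k5] at k4
    have k6 : dcb * eab = 0 := by linear_combination -k4
    exact (mul_ne_zero ncb.1 hne) k6
  intro v
  obtain ⟨p, q, rfl⟩ := hspan v
  rw [map_add, map_smul, map_smul, hab, hwb, k2, e0, one_smul, zero_smul, add_zero]

end

/-- **A family of invertible operators satisfying the Steinberg relations of rank `n ≥ 3` in a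
space of dimension below `n` over an algebraically closed field is trivial.** -/
theorem trivial_of_small {K : Type*} [Field K] [IsAlgClosed K] :
    ∀ (n : ℕ) (ι : Type) [Fintype ι] [DecidableEq ι] (V : Type*) [AddCommGroup V] [Module K V]
      [FiniteDimensional K V] (x : ι → ι → Module.End K V), StE x → Fintype.card ι = n → 3 ≤ n →
      Module.finrank K V < n → ∀ i j, i ≠ j → ∀ v, x i j v = v := by
  intro n
  induction n with
  | zero => intro ι _ _ V _ _ _ x h h1 h2; omega
  | succ n ih =>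
  intro ι _ _ V _ _ _ x h h1 h2 h4
  by_cases hV : Subsingleton V
  · intro i j _ v; exact Subsingleton.elim _ _
  rw [not_subsingleton_iff_nontrivial] at hV
  have h3 : 3 ≤ Fintype.card ι := by omega
  haveI : Nonempty ι := Fintype.card_pos_iff.mp (by omega)
  obtain ⟨a⟩ := this
  have hd : Module.finrank K V < Fintype.card ι := by omega
  obtain ⟨b, hba, -⟩ := third h3 a a
  by_cases hW : fixRow x a = ⊤
  · refine triv_of_one h h3 (Ne.symm hba) (fun v => ?_)
    have : v ∈ fixRow x a := by rw [hW]; trivial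
    exact this b hba
  have hW' := fixRow_ne_bot h h3 hd a
  by_cases hn : n + 1 = 3
  · obtain ⟨b, hab, hb⟩ := base h (by omega) (by omega) a hW hW'
    exact triv_of_one h h3 hab hb
  have hst : ∀ i j : ι, i ≠ a → j ≠ a → i ≠ j → ∀ w ∈ fixRow x a, x i j w ∈ fixRow x a :=
    fun i j hi hj hij => fixRow_stable h hi hj hij
  have hcard : Fintype.card {i : ι // i ≠ a} = n := by
    rw [Fintype.card_subtype_compl, Fintype.card_subtype_eq]
    omega
  have hf1 : Module.finrank K (fixRow x a) < Module.finrank K V := Submodule.finrank_lt hW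
  have hf2 : 0 < Module.finrank K (fixRow x a) := by
    haveI : Nontrivial (fixRow x a) := Submodule.nontrivial_iff_ne_bot.mpr hW'
    exact Module.finrank_pos
  have hf3 := Submodule.finrank_quotient_add_finrank (fixRow x a)
  obtain ⟨y, hy, hy'⟩ := restr h a (fixRow x a) hst
  obtain ⟨y2, hy2, hy2'⟩ := quot h a (fixRow x a) hst
  have t1 := ih {i : ι // i ≠ a} (fixRow x a) y hy hcard (by omega) (by omega)
  have t2 := ih {i : ι // i ≠ a} (V ⧸ fixRow x a) y2 hy2 hcard (by omega) (by omega)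
  obtain ⟨c, hca, hcb⟩ := third h3 a b
  obtain ⟨d, hdb, hdc⟩ := third (ι := {i : ι // i ≠ a}) (by omega) ⟨b, hba⟩ ⟨c, hca⟩
  have hdb' : d.1 ≠ b := fun h => hdb (Subtype.ext h)
  have hdc' : d.1 ≠ c := fun h => hdc (Subtype.ext h)
  have u1 : ∀ i j : {i : ι // i ≠ a}, i ≠ j → ∀ w ∈ fixRow x a, x i j w = w := by
    intro i j hij w hw
    rw [← hy' i j hij ⟨w, hw⟩, t1 i j hij]
  have u2 : ∀ i j : {i : ι // i ≠ a}, i ≠ j → ∀ v, x i j v - v ∈ fixRow x a := by
    intro i j hij v
    have h5 := hy2' i j hij v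
    rw [t2 i j hij] at h5
    rw [← Submodule.Quotient.mk_eq_zero, Submodule.Quotient.mk_sub]
    exact sub_eq_zero.mpr h5.symm
  have hbc : (⟨b, hba⟩ : {i : ι // i ≠ a}) ≠ ⟨c, hca⟩ := fun h => hcb (congrArg Subtype.val h).symm
  have hcomm : ∀ v, x b c (x c d v) = x c d (x b c v) := by
    intro v
    have e1 : x b c (x c d v - v) = x c d v - v :=
      u1 ⟨b, hba⟩ ⟨c, hca⟩ hbc _ (u2 ⟨c, hca⟩ d (Ne.symm hdc) v)
    have e2 : x c d (x b c v - v) = x b c v - v :=
      u1 ⟨c, hca⟩ d (Ne.symm hdc) _ (u2 ⟨b, hba⟩ ⟨c, hca⟩ hbc v)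
    rw [map_sub] at e1 e2
    have e3 : x b c (x c d v) = x c d v - v + x b c v := by
      rw [← e1]; abel
    have e4 : x c d (x b c v) = x b c v - v + x c d v := by
      rw [← e2]; abel
    rw [e3, e4]; abel
  exact triv_of_one h h3 (a := b) (b := d.1) (Ne.symm hdb')
    (triv_of_comm h (Ne.symm hcb) (Ne.symm hdc') (Ne.symm hdb') hcomm)

end Pool.Agent.X277.SR
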