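import Pool.Agent.X277.SR.Fin2
import Pool.Agent.X277.SR.Char

set_option autoImplicit false
set_option linter.unusedSectionVars false

/-! Groups all of whose finite quotients are quotients of `SL_n(ℤ)`: linear representations in
positive characteristic have finite image. -/

namespace Pool.Agent.X277.SR

universe v

open Matrix (SpecialLinearGroup)
open Matrix.SpecialLinearGroup

/-- the finite group through which representations of degree `m` in characteristic `p` factor -/
abbrev FQ (n m p : ℕ) : Type := SpecialLinearGroup (Fin n) ℤ ⧸ EN (Fin n) (m.factorial * p ^ m)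

section
variable {n : ℕ} {Λ : Type} [Group Λ]

/-- the case of a finite image -/
theorem finite_case (h : QuotientsOfSL n Λ) (hn : 3 ≤ n) {k V : Type*} [Field k] (p : ℕ)
    [hp : Fact p.Prime] [CharP k p] [AddCommGroup V] [Module k V] [FiniteDimensional k V] {m : ℕ}
    (hm : Module.finrank k V ≤ m) {G : Type*} [Group G] (τ : G →* (Module.End k V)ˣ)
    (hτ : Function.Injective τ) (ρ : Λ →* G) (hfin : Finite ρ.range) :
    ∃ g : FQ n m p →* ρ.range, Function.Surjective g := by
  have hQ : Finite (Λ ⧸ ρ.ker) :=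
    Finite.of_equiv _ (QuotientGroup.quotientKerEquivRange ρ).toEquiv.symm
  obtain ⟨g0, hg0⟩ := h (Λ ⧸ ρ.ker) (QuotientGroup.mk' ρ.ker) (QuotientGroup.mk'_surjective _)
  have h1 : EN (Fin n) (m.factorial * p ^ m) ≤ g0.ker := by
    apply Subgroup.normalClosure_le_normal
    rintro _ ⟨i, j, hij, rfl⟩
    have h2 := tv_order (by rw [Fintype.card_fin]; exact hn) p hm
      ((τ.comp (QuotientGroup.kerLift ρ)).comp g0) hij
    rw [SetLike.mem_coe, MonoidHom.mem_ker]
    apply QuotientGroup.kerLift_injective ρ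
    apply hτ
    rw [map_one, map_one]
    exact h2
  let g1 : FQ n m p →* (Λ ⧸ ρ.ker) := QuotientGroup.lift _ g0 h1
  have hg1 : Function.Surjective g1 := by
    intro q
    obtain ⟨s, rfl⟩ := hg0 q
    exact ⟨QuotientGroup.mk s, rfl⟩
  exact ⟨(QuotientGroup.quotientKerEquivRange ρ).toMonoidHom.comp g1,
    (QuotientGroup.quotientKerEquivRange ρ).surjective.comp hg1⟩

/-- a finite index subgroup killed by all homomorphisms to groups of bounded order -/
lemma exists_small [Group.FG Λ] (B : ℕ) : ∃ K0 : Subgroup Λ, K0.FiniteIndex ∧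
    ∀ {G : Type v} [Group G] (φ : Λ →* G), Finite φ.range → Nat.card φ.range ≤ B →
      K0 ≤ φ.ker := by
  classical
  obtain ⟨S, hS⟩ := (Group.fg_def.mp inferInstance : (⊤ : Subgroup Λ).FG)
  have hfin : Finite (Λ →* Equiv.Perm (Fin B)) := by
    apply Finite.of_injective (fun f : Λ →* Equiv.Perm (Fin B) => fun s : S => f s)
    intro f g hfg
    apply MonoidHom.eq_of_eqOn_dense hS
    intro s hs
    exact congrFun hfg ⟨s, hs⟩
  refine ⟨⨅ f : Λ →* Equiv.Perm (Fin B), f.ker, ?_, ?_⟩
  · have : ∀ f : Λ →* Equiv.Perm (Fin B), f.ker.FiniteIndex := fun f => inferInstance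
    exact Subgroup.finiteIndex_iInf this
  · intro G _ φ hφ hcard l hl
    let Q := φ.range
    have hQ : Finite Q := hφ
    let e : Q ↪ Fin B := (Finite.equivFin Q).toEmbedding.trans (Fin.castLEEmb hcard)
    let f : Λ →* Equiv.Perm (Fin B) :=
      ((Equiv.Perm.viaEmbeddingHom e).comp (MulAction.toPermHom Q Q)).comp φ.rangeRestrict
    have h1 : f l = 1 := by
      have := (Subgroup.mem_iInf.mp hl) f
      exact this
    have h2 : MulAction.toPermHom Q Q (φ.rangeRestrict l) = 1 := by
      apply Equiv.Perm.viaEmbeddingHom_injective e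
      rw [map_one]
      exact h1
    have h3 := congrArg (fun σ : Equiv.Perm Q => σ 1) h2
    have h4 : φ.rangeRestrict l * 1 = 1 := h3
    rw [mul_one] at h4
    rw [MonoidHom.mem_ker]
    exact congrArg Subtype.val h4

end

lemma jac_int : IsJacobsonRing ℤ := by
  rw [isJacobsonRing_iff_prime_eq]
  intro P hP
  by_cases h : P = ⊥
  · subst h
    rw [eq_bot_iff]
    intro x hx
    rw [Ideal.mem_jacobson_bot] at hx
    have h1 := hx x
    rw [Int.isUnit_iff] at h1
    rw [Ideal.mem_bot]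
    rcases h1 with h1 | h1
    · have : x * x = 0 := by linarith
      exact mul_self_eq_zero.1 this
    · exfalso
      nlinarith [mul_self_nonneg x]
  · have : P.IsMaximal := IsPrime.to_maximal_ideal h
    exact Ideal.jacobson_eq_self_of_isMaximal

lemma exists_max_not_mem {R : Type*} [CommRing R] [IsDomain R] [Algebra.FiniteType ℤ R] {x : R}
    (hx : x ≠ 0) : ∃ m : Ideal R, m.IsMaximal ∧ x ∉ m := by
  have hJ : IsJacobsonRing ℤ := jac_int
  have hR : IsJacobsonRing R := isJacobsonRing_of_finiteType (A := ℤ)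
  have h1 : (⊥ : Ideal R).jacobson = ⊥ := (isJacobsonRing_iff_prime_eq.mp hR) ⊥ Ideal.isPrime_bot
  by_contra hcon
  push Not at hcon
  apply hx
  have h2 : x ∈ (⊥ : Ideal R).jacobson := by
    rw [Ideal.jacobson, Submodule.mem_sInf]
    rintro m ⟨-, hm⟩
    exact hcon m hm
  rw [h1] at h2
  exact h2

section
variable {n : ℕ} {Λ : Type} [Group Λ]

/-- **Linear representations in positive characteristic have finite image.** -/
theorem finite_image [Group.FG Λ] (h : QuotientsOfSL n Λ) (hn : 3 ≤ n) (p : ℕ)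
    [hp : Fact p.Prime] (m : ℕ) {K : Type v} [Field K] [CharP K p]
    (ρ : Λ →* Matrix.GeneralLinearGroup (Fin m) K) : Finite ρ.range := by
  classical
  obtain ⟨S, hS⟩ := (Group.fg_def.mp inferInstance : (⊤ : Subgroup Λ).FG)
  let S' : Finset Λ := S ∪ S.image (fun l => l⁻¹)
  let T : Finset K := (S' ×ˢ (Finset.univ : Finset (Fin m)) ×ˢ (Finset.univ : Finset (Fin m))).image
    (fun q => (ρ q.1).1 q.2.1 q.2.2)
  let R0 : Subalgebra ℤ K := Algebra.adjoin ℤ (T : Set K)
  have hft : Algebra.FiniteType ℤ R0 :=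
    (Subalgebra.fg_iff_finiteType _).mp (Subalgebra.fg_adjoin_finset T)
  have st1 : ∀ l ∈ S', ∀ i j, (ρ l).1 i j ∈ R0 := by
    intro l hl i j
    exact Algebra.subset_adjoin (Finset.mem_coe.mpr (Finset.mem_image.mpr ⟨(l, i, j), by
      simp only [Finset.mem_product, Finset.mem_univ, and_true]; exact hl, rfl⟩))
  have stmul : ∀ a b : Λ, (∀ i j, (ρ a).1 i j ∈ R0) → (∀ i j, (ρ b).1 i j ∈ R0) →
      ∀ i j, (ρ (a * b)).1 i j ∈ R0 := by
    intro a b ha hb i j
    have : (ρ (a * b)).1 i j = ∑ k, (ρ a).1 i k * (ρ b).1 k j := by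
      rw [map_mul]; exact Matrix.mul_apply
    rw [this]
    exact sum_mem (fun k _ => mul_mem (ha i k) (hb k j))
  have st2 : ∀ l : Λ, (∀ i j, (ρ l).1 i j ∈ R0) ∧ (∀ i j, (ρ l⁻¹).1 i j ∈ R0) := by
    intro l
    have hl : l ∈ Subgroup.closure (S : Set Λ) := by rw [hS]; trivial
    induction hl using Subgroup.closure_induction with
    | mem l hl =>
      exact ⟨st1 l (Finset.mem_union_left _ hl),
        st1 l⁻¹ (Finset.mem_union_right _ (Finset.mem_image_of_mem _ hl))⟩
    | one =>
      have : ∀ i j, (ρ 1).1 i j ∈ R0 := by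
        intro i j
        rw [map_one]
        show (1 : Matrix (Fin m) (Fin m) K) i j ∈ R0
        rw [Matrix.one_apply]
        split_ifs
        · exact one_mem _
        · exact zero_mem _
      exact ⟨this, by rw [inv_one]; exact this⟩
    | mul a b _ _ h1 h2 =>
      refine ⟨stmul a b h1.1 h2.1, ?_⟩
      rw [mul_inv_rev]
      exact stmul _ _ h2.2 h1.2
    | inv a _ h1 =>
      refine ⟨h1.2, ?_⟩
      rw [inv_inv]; exact h1.1
  let ρ0 : Λ →* Matrix (Fin m) (Fin m) R0 :=
    { toFun := fun l => Matrix.of fun i j => ⟨(ρ l).1 i j, (st2 l).1 i j⟩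
      map_one' := by
        ext i j
        show (ρ 1).1 i j = ((1 : Matrix (Fin m) (Fin m) R0) i j : K)
        rw [map_one]
        show (1 : Matrix (Fin m) (Fin m) K) i j = _
        rw [Matrix.one_apply, Matrix.one_apply]
        split_ifs <;> rfl
      map_mul' := by
        intro a b
        ext i j
        show (ρ (a * b)).1 i j = _
        have : (ρ (a * b)).1 i j = ∑ k, (ρ a).1 i k * (ρ b).1 k j := by
          rw [map_mul]; exact Matrix.mul_apply
        rw [this, Matrix.mul_apply]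
        push_cast
        rfl }
  have hF : Finite (FQ n m p) := fin_EN (by rw [Fintype.card_fin]; exact hn)
    (Nat.mul_pos (Nat.factorial_pos m) (pow_pos hp.out.pos m))
  obtain ⟨K0, hK0, hK0'⟩ := exists_small (Λ := Λ) (Nat.card (FQ n m p))
  have key : ∀ l ∈ K0, ρ l = 1 := by
    intro l hl
    apply Units.ext
    ext i j
    by_contra hne
    have h1 : ρ0 l i j - (1 : Matrix (Fin m) (Fin m) R0) i j ≠ 0 := by
      intro h0
      apply hne
      have h2 := congrArg Subtype.val (sub_eq_zero.mp h0)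
      have h3 : (ρ l).1 i j = ((1 : Matrix (Fin m) (Fin m) R0) i j : K) := h2
      rw [h3, Matrix.one_apply]
      show _ = (1 : Matrix (Fin m) (Fin m) K) i j
      rw [Matrix.one_apply]
      split_ifs <;> rfl
    obtain ⟨𝔪, hm, hxm⟩ := exists_max_not_mem h1
    have hfk : Finite (R0 ⧸ 𝔪) := residue_finite R0 𝔪
    letI F : Field (R0 ⧸ 𝔪) := Ideal.Quotient.field 𝔪
    have hchar : CharP (R0 ⧸ 𝔪) p := by
      obtain ⟨q, hq⟩ := CharP.exists (R0 ⧸ 𝔪)
      have h2 : ((p : ℕ) : R0 ⧸ 𝔪) = 0 := by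
        have h3 : ((p : ℕ) : R0) = 0 := by
          apply Subtype.ext
          show ((p : ℕ) : K) = 0
          exact CharP.cast_eq_zero K p
        have h4 := congrArg (Ideal.Quotient.mk 𝔪) h3
        rw [map_natCast, map_zero] at h4
        exact h4
      have h5 : q ∣ p := (CharP.cast_eq_zero_iff (R0 ⧸ 𝔪) q p).mp h2
      rcases (Nat.dvd_prime hp.out).mp h5 with h6 | h6
      · exact absurd h6 (CharP.char_ne_one (R0 ⧸ 𝔪) q)
      · rw [← h6]; exact hq
    let φ : Λ →* Module.End (R0 ⧸ 𝔪) (Fin m → R0 ⧸ 𝔪) :=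
      ((Matrix.toLinAlgEquiv' : Matrix (Fin m) (Fin m) (R0 ⧸ 𝔪) ≃ₐ[R0 ⧸ 𝔪] _).toMonoidHom.comp
        ((Ideal.Quotient.mk 𝔪).mapMatrix.toMonoidHom : Matrix (Fin m) (Fin m) R0 →* _)).comp ρ0
    have hfE : Finite (Module.End (R0 ⧸ 𝔪) (Fin m → R0 ⧸ 𝔪)) := DFunLike.finite _
    have hfr : Finite φ.toHomUnits.range := inferInstance
    obtain ⟨g, hg⟩ := finite_case h hn p (k := R0 ⧸ 𝔪) (V := Fin m → R0 ⧸ 𝔪) (m := m)
      (by rw [Module.finrank_fin_fun]) (MonoidHom.id _) Function.injective_id φ.toHomUnits hfr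
    have hcard : Nat.card φ.toHomUnits.range ≤ Nat.card (FQ n m p) :=
      Nat.card_le_card_of_surjective g hg
    have h2 := hK0' φ.toHomUnits hfr hcard hl
    rw [MonoidHom.mem_ker] at h2
    have h3 : φ l = 1 := congrArg Units.val h2
    have h4 : (Ideal.Quotient.mk 𝔪).mapMatrix (ρ0 l) = 1 := by
      apply (Matrix.toLinAlgEquiv' : Matrix (Fin m) (Fin m) (R0 ⧸ 𝔪) ≃ₐ[R0 ⧸ 𝔪] _).injective
      rw [map_one]
      exact h3
    have h5 := congrFun (congrFun h4 i) j
    apply hxm
    rw [← Ideal.Quotient.eq_zero_iff_mem, map_sub, sub_eq_zero]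
    have h6 : (Ideal.Quotient.mk 𝔪) (ρ0 l i j) = (1 : Matrix (Fin m) (Fin m) (R0 ⧸ 𝔪)) i j := h5
    rw [h6, Matrix.one_apply, Matrix.one_apply]
    split_ifs
    · rw [map_one]
    · rw [map_zero]
  have hker : ρ.ker.FiniteIndex := Subgroup.finiteIndex_of_le (H := K0) (fun l hl => key l hl)
  have : Finite (Λ ⧸ ρ.ker) := inferInstance
  exact Finite.of_equiv _ (QuotientGroup.quotientKerEquivRange ρ).toEquiv

/-- the image of `ρ` is finite and is a quotient of `SL_n(ℤ) / H` -/
def ImageQuotientOf (n : ℕ) (H : Subgroup (SpecialLinearGroup (Fin n) ℤ)) {Γ G : Type*} [Group Γ]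
    [Group G] (ρ : Γ →* G) : Prop :=
  Finite ρ.range ∧ ∃ g : SpecialLinearGroup (Fin n) ℤ →* ρ.range, Function.Surjective g ∧ H ≤ g.ker

/-- **Linear representations of degree `m` in characteristic `p` have as image a quotient of one
finite group.** -/
theorem image_quotient [Group.FG Λ] (h : QuotientsOfSL n Λ) (hn : 3 ≤ n) (p : ℕ)
    [hp : Fact p.Prime] (m : ℕ) {K : Type v} [Field K] [CharP K p]
    (ρ : Λ →* Matrix.GeneralLinearGroup (Fin m) K) :
    ∃ g : FQ n m p →* ρ.range, Function.Surjective g := by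
  refine finite_case h hn p (k := K) (V := Fin m → K) (m := m) (by rw [Module.finrank_fin_fun])
    (Units.map (Matrix.toLinAlgEquiv' : Matrix (Fin m) (Fin m) K ≃ₐ[K] _).toMonoidHom) ?_ ρ
    (finite_image h hn p m ρ)
  apply Units.map_injective
  exact (Matrix.toLinAlgEquiv' : Matrix (Fin m) (Fin m) K ≃ₐ[K] _).injective

end

end Pool.Agent.X277.SR
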