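import Mathlib

set_option autoImplicit false

/-! Families of operators satisfying the Steinberg relations, in small dimension. -/

namespace Pool.Agent.X277.SR

universe v

/-- invertible operators satisfying the Steinberg relations -/
structure StE {ι K V : Type*} [CommRing K] [AddCommGroup V] [Module K V]
    (x : ι → ι → Module.End K V) : Prop where
  comm : ∀ i j k l, i ≠ j → k ≠ l → j ≠ k → i ≠ l → ∀ v, x i j (x k l v) = x k l (x i j v)
  rel : ∀ i j k, i ≠ j → j ≠ k → i ≠ k → ∀ v, x i j (x j k v) = x i k (x j k (x i j v))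
  surj : ∀ i j, i ≠ j → Function.Surjective (x i j)

lemma third {ι : Type*} [Fintype ι] [DecidableEq ι] (h3 : 3 ≤ Fintype.card ι) (a b : ι) :
    ∃ c, c ≠ a ∧ c ≠ b := by
  by_contra hcon
  have h1 : (Finset.univ : Finset ι) ⊆ {a, b} := by
    intro c _
    by_contra hc
    simp only [Finset.mem_insert, Finset.mem_singleton, not_or] at hc
    exact hcon ⟨c, hc.1, hc.2⟩
  have h2 := Finset.card_le_card h1
  have h4 : ({a, b} : Finset ι).card ≤ 2 := Finset.card_le_two
  rw [Finset.card_univ] at h2
  omega

section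
variable {ι K V : Type*} [CommRing K] [AddCommGroup V] [Module K V] [Fintype ι] [DecidableEq ι]
  {x : ι → ι → Module.End K V}

lemma triv_of_one (h : StE x) (h3 : 3 ≤ Fintype.card ι) {a b : ι} (hab : a ≠ b)
    (h1 : ∀ v, x a b v = v) : ∀ i j, i ≠ j → ∀ v, x i j v = v := by
  have s1 : ∀ j, a ≠ j → ∀ v, x a j v = v := by
    intro j haj v
    by_cases hj : j = b
    · rw [hj]; exact h1 v
    · obtain ⟨u, rfl⟩ := h.surj b j (Ne.symm hj) v
      have h2 := h.rel a b j hab (Ne.symm hj) haj u
      rw [h1, h1] at h2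
      exact h2.symm
  have s2 : ∀ i j, i ≠ a → a ≠ j → i ≠ j → ∀ v, x i j v = v := by
    intro i j hia haj hij v
    obtain ⟨u, rfl⟩ := h.surj i a hia v
    have h2 := h.rel i a j hia haj hij u
    rw [s1 j haj, s1 j haj] at h2
    exact h2.symm
  intro i j hij v
  by_cases hia : i = a
  · subst hia; exact s1 j hij v
  by_cases hja : j = a
  · subst hja
    obtain ⟨c, hci, hcj⟩ := third h3 i j
    obtain ⟨u, rfl⟩ := h.surj c j hcj v
    have h2 := h.rel i c j (Ne.symm hci) hcj hij u
    rw [s2 i c hij (Ne.symm hcj) (Ne.symm hci), s2 i c hij (Ne.symm hcj) (Ne.symm hci)] at h2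
    exact h2.symm
  · exact s2 i j hia (Ne.symm hja) hij v

lemma triv_of_comm (h : StE x) {i j k : ι} (hij : i ≠ j) (hjk : j ≠ k) (hik : i ≠ k)
    (hc : ∀ v, x i j (x j k v) = x j k (x i j v)) : ∀ v, x i k v = v := by
  intro v
  obtain ⟨u, rfl⟩ := h.surj j k hjk v
  obtain ⟨w, rfl⟩ := h.surj i j hij u
  rw [← h.rel i j k hij hjk hik, hc]

end

section weights
variable {K V : Type*} [Field K] [AddCommGroup V] [Module K V] [FiniteDimensional K V]

/-- joint eigenvectors with distinct systems of eigenvalues are independent -/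
lemma card_le_of_weights {J T : Type*} [Fintype T] (f : J → Module.End K V)
    (hc : ∀ i j v, f i (f j v) = f j (f i v)) (w : T → V) (hw : ∀ t, w t ≠ 0) (χ : T → J → K)
    (hχ : Function.Injective χ) (he : ∀ t j, f j (w t) = χ t j • w t) :
    Fintype.card T ≤ Module.finrank K V := by
  have h1 := Module.End.independent_iInf_maxGenEigenspace_of_forall_mapsTo f
    (fun i j => Module.End.mapsTo_maxGenEigenspace_of_comm (by
      show f j * f i = f i * f j
      ext v
      exact hc j i v))
  have h2 := (h1.comp hχ)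
  have h3 : LinearIndependent K w := by
    refine h2.linearIndependent _ (v := w) ?_ hw
    intro t
    simp only [Function.comp]
    rw [Submodule.mem_iInf]
    intro j
    rw [Module.End.mem_maxGenEigenspace]
    refine ⟨1, ?_⟩
    rw [pow_one, LinearMap.sub_apply, he t j]
    simp
  exact h3.fintype_card_le_finrank

variable [IsAlgClosed K]

/-- commuting operators have a joint eigenvector -/
lemma exists_joint {J : Type*} [Fintype J] [DecidableEq J] [Nontrivial V] (f : J → Module.End K V)
    (hc : ∀ i j v, f i (f j v) = f j (f i v)) :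
    ∃ v : V, v ≠ 0 ∧ ∃ χ : J → K, ∀ j, f j v = χ j • v := by
  have key : ∀ S : Finset J, ∃ U : Submodule K V, U ≠ ⊥ ∧ (∀ i, ∀ u ∈ U, f i u ∈ U) ∧
      ∃ χ : J → K, ∀ j ∈ S, ∀ u ∈ U, f j u = χ j • u := by
    intro S
    induction S using Finset.induction_on with
    | empty => exact ⟨⊤, top_ne_bot, fun _ _ _ => trivial, 0, fun j hj => absurd hj (by simp)⟩
    | insert k S hk ih =>
      obtain ⟨U, hU, hst, χ, hχ⟩ := ih
      haveI : Nontrivial U := Submodule.nontrivial_iff_ne_bot.mpr hU
      let g : Module.End K U := (f k).restrict (hst k)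
      obtain ⟨μ, hμ⟩ := Module.End.exists_eigenvalue g
      obtain ⟨u, hu⟩ := hμ.exists_hasEigenvector
      have hu1 : g u = μ • u := hu.apply_eq_smul
      refine ⟨U ⊓ Module.End.eigenspace (f k) μ, ?_, ?_, Function.update χ k μ, ?_⟩
      · intro hb
        have h1 : (u : V) ∈ U ⊓ Module.End.eigenspace (f k) μ := by
          refine ⟨u.2, ?_⟩
          rw [SetLike.mem_coe, Module.End.mem_eigenspace_iff]
          have := congrArg Subtype.val hu1
          exact this
        rw [hb, Submodule.mem_bot] at h1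
        exact hu.2 (Subtype.ext h1)
      · rintro i z ⟨hz1, hz2⟩
        refine ⟨hst i z hz1, ?_⟩
        rw [SetLike.mem_coe, Module.End.mem_eigenspace_iff] at hz2 ⊢
        rw [hc k i z, hz2, map_smul]
      · rintro j hj z ⟨hz1, hz2⟩
        rw [SetLike.mem_coe, Module.End.mem_eigenspace_iff] at hz2
        by_cases hjk : j = k
        · subst hjk
          rw [Function.update_self]; exact hz2
        · rw [Function.update_of_ne hjk]
          exact hχ j ((Finset.mem_insert.mp hj).resolve_left hjk) z hz1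
  obtain ⟨U, hU, -, χ, hχ⟩ := key Finset.univ
  obtain ⟨u, hu, hu0⟩ := Submodule.exists_mem_ne_zero_of_ne_bot hU
  exact ⟨u, hu0, χ, fun j => hχ j (Finset.mem_univ j) u hu⟩

end weights

end Pool.Agent.X277.SR
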