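import Pool.Agent.X277.SR.Sub

set_option autoImplicit false

/-! Homomorphisms from finite-index subgroups of groups whose finite quotients are quotients of
`SL_n(ℤ)` to groups with a finite series with finite, abelian or linear (in positive
characteristic) factors. -/

namespace Pool.Agent.X277.SR

universe u

/-- the group is isomorphic to a group of matrices over a field of positive characteristic -/
def LinearPos (Q : Type u) [Group Q] : Prop :=
  ∃ (p m : ℕ) (K : Type u) (_ : Field K) (_ : CharP K p), p.Prime ∧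
    ∃ ρ : Q →* Matrix.GeneralLinearGroup (Fin m) K, Function.Injective ρ

/-- `G` has a subnormal series of length `k` whose factors embed in groups which are finite,
abelian or linear in positive characteristic -/
def Tame : ℕ → (G : Type u) → [Group G] → Prop
  | 0, G, _ => Subsingleton G
  | k + 1, G, _ => ∃ (Q : Type u) (_ : Group Q) (π : G →* Q),
      (Finite Q ∨ (∀ a b : Q, a * b = b * a) ∨ LinearPos Q) ∧ Tame k π.ker

variable {Λ : Type} [Group Λ]

theorem restrict_fi (Δ : Subgroup Λ) [hΔ : Δ.FiniteIndex] {G : Type u} [Group G] (T : Subgroup G)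
    (f : Δ →* G) (hT : (T.comap f).FiniteIndex)
    (H : ∀ (Δ1 : Subgroup Λ) [Δ1.FiniteIndex] (g : Δ1 →* T), g.ker.FiniteIndex) :
    f.ker.FiniteIndex := by
  let Δ1 : Subgroup Λ := (T.comap f).map Δ.subtype
  have h1 : Δ1.FiniteIndex := by
    refine ⟨?_⟩
    rw [Subgroup.index_map_subtype]
    exact mul_ne_zero hT.index_ne_zero hΔ.index_ne_zero
  have hle : Δ1 ≤ Δ := Subgroup.map_subtype_le _
  let g : Δ1 →* T := (f.comp (Subgroup.inclusion hle)).codRestrict T (by
    rintro ⟨x, y, hy, rfl⟩
    exact hy)
  have h2 : g.ker.FiniteIndex := H Δ1 g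
  have h3 : g.ker.map Δ1.subtype ≤ f.ker.map Δ.subtype := by
    rintro _ ⟨x, hx, rfl⟩
    refine ⟨Subgroup.inclusion hle x, ?_, rfl⟩
    have := congrArg Subtype.val hx
    exact this
  have h4 : (g.ker.map Δ1.subtype).FiniteIndex := by
    refine ⟨?_⟩
    rw [Subgroup.index_map_subtype]
    exact mul_ne_zero h2.index_ne_zero h1.index_ne_zero
  have h5 : (f.ker.map Δ.subtype).FiniteIndex := Subgroup.finiteIndex_of_le h3
  refine ⟨?_⟩
  have h7 := h5.index_ne_zero
  rw [Subgroup.index_map_subtype] at h7
  exact left_ne_zero_of_mul h7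

theorem ker_fi_of_range {A : Type} [Group A] {B : Type u} [Group B] (f : A →* B)
    (hf : Finite f.range) : f.ker.FiniteIndex := by
  have : Finite (A ⧸ f.ker) := Finite.of_equiv _ (QuotientGroup.quotientKerEquivRange f).symm.toEquiv
  exact Subgroup.finiteIndex_of_finite_quotient

theorem tame_fi [Group.FG Λ] {n : ℕ} (h : QuotientsOfSL n Λ) (hn : 3 ≤ n) (k : ℕ) :
    ∀ (Δ : Subgroup Λ) [Δ.FiniteIndex] (G : Type u) [Group G] (f : Δ →* G), Tame k G →
      f.ker.FiniteIndex := by
  induction k with
  | zero =>
    intro Δ _ G _ f hG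
    have hG' : Subsingleton G := hG
    have : f.ker = ⊤ := by
      ext x
      simp only [MonoidHom.mem_ker, Subgroup.mem_top, iff_true]
      exact Subsingleton.elim _ _
    rw [this]
    infer_instance
  | succ k ih =>
    rintro Δ _ G _ f ⟨Q, iQ, π, hQ, ht⟩
    have hg : (π.comp f).ker.FiniteIndex := by
      rcases hQ with hQ | hQ | ⟨p, m, K, iK, iC, hp, ρ, hρ⟩
      · exact ker_fi_of_range _ inferInstance
      · have := Group.isSolvable_of_comm hQ
        exact solv_fi h hn Δ _
      · have hp' : Fact p.Prime := ⟨hp⟩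
        have h1 : (ρ.comp (π.comp f)).ker.FiniteIndex :=
          ker_fi_of_range _ (finite_image_sub Δ _ h hn p)
        have h2 : (ρ.comp (π.comp f)).ker ≤ (π.comp f).ker := by
          intro x hx
          apply hρ
          rw [map_one]
          exact hx
        exact Subgroup.finiteIndex_of_le h2
    refine restrict_fi Δ π.ker f hg ?_
    intro Δ1 _ g
    exact ih Δ1 π.ker g ht

end Pool.Agent.X277.SR
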